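import Mathlib

/-!
Rational approximations `u / V` to an irrational number with `V` prime to a given integer.
-/

set_option autoImplicit false

namespace Run7.h581

open Finset

/-- For coprime `x` and `b` there is `1 ≤ t ≤ M` such that `x + t b` is prime to `M`. -/
lemma cop_shift (b M : ℕ) (x : ℤ) (hM : 0 < M) (h : IsCoprime x (b : ℤ)) :
    ∃ t : ℕ, 1 ≤ t ∧ t ≤ M ∧ ∀ p : ℕ, p.Prime → p ∣ M → ¬ (p : ℤ) ∣ x + t * b := by
  classical
  set t : ℕ := ∏ q ∈ M.primeFactors.filter (fun q : ℕ => ¬ (q : ℤ) ∣ x), q with ht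
  have h1 : ∀ q ∈ M.primeFactors.filter (fun q : ℕ => ¬ (q : ℤ) ∣ x), q.Prime := fun q hq =>
    Nat.prime_of_mem_primeFactors (mem_filter.1 hq).1
  have htM : t ∣ M := Finset.prod_primes_dvd M (fun q hq => (h1 q hq).prime)
    (fun q hq => Nat.dvd_of_mem_primeFactors (mem_filter.1 hq).1)
  refine ⟨t, Nat.pos_of_dvd_of_pos htM hM, Nat.le_of_dvd hM htM, ?_⟩
  intro p hp hpM hdv
  have hpi : Prime (p : ℤ) := Nat.prime_iff_prime_int.1 hp
  by_cases hx : (p : ℤ) ∣ x
  · have h2 : (p : ℤ) ∣ (t : ℤ) * b := (dvd_add_right hx).1 hdv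
    rcases hpi.dvd_or_dvd h2 with h3 | h3
    · have h4 : p ∣ t := by exact_mod_cast h3
      rw [ht] at h4
      obtain ⟨q, hq, hpq⟩ := (Prime.dvd_finsetProd_iff hp.prime _).1 h4
      have h5 := (Nat.prime_dvd_prime_iff_eq hp (h1 q hq)).1 hpq
      subst h5
      exact (mem_filter.1 hq).2 hx
    · have h4 := h.isUnit_of_dvd' hx h3
      exact hpi.not_isUnit h4
  · have h2 : p ∣ t := by
      rw [ht]
      apply dvd_prod_of_mem (fun q => q)
      rw [mem_filter, Nat.mem_primeFactors]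
      exact ⟨⟨hp, hpM, hM.ne'⟩, hx⟩
    have h3 : (p : ℤ) ∣ (t : ℤ) * b := dvd_mul_of_dvd_left (by exact_mod_cast h2) _
    exact hx ((dvd_add_left h3).1 hdv)

/-- multiples of an irrational number stay away from the integers -/
lemma away (α : ℝ) (hα : Irrational α) (B : ℕ) :
    ∃ c : ℝ, 0 < c ∧ ∀ b : ℕ, 1 ≤ b → b ≤ B → ∀ a : ℤ, c ≤ |b * α - a| := by
  induction B with
  | zero => exact ⟨1, one_pos, fun b h1 h2 => by omega⟩
  | succ B ih =>
    obtain ⟨c, hc, h⟩ := ih
    have hirr : Irrational (((B + 1 : ℕ) : ℝ) * α) := hα.natCast_mul (by omega)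
    set x : ℝ := ((B + 1 : ℕ) : ℝ) * α with hx
    have h0 : 0 < |x - round x| := by
      rw [abs_pos, sub_ne_zero]
      exact hirr.ne_int (round x)
    refine ⟨min c |x - round x|, lt_min hc h0, fun b h1 h2 a => ?_⟩
    rcases Nat.lt_or_ge b (B + 1) with h3 | h3
    · exact (min_le_left _ _).trans (h b h1 (by omega) a)
    · have hb : b = B + 1 := le_antisymm h2 h3
      rw [hb]
      exact (min_le_right _ _).trans (round_le x a)

/-- An irrational number has approximations `u / V`, with `V ≤ y / K` prime to `M`, and with an error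
of at most `κ / y`. -/
theorem approx (α : ℝ) (hα : Irrational α) (M : ℕ) (hM : 0 < M) (K κ : ℝ) (hK : 0 < K) (hκ : 0 < κ) :
    ∃ y0 : ℕ, ∀ y : ℕ, y0 ≤ y → ∃ (V : ℕ) (u : ℤ), 0 < V ∧ (∀ p : ℕ, p.Prime → p ∣ M → ¬ p ∣ V) ∧
      K * V ≤ y ∧ y * |α - u / V| ≤ κ := by
  set D : ℝ := K * (M + 2) with hD
  have hD0 : 0 < D := by positivity
  set B : ℕ := ⌈4 * D / κ⌉₊ with hB
  obtain ⟨c, hc, hcα⟩ := away α hα B
  refine ⟨⌈2 * D * (1 / c + 1)⌉₊, fun y hy => ?_⟩
  have hy1 : 2 * D * (1 / c + 1) ≤ y := (Nat.le_ceil _).trans (by exact_mod_cast hy)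
  set Q : ℕ := ⌊(y : ℝ) / D⌋₊ with hQ
  have hc1 : 0 < 1 / c := by positivity
  have hyD : 2 * (1 / c + 1) ≤ (y : ℝ) / D := by
    rw [le_div_iff₀ hD0]
    linarith
  have hyD0 : 0 ≤ (y : ℝ) / D := by positivity
  have hQle : (Q : ℝ) ≤ y / D := Nat.floor_le hyD0
  have hQlt : (y : ℝ) / D < Q + 1 := Nat.lt_floor_add_one _
  have hQge : (y : ℝ) / (2 * D) ≤ Q := by
    have : (y : ℝ) / (2 * D) = y / D / 2 := by rw [div_div]; ring_nf
    rw [this]
    linarith
  have hQ1 : 1 < (Q : ℝ) + 1 := by linarith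
  have hQ0 : 0 < Q := by
    have : (0 : ℝ) < Q := by linarith
    exact_mod_cast this
  have hQr : (0 : ℝ) < Q := by exact_mod_cast hQ0
  obtain ⟨q, hq1, hq2⟩ := Real.exists_rat_abs_sub_le_and_den_le α hQ0
  set b : ℕ := q.den with hb
  set a : ℤ := q.num with ha
  have hb0 : 0 < b := q.den_pos
  have hbr : (0 : ℝ) < b := by exact_mod_cast hb0
  have hqab : (q : ℝ) = a / b := by
    rw [ha, hb]
    exact (Rat.cast_def q)
  rw [hqab] at hq1
  -- the denominator is large
  have hbB : B < b := by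
    by_contra hcon
    push Not at hcon
    have h1 := hcα b hb0 hcon a
    have h2 : |b * α - a| = b * |α - a / b| := by
      rw [← abs_of_pos hbr, ← abs_mul, abs_of_pos hbr]
      congr 1
      field_simp
    have h3 : b * |α - a / b| ≤ 1 / (Q + 1) := by
      calc b * |α - a / b| ≤ b * (1 / ((Q + 1) * b)) := mul_le_mul_of_nonneg_left hq1 hbr.le
        _ = 1 / (Q + 1) := by field_simp
    have h4 : 1 / ((Q : ℝ) + 1) < c := by
      rw [div_lt_iff₀ (by linarith)]
      have h5 : 1 / c < Q + 1 := by linarith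
      rw [div_lt_iff₀ hc] at h5
      linarith
    linarith
  -- a neighbour
  have hcop : IsCoprime a (b : ℤ) := by
    rw [ha, hb]
    exact Int.isCoprime_iff_nat_coprime.2 (by simpa using q.reduced)
  obtain ⟨x, w, hxw⟩ := hcop
  -- `x a + w b = 1`
  have hxb : IsCoprime x (b : ℤ) := ⟨a, w, by linarith⟩
  -- normalise `x` to lie in `[Q, Q + b)`
  obtain ⟨s, hs1, hs2⟩ : ∃ s : ℤ, (Q : ℤ) ≤ x + s * b ∧ x + s * b < Q + b := by
    have hbz : (0 : ℤ) < b := by exact_mod_cast hb0
    refine ⟨-((x - Q) / b), ?_, ?_⟩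
    · have := Int.emod_nonneg (x - Q) hbz.ne'
      have h2 := Int.emod_add_mul_ediv (x - Q) b
      nlinarith
    · have := Int.emod_lt_of_pos (x - Q) hbz
      have h2 := Int.emod_add_mul_ediv (x - Q) b
      nlinarith
  have hxb' : IsCoprime (x + s * b) (b : ℤ) := by
    obtain ⟨u, v, huv⟩ := hxb
    exact ⟨u, v - u * s, by linear_combination huv⟩
  obtain ⟨t, ht1, htM, ht⟩ := cop_shift b M (x + s * b) hM hxb'
  set Vz : ℤ := x + s * b + t * b with hVz
  have hVpos : 0 < Vz := by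
    have : (0 : ℤ) < Q := by exact_mod_cast hQ0
    have : (0 : ℤ) ≤ t * b := by positivity
    omega
  obtain ⟨V, hV⟩ := Int.eq_ofNat_of_zero_le hVpos.le
  have hVr : (V : ℝ) = x + s * b + t * b := by
    have : ((V : ℤ) : ℝ) = ((x + s * b + t * b : ℤ) : ℝ) := by rw [← hV]
    push_cast at this
    exact this
  set u : ℤ := -w + s * a + t * a with hu
  have hdet : (a : ℤ) * Vz - u * b = 1 := by
    rw [hVz, hu]
    linear_combination hxw
  have hV0 : 0 < V := by omega
  have hV0r : (0 : ℝ) < V := by exact_mod_cast hV0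
  have hVQ : (Q : ℝ) ≤ V := by
    have : (Q : ℤ) ≤ V := by
      rw [← hV]
      have : (0 : ℤ) ≤ t * b := by positivity
      omega
    exact_mod_cast this
  have hbQ : (b : ℝ) ≤ Q := by exact_mod_cast hq2
  have hVle : (V : ℝ) ≤ (M + 2) * Q := by
    have h1 : (x : ℝ) + s * b < Q + b := by exact_mod_cast hs2
    have h2 : (t : ℝ) * b ≤ M * Q := by
      apply mul_le_mul (by exact_mod_cast htM) hbQ hbr.le (Nat.cast_nonneg _)
    rw [hVr]
    nlinarith
  refine ⟨V, u, hV0, ?_, ?_, ?_⟩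
  · intro p hp hpM hpV
    apply ht p hp hpM
    rw [hV]
    exact_mod_cast hpV
  · calc K * V ≤ K * ((M + 2) * Q) := mul_le_mul_of_nonneg_left hVle hK.le
      _ = D * Q := by rw [hD]; ring
      _ ≤ D * (y / D) := mul_le_mul_of_nonneg_left hQle hD0.le
      _ = y := by field_simp
  · have h1 : |(a : ℝ) / b - u / V| = 1 / (b * V) := by
      have h2 : (a : ℝ) / b - u / V = 1 / (b * V) := by
        rw [div_sub_div _ _ hbr.ne' hV0r.ne']
        congr 1
        have : ((a * Vz - u * b : ℤ) : ℝ) = 1 := by rw [hdet]; norm_num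
        rw [hV] at this
        push_cast at this
        linarith
      rw [h2, abs_of_pos (by positivity)]
    have h2 : |α - u / V| ≤ 2 / (b * Q) := by
      have h3 : α - u / V = (α - a / b) + (a / b - u / V) := by ring
      rw [h3]
      refine (abs_add_le _ _).trans ?_
      rw [h1]
      have h4 : 1 / (((Q : ℝ) + 1) * b) ≤ 1 / (b * Q) := by
        apply one_div_le_one_div_of_le (by positivity)
        nlinarith
      have h5 : 1 / ((b : ℝ) * V) ≤ 1 / (b * Q) := by
        apply one_div_le_one_div_of_le (by positivity)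
        exact mul_le_mul_of_nonneg_left hVQ hbr.le
      have h6 : 2 / ((b : ℝ) * Q) = 1 / (b * Q) + 1 / (b * Q) := by ring
      rw [h6]
      linarith
    have h3 : 4 * D / κ ≤ b := by
      have h4 : 4 * D / κ ≤ B := Nat.le_ceil _
      have h5 : (B : ℝ) ≤ b := by exact_mod_cast hbB.le
      linarith
    rw [div_le_iff₀ hκ] at h3
    rw [div_le_iff₀ (by positivity)] at hQge
    calc (y : ℝ) * |α - u / V| ≤ y * (2 / (b * Q)) := mul_le_mul_of_nonneg_left h2 (Nat.cast_nonneg _)
      _ ≤ κ := by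
        rw [mul_div_assoc', div_le_iff₀ (by positivity)]
        nlinarith

end Run7.h581
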