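import Mathlib
import Pool.Agent.TH575.CW.Ent

/-!
Entropy decrement for periodic sequences, conditional on the residue of the position modulo an
integer `V` which is prime to the primes of the scales: at all but few dyadic scales functions of a
window of the sequence, of the residue modulo `V` and of the residues modulo the primes of the scale
may be replaced by their averages over the latter residues.
-/

set_option autoImplicit false

namespace Run7.h581

open Finset Pool.Agent.TH575.CW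
open Pool.Agent.W78.EC (ent cE rsf)
open Pool.Agent.W212.EC (ent_mono ent_congr submod ce WW ent_eq)

lemma E_mod (N L : ℕ) (hN : 1 ≤ N) (hL : 0 < L) (hLN : L ∣ N) {B : Type} (F : ℕ → B)
    (hF : ∀ m n : ℕ, F m = F n ↔ m ≡ n [MOD L]) : E N F = N * (Real.log L - Real.log N) := by
  classical
  have hcount : ∀ n : ℕ, ∑ m ∈ range N, (if F m = F n then (1 : ℝ) else 0) = (N : ℝ) / L := by
    intro n
    rw [sum_boole]
    have h1 : (range N).filter (fun m => F m = F n) = (range N).filter (fun m => m ≡ n [MOD L]) := by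
      apply filter_congr
      intro m _
      rw [hF]
    rw [h1, ← Nat.count_eq_card_filter_range, Nat.count_modEq_card _ hL]
    have h2 : N % L = 0 := Nat.mod_eq_zero_of_dvd hLN
    rw [h2]
    simp only [Nat.not_lt_zero, if_false, add_zero]
    rw [Nat.cast_div hLN (by exact_mod_cast hL.ne')]
  rw [E_eq]
  simp only [hcount]
  rw [sum_const, card_range, nsmul_eq_mul]
  have hN0 : (0 : ℝ) < N := by exact_mod_cast hN
  have hM0' : (0 : ℝ) < L := by exact_mod_cast hL
  rw [Real.log_div hN0.ne' hM0'.ne']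
  ring

lemma E_rsfV (N V : ℕ) (hN : 1 ≤ N) (hV : 0 < V) (hVN : V ∣ N) (P : Finset ℕ) (hP : ∀ p ∈ P, p.Prime)
    (hPN : ∀ p ∈ P, p ∣ N) (hPV : ∀ p ∈ P, ¬ p ∣ V) :
    E N (fun n => (rsf P yy n, n % V)) = N * (∑ p ∈ P, Real.log p + Real.log V - Real.log N) := by
  set M := ∏ p ∈ P, p with hMdef
  have hM0 : 0 < M := prod_pos fun p hp => (hP p hp).pos
  have hcop : Nat.Coprime M V := by
    rw [hMdef]
    apply Nat.Coprime.prod_left
    intro p hp
    exact (Nat.Prime.coprime_iff_not_dvd (hP p hp)).2 (hPV p hp)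
  have hM : M ∣ N := Finset.prod_primes_dvd N (fun p hp => (hP p hp).prime) hPN
  have hMV : M * V ∣ N := hcop.mul_dvd_of_dvd_of_dvd hM hVN
  have hlog : Real.log ((M * V : ℕ) : ℝ) = ∑ p ∈ P, Real.log p + Real.log V := by
    push_cast
    rw [Real.log_mul (by exact_mod_cast hM0.ne') (by exact_mod_cast hV.ne')]
    congr 1
    rw [hMdef]
    push_cast
    apply Real.log_prod
    intro p hp
    have := (hP p hp).pos
    positivity
  rw [E_mod N (M * V) hN (Nat.mul_pos hM0 hV) hMV, hlog]
  intro m n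
  rw [Prod.mk.injEq, rsf_eq_iff]
  constructor
  · rintro ⟨h1, h2⟩
    exact (Nat.modEq_and_modEq_iff_modEq_mul hcop).1 ⟨(modEq_prod P hP n m).1 h1, h2⟩
  · intro h
    have h2 := (Nat.modEq_and_modEq_iff_modEq_mul hcop).2 h
    exact ⟨(modEq_prod P hP n m).2 h2.1, h2.2⟩

section step

variable {A : Type} (c i0 N J V : ℕ) (a : ℕ → A)

/-- conditional entropy of the window given the residues modulo `V` and modulo the primes in
`(2^i0, 2^i]` -/
noncomputable def XV (i : ℕ) : ℝ :=
  E N (fun n => (win (c * 2 ^ i) a n, (rsf (QD i0 i) yy n, n % V))) -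
    E N (fun n => (rsf (QD i0 i) yy n, n % V))

/-- the deficiency -/
noncomputable def DfV (i : ℕ) : ℝ :=
  N * ∑ p ∈ QD i (i + 1), Real.log p -
    (E N (fun n => (rsf (QD i (i + 1)) yy n, (win (c * 2 ^ i) a n, n % V))) -
      E N (fun n => (win (c * 2 ^ i) a n, n % V)))

lemma XV_nonneg (i : ℕ) : 0 ≤ XV c i0 N V a i := by
  unfold XV
  have := E_mono N (fun n => (rsf (QD i0 i) yy n, n % V))
    (fun n => (win (c * 2 ^ i) a n, (rsf (QD i0 i) yy n, n % V)))
    (fun n m h => (Prod.mk.injEq _ _ _ _ ▸ h).2)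
  linarith

lemma claim1V (ha : ∀ n, a (n + N) = a n) (i : ℕ) (hd : ∀ p ∈ QD i0 (i + 1), p ∣ N) (hVN : V ∣ N) :
    XV c i0 N V a (i + 1) ≤
      2 * (E N (fun n => (win (c * 2 ^ i) a n, (rsf (QD i0 (i + 1)) yy n, n % V))) -
        E N (fun n => (rsf (QD i0 (i + 1)) yy n, n % V))) := by
  unfold XV
  set W := c * 2 ^ i with hW
  set R : ℕ → (ℕ → ℕ) × ℕ := fun n => (rsf (QD i0 (i + 1)) yy n, n % V) with hR
  have hW2 : c * 2 ^ (i + 1) = W + W := by rw [hW, pow_succ]; ring
  -- the long window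
  have h1 : E N (fun n => (win (c * 2 ^ (i + 1)) a n, R n)) ≤
      E N (fun n => (win W a (n + W), (R n, win W a n))) := by
    apply E_mono
    intro n m h
    simp only [Prod.mk.injEq] at h ⊢
    refine ⟨?_, h.2.1⟩
    funext k
    unfold win
    by_cases hk : (k : ℕ) < W
    · have := congrFun h.2.2 ⟨k, hk⟩
      exact this
    · have h5 : (k : ℕ) - W < W := by
        have := k.2
        omega
      have := congrFun h.1 ⟨k - W, h5⟩
      unfold win at this
      simp only at this
      have e1 : m + W + ((k : ℕ) - W) = m + k := by omega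
      have e2 : n + W + ((k : ℕ) - W) = n + k := by omega
      rw [e1, e2] at this
      exact this
  have h2 := E_sub N (fun n => win W a (n + W)) R (fun n => win W a n)
  have h3 : E N (fun n => (R n, win W a n)) = E N (fun n => (win W a n, R n)) := by
    apply E_congr
    intro n m
    simp only [Prod.mk.injEq]
    tauto
  have h4 : E N (fun n => (win W a (n + W), R n)) = E N (fun n => (win W a n, R n)) := by
    have h5 : E N (fun n => (win W a (n + W), R n)) = E N (fun n => (win W a (n + W), R (n + W))) := by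
      apply E_congr
      intro n m
      simp only [Prod.mk.injEq]
      have h6 : R (m + W) = R (n + W) ↔ R m = R n := by
        rw [hR]
        simp only [Prod.mk.injEq]
        rw [rsf_eq_iff, rsf_eq_iff]
        constructor
        · rintro ⟨h, h'⟩
          refine ⟨?_, Nat.ModEq.add_right_cancel' W h'⟩
          intro p hp
          have : m + W ≡ n + W [MOD p] := h p hp
          exact Nat.ModEq.add_right_cancel' W this
        · rintro ⟨h, h'⟩
          refine ⟨?_, Nat.ModEq.add_right W h'⟩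
          intro p hp
          have : m ≡ n [MOD p] := h p hp
          exact Nat.ModEq.add_right W this
      rw [h6]
    rw [h5]
    refine E_shift N (fun n => (win W a n, R n)) ?_ W
    intro n
    simp only [Prod.mk.injEq]
    constructor
    · funext k
      unfold win
      have : n + N + (k : ℕ) = n + k + N := by ring
      rw [this, ha]
    · rw [hR]
      simp only [Prod.mk.injEq]
      constructor
      · rw [rsf_eq_iff]
        intro p hp
        rw [Nat.add_mod, Nat.mod_eq_zero_of_dvd (hd p hp), add_zero, Nat.mod_mod]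
      · rw [Nat.add_mod, Nat.mod_eq_zero_of_dvd hVN, add_zero, Nat.mod_mod]
  linarith

lemma claim2V (hN : 1 ≤ N) (hV : 0 < V) (hVN : V ∣ N) (i : ℕ) (hi : i0 ≤ i)
    (hd : ∀ p ∈ QD i0 (i + 1), p ∣ N) (hPV : ∀ p ∈ QD i0 (i + 1), ¬ p ∣ V) :
    DfV c N V a i ≤ XV c i0 N V a i -
      (E N (fun n => (win (c * 2 ^ i) a n, (rsf (QD i0 (i + 1)) yy n, n % V))) -
        E N (fun n => (rsf (QD i0 (i + 1)) yy n, n % V))) := by
  unfold DfV XV
  have hs := QD_succ i0 i hi
  set W := c * 2 ^ i with hW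
  have h1 : E N (fun n => (rsf (QD i0 (i + 1)) yy n, n % V)) - E N (fun n => (rsf (QD i0 i) yy n, n % V)) =
      N * ∑ p ∈ QD i (i + 1), Real.log p := by
    rw [E_rsfV N V hN hV hVN _ (fun p hp => QD_prime hp) hd hPV,
      E_rsfV N V hN hV hVN _ (fun p hp => QD_prime hp)
        (fun p hp => hd p (by rw [hs]; exact mem_union_left _ hp))
        (fun p hp => hPV p (by rw [hs]; exact mem_union_left _ hp))]
    rw [hs, sum_union (QD_disj i0 i)]
    ring
  have h2 := E_sub N (rsf (QD i (i + 1)) yy) (fun n => (win W a n, n % V)) (rsf (QD i0 i) yy)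
  have h3 : E N (fun n => (win W a n, (rsf (QD i0 (i + 1)) yy n, n % V))) ≤
      E N (fun n => (rsf (QD i (i + 1)) yy n, ((win W a n, n % V), rsf (QD i0 i) yy n))) := by
    apply E_mono
    intro n m h
    simp only [Prod.mk.injEq] at h ⊢
    refine ⟨h.2.1.1, ?_, h.2.1.2⟩
    rw [rsf_eq_iff]
    intro p hp
    rw [hs, mem_union] at hp
    rcases hp with hp | hp
    · exact (rsf_eq_iff _ _ _).1 h.2.2 p hp
    · exact (rsf_eq_iff _ _ _).1 h.1 p hp
  have h4 : E N (fun n => ((win W a n, n % V), rsf (QD i0 i) yy n)) =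
      E N (fun n => (win W a n, (rsf (QD i0 i) yy n, n % V))) := by
    apply E_congr
    intro n m
    simp only [Prod.mk.injEq]
    tauto
  linarith

lemma DfV_nonneg (hN : 1 ≤ N) (hV : 0 < V) (hVN : V ∣ N) (i : ℕ) (hd : ∀ p ∈ QD i (i + 1), p ∣ N)
    (hPV : ∀ p ∈ QD i (i + 1), ¬ p ∣ V) : 0 ≤ DfV c N V a i := by
  unfold DfV
  set W := c * 2 ^ i with hW
  have h1 := E_sub N (rsf (QD i (i + 1)) yy) (fun n => n % V) (win W a)
  have h2 := E_rsfV N V hN hV hVN _ (fun p hp => QD_prime hp) hd hPV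
  have h3 : E N (fun n => n % V) = N * (Real.log V - Real.log N) :=
    E_mod N V hN hV hVN (fun n => n % V) (fun m n => Iff.rfl)
  have h5 : E N (fun n => (n % V, win W a n)) = E N (fun n => (win W a n, n % V)) := by
    apply E_congr
    intro n m
    simp only [Prod.mk.injEq]
    tauto
  have h6 : E N (fun n => (rsf (QD i (i + 1)) yy n, (n % V, win W a n))) =
      E N (fun n => (rsf (QD i (i + 1)) yy n, (win W a n, n % V))) := by
    apply E_congr
    intro n m
    simp only [Prod.mk.injEq]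
    tauto
  rw [h5, h6, h2, h3] at h1
  linarith

lemma XV_init [Fintype A] [Nonempty A] (hN : 1 ≤ N) :
    XV c i0 N V a i0 ≤ N * (c * 2 ^ i0 * Real.log (Fintype.card A)) := by
  have h := (ce ℕ (Fin (c * 2 ^ i0) → A) ((ℕ → ℕ) × ℕ) Unit (range N) (fun _ => (1 : ℝ)) (win (c * 2 ^ i0) a)
    (fun n => (rsf (QD i0 i0) yy n, n % V)) (fun _ => ()) (hw1 N)).2.2.2.2.2.1
  have hc : 0 < Fintype.card A := Fintype.card_pos
  have h1 := h (Fintype.card A ^ (c * 2 ^ i0)) (Nat.one_le_iff_ne_zero.2 (pow_pos hc _).ne') (by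
    classical
    refine ⟨univ, ?_, fun _ _ => mem_univ _⟩
    rw [card_univ, Fintype.card_fun, Fintype.card_fin])
  unfold XV E
  unfold cE at h1
  refine h1.trans (le_of_eq ?_)
  rw [sum_const, card_range, nsmul_eq_mul, mul_one]
  push_cast
  rw [Real.log_pow]
  push_cast
  ring

lemma sum_DfV (ha : ∀ n, a (n + N) = a n) (hN : 1 ≤ N) (hV : 0 < V) (hVN : V ∣ N)
    (hd : ∀ p : ℕ, p.Prime → p ≤ 2 ^ (J + 1) → p ∣ N)
    (hdV : ∀ p : ℕ, p.Prime → p ≤ 2 ^ (J + 1) → ¬ p ∣ V) (K : ℕ) (hK : i0 ≤ K) (hKJ : K ≤ J + 1) :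
    ∑ i ∈ Ico i0 K, DfV c N V a i / 2 ^ i ≤ XV c i0 N V a i0 / 2 ^ i0 - XV c i0 N V a K / 2 ^ K := by
  induction K, hK using Nat.le_induction with
  | base => simp
  | succ K hK ih =>
    have h1 := ih (by omega)
    rw [sum_Ico_succ_top hK]
    have hd' : ∀ p ∈ QD i0 (K + 1), p ∣ N := fun p hp => QD_dvd hd (by omega) hp
    have hdV' : ∀ p ∈ QD i0 (K + 1), ¬ p ∣ V := by
      intro p hp
      refine hdV p (QD_prime hp) ?_
      have h1 := (mem_Ioc.1 (mem_filter.1 hp).1).2
      exact h1.trans (Nat.pow_le_pow_right (by norm_num) (by omega))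
    have h2 := claim1V c i0 N V a ha K hd' hVN
    have h3 := claim2V c i0 N V a hN hV hVN K hK hd' hdV'
    have h4 : DfV c N V a K / 2 ^ K ≤ XV c i0 N V a K / 2 ^ K - XV c i0 N V a (K + 1) / 2 ^ (K + 1) := by
      have h5 : (0 : ℝ) < 2 ^ K := by positivity
      have h6 : XV c i0 N V a (K + 1) / 2 ^ (K + 1) = (XV c i0 N V a (K + 1) / 2) / 2 ^ K := by
        rw [pow_succ]; field_simp
      rw [h6, ← sub_div]
      apply div_le_div_of_nonneg_right _ h5.le
      linarith
    linarith

end step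

/-- decoupling at all but few scales, conditional on the residue modulo `V` -/
theorem decoupleV (A : Type) [Fintype A] [Nonempty A] (c : ℕ) (ε : ℝ) (hε : 0 < ε) :
    ∃ (C : ℝ) (i0 : ℕ), 0 < C ∧ 1 ≤ i0 ∧ ∀ J N V : ℕ, 1 ≤ N → 0 < V → V ∣ N →
    (∀ p : ℕ, p.Prime → p ≤ 2 ^ (J + 1) → p ∣ N) → (∀ p : ℕ, p.Prime → p ≤ 2 ^ (J + 1) → ¬ p ∣ V) →
    ∀ a : ℕ → A, (∀ n, a (n + N) = a n) →
    ∃ Bad : Finset ℕ, Bad ⊆ Icc i0 J ∧ ∑ i ∈ Bad, 1 / (i : ℝ) ≤ C ∧ ∀ i ∈ Icc i0 J, i ∉ Bad →
      ∀ ζ : ℕ → (Fin (c * 2 ^ i) → A) → ℕ → ℕ → ℝ, (∀ p d v r, |ζ p d v r| ≤ 1) →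
      ∑ n ∈ range N, |∑ p ∈ QD i (i + 1), Real.log p / 2 ^ i *
        (ζ p (win (c * 2 ^ i) a n) (n % V) (n % p) -
          (∑ r ∈ range p, ζ p (win (c * 2 ^ i) a n) (n % V) r) / p)| ≤ ε * N := by
  set κ : ℝ := ε / 30 with hκ
  have hκ0 : 0 < κ := by positivity
  set η : ℝ := κ * ε / 3 with hη
  have hη0 : 0 < η := by positivity
  -- choice of i0
  have hlim : Filter.Tendsto (fun i : ℕ => (i : ℝ) / 2 ^ i) Filter.atTop (nhds 0) := by
    have := tendsto_pow_const_div_const_pow_of_one_lt 1 (show (1 : ℝ) < 2 by norm_num)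
    simpa using this
  obtain ⟨i1, hi1⟩ := Filter.eventually_atTop.1 (hlim.eventually_lt_const (show (0 : ℝ) < κ * ε / 3 by positivity))
  set i0 := max i1 1 with hi0
  refine ⟨(c * Real.log (Fintype.card A) + 1) / η, i0, ?_, le_max_right _ _, ?_⟩
  · have hc : (1 : ℝ) ≤ Fintype.card A := by exact_mod_cast Fintype.card_pos
    have : 0 ≤ Real.log (Fintype.card A) := Real.log_nonneg hc
    positivity
  intro J N V hN hV hVN hd hdV a ha
  have hN0 : (0 : ℝ) < N := by exact_mod_cast hN
  classical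
  set Bad := (Icc i0 J).filter (fun i => η * N * 2 ^ i / i < DfV c N V a i) with hBad
  refine ⟨Bad, filter_subset _ _, ?_, ?_⟩
  · by_cases hJ : i0 ≤ J + 1
    swap
    · have : Icc i0 J = ∅ := by
        rw [Icc_eq_empty]; omega
      rw [hBad, this]
      simp
      have hc : (1 : ℝ) ≤ Fintype.card A := by exact_mod_cast Fintype.card_pos
      have : 0 ≤ Real.log (Fintype.card A) := Real.log_nonneg hc
      positivity
    have h1 := sum_DfV c i0 N J V a ha hN hV hVN hd hdV (J + 1) hJ le_rfl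
    have h2 := XV_nonneg c i0 N V a (J + 1)
    have h3 := XV_init c i0 N V a hN
    have h4 : ∑ i ∈ Ico i0 (J + 1), DfV c N V a i / 2 ^ i ≤ N * (c * Real.log (Fintype.card A)) := by
      refine h1.trans ?_
      have h5 : 0 ≤ XV c i0 N V a (J + 1) / 2 ^ (J + 1) := by positivity
      have h6 : XV c i0 N V a i0 / 2 ^ i0 ≤ N * (c * Real.log (Fintype.card A)) := by
        rw [div_le_iff₀ (by positivity)]
        refine h3.trans (le_of_eq ?_)
        ring
      linarith
    have h5 : ∑ i ∈ Bad, η * N * (1 / (i : ℝ)) ≤ ∑ i ∈ Ico i0 (J + 1), DfV c N V a i / 2 ^ i := by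
      have h6 : ∀ i ∈ Bad, η * N * (1 / (i : ℝ)) ≤ DfV c N V a i / 2 ^ i := by
        intro i hi
        rw [hBad, mem_filter] at hi
        rw [le_div_iff₀ (by positivity)]
        refine le_trans (le_of_eq ?_) hi.2.le
        ring
      refine (sum_le_sum h6).trans ?_
      apply sum_le_sum_of_subset_of_nonneg
      · intro i hi
        rw [hBad, mem_filter, mem_Icc] at hi
        rw [mem_Ico]
        omega
      · intro i hi _
        rw [mem_Ico] at hi
        have := DfV_nonneg c N V a hN hV hVN i (fun p hp => QD_dvd hd (by omega) hp) (by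
          intro p hp
          refine hdV p (QD_prime hp) ?_
          have h1 := (mem_Ioc.1 (mem_filter.1 hp).1).2
          exact h1.trans (Nat.pow_le_pow_right (by norm_num) (by omega)))
        positivity
    rw [← mul_sum] at h5
    rw [le_div_iff₀ hη0]
    have h7 : η * N * ∑ i ∈ Bad, 1 / (i : ℝ) ≤ N * (c * Real.log (Fintype.card A)) := h5.trans h4
    have h8 : η * ∑ i ∈ Bad, 1 / (i : ℝ) ≤ c * Real.log (Fintype.card A) := by
      by_contra hcon
      push Not at hcon
      have : N * (c * Real.log (Fintype.card A)) < N * (η * ∑ i ∈ Bad, 1 / (i : ℝ)) :=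
        mul_lt_mul_of_pos_left hcon hN0
      linarith
    linarith
  · intro i hi hib ζ hζ
    have hi' : i0 ≤ i ∧ i ≤ J := mem_Icc.1 hi
    have hDf : DfV c N V a i ≤ η * N * 2 ^ i / i := by
      by_contra hcon
      push Not at hcon
      exact hib (by rw [hBad, mem_filter]; exact ⟨hi, hcon⟩)
    have hi1' : 1 ≤ i := le_trans (le_max_right _ _) hi'.1
    have hir : (1 : ℝ) ≤ i := by exact_mod_cast hi1'
    have h2i : (0 : ℝ) < 2 ^ i := by positivity
    set τ : ℝ := κ * 2 ^ i / i with hτ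
    have hτ0 : 0 < τ := by positivity
    have key := Pool.Agent.W721.ECV.dv ℕ ((Fin (c * 2 ^ i) → A) × ℕ) ℕ (range N) (fun _ => (1 : ℝ))
      (fun n => (win (c * 2 ^ i) a n, n % V)) (QD i (i + 1)) yy (fun p => range p)
      (fun p => Real.log p / 2 ^ i) (fun p d r => ζ p d.1 d.2 r) 1 τ
      (hw1 N) (fun n _ p hp => by
        rw [mem_range]
        exact Nat.mod_lt _ (QD_prime hp).pos) (fun p d y => hζ p d.1 d.2 y) hτ0
    have e1 : ∑ ω ∈ range N, (1 : ℝ) = N := by simp
    simp only [one_mul, card_range, e1, one_pow, mul_one] at key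
    have e2 : cE (range N) (fun _ => (1 : ℝ)) (rsf (QD i (i + 1)) yy)
        (fun n => (win (c * 2 ^ i) a n, n % V)) =
        N * ∑ p ∈ QD i (i + 1), Real.log p - DfV c N V a i := by
      unfold DfV cE E
      ring
    rw [e2] at key
    have e3 : (N : ℝ) * (∑ p ∈ QD i (i + 1), Real.log p + Real.log 2) -
        (N * ∑ p ∈ QD i (i + 1), Real.log p - DfV c N V a i) = N * Real.log 2 + DfV c N V a i := by ring
    rw [e3] at key
    refine le_trans key ?_
    have h1 : 1 / τ * (N * Real.log 2 + DfV c N V a i) ≤ ε / 3 * N + ε / 3 * N := by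
      have h2 := hi1 i (le_trans (le_max_left _ _) hi'.1)
      have h3 := Real.log_two_lt_d9
      have h4 : 1 / τ = i / (κ * 2 ^ i) := by
        rw [hτ]; field_simp
      rw [h4, mul_add]
      apply add_le_add
      · rw [div_lt_iff₀ h2i] at h2
        rw [div_mul_eq_mul_div, div_le_iff₀ (by positivity)]
        have h5 : (i : ℝ) * (N * Real.log 2) ≤ i * N := by
          apply mul_le_mul_of_nonneg_left _ (by positivity)
          nlinarith
        have h6 : (i : ℝ) * N ≤ κ * ε / 3 * 2 ^ i * N := mul_le_mul_of_nonneg_right h2.le hN0.le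
        refine h5.trans (h6.trans (le_of_eq ?_))
        ring
      · refine (mul_le_mul_of_nonneg_left hDf (by positivity)).trans (le_of_eq ?_)
        rw [hη]
        field_simp
    have h2 : (N : ℝ) * (τ * 2 * ∑ p ∈ QD i (i + 1), (Real.log p / 2 ^ i) ^ 2) ≤ ε / 3 * N := by
      have h3 := sq_QD i hi1'
      have h4 : τ * 2 * ∑ p ∈ QD i (i + 1), (Real.log p / 2 ^ i) ^ 2 ≤ τ * 2 * (5 * i / 2 ^ i) :=
        mul_le_mul_of_nonneg_left h3 (by positivity)
      have h5 : τ * 2 * (5 * i / 2 ^ i) = ε / 3 := by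
        rw [hτ, hκ]; field_simp; ring
      rw [h5] at h4
      rw [mul_comm]
      exact mul_le_mul_of_nonneg_right h4 hN0.le
    linarith

end Run7.h581
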