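import Mathlib
import Pool.Agent.Run7.h581.EntV
import Pool.Agent.N781.E.Dec2

/-!
Decoupling for products of `k` bounded functions at linear forms, twisted by phases which depend on
the prime and are periodic modulo an integer `V` which is prime to all primes of the scales.
-/

set_option autoImplicit false

namespace Run7.h581

open Finset Pool.Agent.TH575.CW Pool.Agent.N781.E

/-- admissible weights at the scale `i`: periodic modulo `p`, with mean zero, and small on blocks of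
length `2 ^ i` -/
structure Wt (i : ℕ) (ω : ℕ → ℕ → ℂ) : Prop where
  per : ∀ p ∈ QD i (i + 1), ∀ n, ω p (n + p) = ω p n
  mean : ∀ p ∈ QD i (i + 1), ∑ s ∈ range p, ω p s = 0
  blk : ∀ p ∈ QD i (i + 1), ∀ s, ∑ e ∈ range (2 ^ i), ‖ω p (s + e)‖ ≤ 2

lemma per_mod {α : Type} {f : ℕ → α} {p : ℕ} (h : ∀ n, f (n + p) = f n) (n e : ℕ) :
    f (n % p + e) = f (n + e) := by
  have h1 : Function.Periodic (fun n => f (n + e)) p := by
    intro n
    show f (n + p + e) = f (n + e)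
    rw [show n + p + e = n + e + p by ring, h]
  exact h1.map_mod_nat n

lemma per_mul {α : Type} {f : ℕ → α} {p : ℕ} (h : ∀ n, f (n + p) = f n) (n c : ℕ) :
    f (n + c * p) = f n := by
  induction c with
  | zero => simp
  | succ c ih => rw [show n + (c + 1) * p = n + c * p + p by ring, h, ih]

lemma per_dvd {α : Type} {f : ℕ → α} {p N : ℕ} (h : ∀ n, f (n + p) = f n) (hpN : p ∣ N) (n : ℕ) :
    f (n + N) = f n := by
  obtain ⟨c, rfl⟩ := hpN
  rw [mul_comm, per_mul h]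

lemma norm_le_two (i p : ℕ) (ω : ℕ → ℂ) (hW : ∀ s, ∑ e ∈ range (2 ^ i), ‖ω (s + e)‖ ≤ 2) (n : ℕ) :
    ‖ω n‖ ≤ 2 := by
  have h1 := hW n
  have h2 := single_le_sum (f := fun e => ‖ω (n + e)‖) (fun _ _ => norm_nonneg _)
    (mem_range.2 (show 0 < 2 ^ i by positivity))
  simp only [add_zero] at h2
  exact h2.trans h1

lemma sum_norm_le (i p N : ℕ) (ω : ℕ → ℂ) (hper : ∀ n, ω (n + p) = ω n)
    (hW : ∀ s, ∑ e ∈ range (2 ^ i), ‖ω (s + e)‖ ≤ 2) (hpN : p ∣ N) :
    ∑ n ∈ range N, ‖ω n‖ ≤ 2 * N / 2 ^ i := by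
  have h1 : ∑ n ∈ range N, ∑ e ∈ range (2 ^ i), ‖ω (n + e)‖ = 2 ^ i * ∑ n ∈ range N, ‖ω n‖ := by
    rw [sum_comm]
    have h2 : ∀ e ∈ range (2 ^ i), ∑ n ∈ range N, ‖ω (n + e)‖ = ∑ n ∈ range N, ‖ω n‖ := by
      intro e _
      exact sum_shift N (fun n => ‖ω n‖) (fun n => by simp only [per_dvd hper hpN]) e
    rw [sum_congr rfl h2, sum_const, card_range, nsmul_eq_mul]
    push_cast
    ring
  have h2 : ∑ n ∈ range N, ∑ e ∈ range (2 ^ i), ‖ω (n + e)‖ ≤ N * 2 := by
    refine (sum_le_sum fun n _ => hW n).trans ?_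
    rw [sum_const, card_range, nsmul_eq_mul]
  rw [h1] at h2
  rw [le_div_iff₀ (by positivity)]
  linarith

/-- comparison of a sum over `range N` of cyclic values with a sum over `[1, y]` of the true ones -/
lemma cmpV (i p N y L t s : ℕ) (κ : ℝ) (hκ : 0 ≤ κ) (hpN : p ∣ N) (hNy : N ≤ y) (hyM : y < N + L)
    (ω : ℕ → ℂ) (hper : ∀ n, ω (n + p) = ω n)
    (hW : ∀ s, ∑ e ∈ range (2 ^ i), ‖ω (s + e)‖ ≤ 2)
    (φ ψ : ℕ → ℂ) (h1 : ∀ n, ‖φ n‖ ≤ 1) (h2 : ∀ n, ‖ψ n‖ ≤ 1)
    (h4 : ∀ n, n + t < N → ‖φ n - ψ (n + s * p)‖ ≤ κ) :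
    ‖∑ n ∈ range N, ω n * φ n - ∑ n ∈ Icc 1 y, ω n * ψ n‖ ≤
      κ * (2 * N / 2 ^ i) + 2 * (2 * t + (2 * (s * p) + L + 1)) := by
  have e1 : ‖∑ n ∈ range N, ω n * φ n - ∑ n ∈ range N, ω n * ψ (n + s * p)‖ ≤
      κ * (2 * N / 2 ^ i) + 4 * t := by
    rw [← sum_sub_distrib]
    refine (norm_sum_le _ _).trans ?_
    have e2 : ∀ n ∈ range N, ‖ω n * φ n - ω n * ψ (n + s * p)‖ ≤
        κ * ‖ω n‖ + if N ≤ n + t then (4 : ℝ) else 0 := by
      intro n _
      rw [← mul_sub, norm_mul]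
      have h5 := norm_le_two i p ω hW n
      split_ifs with h
      · have h6 : ‖φ n - ψ (n + s * p)‖ ≤ 2 := by
          refine (norm_sub_le _ _).trans ?_
          have := h1 n
          have := h2 (n + s * p)
          linarith
        have h7 : ‖ω n‖ * ‖φ n - ψ (n + s * p)‖ ≤ 2 * 2 :=
          mul_le_mul h5 h6 (norm_nonneg _) zero_le_two
        have h8 : 0 ≤ κ * ‖ω n‖ := by positivity
        linarith
      · rw [add_zero, mul_comm]
        exact mul_le_mul_of_nonneg_right (h4 n (by omega)) (norm_nonneg _)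
    refine (sum_le_sum e2).trans ?_
    rw [sum_add_distrib, ← mul_sum]
    apply add_le_add
    · exact mul_le_mul_of_nonneg_left (sum_norm_le i p N ω hper hW hpN) hκ
    · rw [← sum_filter, sum_const, nsmul_eq_mul, mul_comm]
      apply mul_le_mul_of_nonneg_left _ (by norm_num)
      have e7 : (range N).filter (fun n => N ≤ n + t) ⊆ Ico (N - t) N := by
        intro n hn
        rw [mem_filter, mem_range] at hn
        rw [mem_Ico]
        omega
      have e8 := card_le_card e7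
      rw [Nat.card_Ico] at e8
      exact_mod_cast (by omega : ((range N).filter (fun n => N ≤ n + t)).card ≤ t)
  have e3 : ∑ n ∈ range N, ω n * ψ (n + s * p) = ∑ n ∈ Ico (s * p) (N + s * p), ω n * ψ n := by
    rw [Finset.sum_Ico_eq_sum_range, show N + s * p - s * p = N by omega]
    apply sum_congr rfl
    intro n _
    rw [add_comm (s * p) n, per_mul hper]
  have hb : ∀ n, ‖ω n * ψ n‖ ≤ 2 := by
    intro n
    rw [norm_mul]
    have h5 := norm_le_two i p ω hW n
    calc ‖ω n‖ * ‖ψ n‖ ≤ 2 * 1 := mul_le_mul h5 (h2 n) (norm_nonneg _) zero_le_two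
      _ = 2 := by norm_num
  have e4 : ‖∑ n ∈ Ico (s * p) (N + s * p), ω n * ψ n - ∑ n ∈ Icc 1 y, ω n * ψ n‖ ≤
      2 * (2 * (s * p) + L + 1) := by
    rw [← Finset.sum_sdiff_sub_sum_sdiff]
    refine (norm_sub_le _ _).trans ?_
    have f1 : ∀ S : Finset ℕ, ‖∑ n ∈ S, ω n * ψ n‖ ≤ S.card * 2 := by
      intro S
      refine (norm_sum_le _ _).trans ?_
      refine (sum_le_sum (fun n _ => hb n)).trans ?_
      rw [sum_const, nsmul_eq_mul]
    have f2 : (Ico (s * p) (N + s * p) \ Icc 1 y).card ≤ 1 + s * p := by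
      have : Ico (s * p) (N + s * p) \ Icc 1 y ⊆ {0} ∪ Ico N (N + s * p) := by
        intro n hn
        rw [mem_sdiff, mem_Ico, mem_Icc] at hn
        rw [mem_union, mem_singleton, mem_Ico]
        omega
      refine (card_le_card this).trans ((card_union_le _ _).trans ?_)
      rw [card_singleton, Nat.card_Ico]
      omega
    have f3 : (Icc 1 y \ Ico (s * p) (N + s * p)).card ≤ s * p + L := by
      have : Icc 1 y \ Ico (s * p) (N + s * p) ⊆ Ico 0 (s * p) ∪ Ico N (N + L) := by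
        intro n hn
        rw [mem_sdiff, mem_Ico, mem_Icc] at hn
        rw [mem_union, mem_Ico, mem_Ico]
        omega
      refine (card_le_card this).trans ((card_union_le _ _).trans ?_)
      rw [Nat.card_Ico, Nat.card_Ico]
      omega
    have g1 := f1 (Ico (s * p) (N + s * p) \ Icc 1 y)
    have g2 := f1 (Icc 1 y \ Ico (s * p) (N + s * p))
    have g3 : ((Ico (s * p) (N + s * p) \ Icc 1 y).card : ℝ) ≤ 1 + s * p := by exact_mod_cast f2
    have g4 : ((Icc 1 y \ Ico (s * p) (N + s * p)).card : ℝ) ≤ s * p + L := by exact_mod_cast f3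
    linarith
  rw [e3] at e1
  have e5 := norm_sub_le_norm_sub_add_norm_sub (∑ n ∈ range N, ω n * φ n)
    (∑ n ∈ Ico (s * p) (N + s * p), ω n * ψ n) (∑ n ∈ Icc 1 y, ω n * ψ n)
  linarith

section

variable {k : ℕ} (a : Fin k → ℕ) (b : Fin k → ℤ) (ha : ∀ j, 1 ≤ a j) (B : ℕ)
  {T : Type} [Nonempty T] (v : T → ℂ) (r : ℂ → T) (F : Fin k → ℤ → ℂ) (N i V : ℕ) (θ : ℕ → ℂ)
  (ω : ℕ → ℕ → ℂ) (φ : ℕ → ℕ → ℂ)

open Classical in
/-- the function of window and residues -/
noncomputable def zeV {W : ℕ} (p : ℕ) (d : Fin W → Al a T) (x s : ℕ) : ℝ :=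
  if p ∈ QD i (i + 1) then
    (∑ e ∈ range (2 ^ i), θ p * (ω p (s + e) * (φ p (x + e) * Ph a b ha B v p d e))).re / 2 else 0

/-- the discrepancy -/
noncomputable def DlV (p : ℕ) : ℂ := ∑ n ∈ range N, ω p n * (φ p n * cy a b ha B v r F N p n)

variable {a b B v r F N i V θ ω φ}

lemma zeV_abs (hv : ∀ t, ‖v t‖ ≤ 1) (hθ : ∀ p, ‖θ p‖ ≤ 1) (hω : Wt i ω) (hφ : ∀ p n, ‖φ p n‖ ≤ 1)
    {W : ℕ} (p : ℕ) (d : Fin W → Al a T) (x s : ℕ) : |zeV a b ha B v i θ ω φ p d x s| ≤ 1 := by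
  unfold zeV
  split_ifs with h
  · rw [abs_div, abs_two, div_le_one (by norm_num)]
    refine (Complex.abs_re_le_norm _).trans ((norm_sum_le _ _).trans ?_)
    refine le_trans (sum_le_sum fun e _ => ?_) (hω.blk p h s)
    rw [norm_mul, norm_mul, norm_mul]
    have h1 := hθ p
    have h2 := hφ p (x + e)
    have h3 := Ph_norm (b := b) (B := B) ha hv p d e
    have h4 : ‖φ p (x + e)‖ * ‖Ph a b ha B v p d e‖ ≤ 1 := mul_le_one₀ h2 (norm_nonneg _) h3
    have h5 := norm_nonneg (ω p (s + e))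
    calc ‖θ p‖ * (‖ω p (s + e)‖ * (‖φ p (x + e)‖ * ‖Ph a b ha B v p d e‖))
        ≤ 1 * (‖ω p (s + e)‖ * 1) := by
          apply mul_le_mul h1 _ (by positivity) zero_le_one
          exact mul_le_mul_of_nonneg_left h4 h5
      _ = _ := by ring
  · simp

lemma zeV_mean (hω : Wt i ω) {W : ℕ} (p : ℕ) (hp : p ∈ QD i (i + 1)) (d : Fin W → Al a T) (x : ℕ) :
    ∑ s ∈ range p, zeV a b ha B v i θ ω φ p d x s = 0 := by
  unfold zeV
  simp only [if_pos hp]
  rw [← sum_div, ← Complex.re_sum, sum_comm]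
  have h1 : ∀ e ∈ range (2 ^ i), ∑ s ∈ range p,
      θ p * (ω p (s + e) * (φ p (x + e) * Ph a b ha B v p d e)) = 0 := by
    intro e _
    rw [← mul_sum, ← sum_mul]
    have h2 : ∑ s ∈ range p, ω p (s + e) = ∑ s ∈ range p, ω p s := by
      apply Complex.ext
      · rw [Complex.re_sum, Complex.re_sum]
        exact sum_shift p (fun n => (ω p n).re) (fun n => by simp only [hω.per p hp]) e
      · rw [Complex.im_sum, Complex.im_sum]
        exact sum_shift p (fun n => (ω p n).im) (fun n => by simp only [hω.per p hp]) e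
    rw [h2, hω.mean p hp, zero_mul, mul_zero]
  rw [sum_congr rfl h1]
  simp

/-- the decoupled sum -/
lemma decV (hb : ∀ j, (b j).natAbs ≤ B) (hω : Wt i ω) (hφ : ∀ p n, φ p (n + V) = φ p n)
    (hd : ∀ p ∈ QD i (i + 1), p ∣ N) (hVN : V ∣ N)
    (hθ : ∀ p, θ p * DlV a b ha B v r F N ω φ p = ‖DlV a b ha B v r F N ω φ p‖) (ε : ℝ)
    (H : ∑ n ∈ range N, |∑ p ∈ QD i (i + 1), Real.log p / 2 ^ i *
        (zeV a b ha B v i θ ω φ p (win ((4 * B + 1) * 2 ^ i) (let_ a r F N) n) (n % V) (n % p) -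
          (∑ s ∈ range p, zeV a b ha B v i θ ω φ p (win ((4 * B + 1) * 2 ^ i) (let_ a r F N) n)
            (n % V) s) / p)| ≤ ε * N) :
    ∑ p ∈ QD i (i + 1), Real.log p * ‖DlV a b ha B v r F N ω φ p‖ ≤ 2 * ε * N := by
  have H2 : ∑ p ∈ QD i (i + 1), Real.log p * ‖DlV a b ha B v r F N ω φ p‖ / 2 ≤ ε * N := by
    refine le_trans (le_trans (le_of_eq ?_) (le_abs_self _)) ((abs_sum_le_sum_abs _ _).trans H)
    rw [sum_comm]
    apply sum_congr rfl
    intro p hp
    have hp2 : p ≤ 2 ^ (i + 1) := by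
      unfold QD at hp
      rw [mem_filter, mem_Ioc] at hp
      exact hp.1.2
    have hpN := hd p hp
    set G : ℕ → ℝ := fun n => (θ p * (ω p n * (φ p n * cy a b ha B v r F N p n))).re with hG
    have hGN : ∀ n, G (n + N) = G n := by
      intro n
      simp only [hG]
      rw [per_dvd (hω.per p hp) hpN, per_dvd (hφ p) hVN, cy_per]
    have h3 : ∀ n ∈ range N, Real.log p / 2 ^ i *
        (zeV a b ha B v i θ ω φ p (win ((4 * B + 1) * 2 ^ i) (let_ a r F N) n) (n % V) (n % p) -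
          (∑ s ∈ range p, zeV a b ha B v i θ ω φ p (win ((4 * B + 1) * 2 ^ i) (let_ a r F N) n)
            (n % V) s) / p) =
        Real.log p / 2 ^ i * ((∑ e ∈ range (2 ^ i), G (n + e)) / 2) := by
      intro n _
      rw [zeV_mean ha hω p hp, zero_div, sub_zero]
      unfold zeV
      rw [if_pos hp, Complex.re_sum]
      congr 2
      apply sum_congr rfl
      intro e he
      rw [mem_range] at he
      simp only [hG]
      rw [Ph_win ha hb p n e hp2 he, per_mod (hω.per p hp), per_mod (hφ p)]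
    rw [sum_congr rfl h3, ← mul_sum, ← sum_div]
    have h4 : ∑ n ∈ range N, ∑ e ∈ range (2 ^ i), G (n + e) = 2 ^ i * ‖DlV a b ha B v r F N ω φ p‖ := by
      rw [sum_comm]
      have h5 : ∀ e ∈ range (2 ^ i), ∑ n ∈ range N, G (n + e) = ‖DlV a b ha B v r F N ω φ p‖ := by
        intro e _
        rw [sum_shift N G hGN e]
        have h6 : (θ p * DlV a b ha B v r F N ω φ p).re = ‖DlV a b ha B v r F N ω φ p‖ := by
          rw [hθ p, Complex.ofReal_re]
        rw [← h6]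
        unfold DlV
        rw [mul_sum, Complex.re_sum]
      rw [sum_congr rfl h5, sum_const, card_range, nsmul_eq_mul]
      push_cast
      ring
    rw [h4]
    field_simp
  rw [← sum_div] at H2
  linarith

end

/-- Decoupling with periodic phases. -/
theorem dec_mainV (k : ℕ) (a : Fin k → ℕ) (b : Fin k → ℤ) (ha : ∀ j, 1 ≤ a j) (ε : ℝ) (hε : 0 < ε) :
    ∃ (C : ℝ) (i0 : ℕ), 0 < C ∧ 1 ≤ i0 ∧ ∀ J : ℕ, ∃ K : ℝ, 0 < K ∧ ∀ y V : ℕ, 0 < V →
      (∀ p : ℕ, p.Prime → p ≤ 2 ^ (J + 1) → ¬ p ∣ V) → K * V ≤ y →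
      ∀ F : Fin k → ℤ → ℂ, (∀ j m, ‖F j m‖ ≤ 1) → ∃ Bad : Finset ℕ, Bad ⊆ Icc i0 J ∧
        ∑ i ∈ Bad, 1 / (i : ℝ) ≤ C ∧ ∀ i ∈ Icc i0 J, i ∉ Bad →
        ∀ ω φ : ℕ → ℕ → ℂ, Wt i ω → (∀ p n, ‖φ p n‖ ≤ 1) → (∀ p n, φ p (n + V) = φ p n) →
        ∑ p ∈ QD i (i + 1), Real.log p *
          ‖∑ n ∈ Icc 1 y, ω p n * (φ p n * ∏ j, F j (a j * n + b j * p))‖ ≤ ε * y := by
  classical
  set B : ℕ := ∑ j, (b j).natAbs with hBdef
  have hb : ∀ j, (b j).natAbs ≤ B := fun j =>
    single_le_sum (f := fun j => (b j).natAbs) (fun _ _ => Nat.zero_le _) (mem_univ j)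
  set τ : ℝ := ε / (18 * (k + 1)) with hτ
  have hτ0 : 0 < τ := by positivity
  have hkτ : k * τ ≤ ε / 18 := by
    rw [hτ]
    have : (k : ℝ) / (k + 1) ≤ 1 := by
      rw [div_le_one (by positivity)]
      linarith
    calc (k : ℝ) * (ε / (18 * (k + 1))) = ε / 18 * (k / (k + 1)) := by
          field_simp
      _ ≤ ε / 18 * 1 := mul_le_mul_of_nonneg_left this (by positivity)
      _ = _ := mul_one _
  obtain ⟨T, hT1, hT2, v, r, hv, hr⟩ := net τ hτ0
  obtain ⟨C, i0, hC, hi0, hdec⟩ := decoupleV (Al a T) (4 * B + 1) (ε / 6) (by positivity)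
  refine ⟨C, i0, hC, hi0, fun J => ?_⟩
  set M : ℕ := ∏ p ∈ (Icc 1 (2 ^ (J + 1))).filter Nat.Prime, p with hM
  have hM0 : 0 < M := prod_pos fun p hp => (mem_filter.1 hp).2.pos
  set KJ : ℝ := 2 * (2 * (2 * (B * 2 ^ (J + 1)) : ℕ) + (2 * (B * 2 ^ (J + 1)) + M + 1)) with hKJ
  have hKJ0 : 0 < KJ := by rw [hKJ]; positivity
  refine ⟨M + 9 * 2 ^ J * KJ / ε, by positivity, fun y V hV hdV hy F hF => ?_⟩
  have hVr : (1 : ℝ) ≤ V := by exact_mod_cast hV
  have hyM : M * V ≤ y := by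
    have h1 : (M : ℝ) * V ≤ y := by
      refine le_trans ?_ hy
      apply mul_le_mul_of_nonneg_right _ (by positivity)
      have : 0 ≤ 9 * 2 ^ J * KJ / ε := by positivity
      linarith
    exact_mod_cast h1
  have hyK : 9 * 2 ^ J * KJ / ε * V ≤ y := by
    refine le_trans ?_ hy
    apply mul_le_mul_of_nonneg_right _ (by positivity)
    have : (0 : ℝ) ≤ M := Nat.cast_nonneg _
    linarith
  set L := M * V with hL
  have hL0 : 0 < L := Nat.mul_pos hM0 hV
  set N := L * (y / L) with hN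
  have hN1 : 1 ≤ N := by
    rw [hN]
    exact Nat.mul_pos hL0 (Nat.div_pos hyM hL0)
  have hNy : N ≤ y := Nat.mul_div_le y L
  have hyN : y < N + L := by
    rw [hN]
    have := Nat.lt_mul_div_succ y hL0
    rw [Nat.mul_add, mul_one] at this
    exact this
  have hMN : M ∣ N := (dvd_mul_right M V).trans (dvd_mul_right L _)
  have hVN : V ∣ N := (dvd_mul_left V M).trans (dvd_mul_right L _)
  have hd : ∀ p : ℕ, p.Prime → p ≤ 2 ^ (J + 1) → p ∣ N := by
    intro p hp hpJ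
    refine dvd_trans ?_ hMN
    rw [hM]
    apply dvd_prod_of_mem (fun p => p)
    rw [mem_filter, mem_Icc]
    exact ⟨⟨hp.one_lt.le, hpJ⟩, hp⟩
  obtain ⟨Bad, hB1, hB2, hB3⟩ := hdec J N V hN1 hV hVN hd hdV (let_ a r F N) let_per
  refine ⟨Bad, hB1, hB2, fun i hi hib ω φ hω hφ1 hφ => ?_⟩
  have hiJ : i ≤ J := (mem_Icc.1 hi).2
  -- the shifted phases
  set φ' : ℕ → ℕ → ℂ := fun p n => φ p (n + B * p) with hφ'
  have hφ'1 : ∀ p n, ‖φ' p n‖ ≤ 1 := fun p n => hφ1 _ _
  have hφ'V : ∀ p n, φ' p (n + V) = φ' p n := by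
    intro p n
    simp only [hφ']
    rw [show n + V + B * p = n + B * p + V by ring, hφ]
  set θ : ℕ → ℂ := fun p => if DlV a b ha B v r F N ω φ' p = 0 then 1 else
    (starRingEnd ℂ) (DlV a b ha B v r F N ω φ' p) / ‖DlV a b ha B v r F N ω φ' p‖ with hθdef
  have hθ1 : ∀ p, ‖θ p‖ ≤ 1 := by
    intro p
    simp only [hθdef]
    split_ifs with h
    · simp
    · rw [norm_div, RCLike.norm_conj, Complex.norm_real, norm_norm, div_self]
      exact norm_ne_zero_iff.2 h
  have hθ2 : ∀ p, θ p * DlV a b ha B v r F N ω φ' p = ‖DlV a b ha B v r F N ω φ' p‖ := by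
    intro p
    simp only [hθdef]
    split_ifs with h
    · rw [h]; simp
    · have h1 : (‖DlV a b ha B v r F N ω φ' p‖ : ℂ) ≠ 0 := by
        exact_mod_cast norm_ne_zero_iff.2 h
      rw [div_mul_eq_mul_div, div_eq_iff h1, mul_comm, Complex.mul_conj, Complex.normSq_eq_norm_sq]
      push_cast
      ring
  have hdi : ∀ p ∈ QD i (i + 1), p ∣ N := by
    intro p hp
    have h1 := QD_prime hp
    unfold QD at hp
    rw [mem_filter, mem_Ioc] at hp
    refine hd p h1 (hp.1.2.trans (Nat.pow_le_pow_right (by norm_num) (by omega)))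
  have h1 := decV (i := i) (θ := θ) (V := V) ha hb hω hφ'V hdi hVN hθ2 (ε / 6)
    (hB3 i hi hib (zeV a b ha B v i θ ω φ') (fun p d x s => zeV_abs ha hv hθ1 hω hφ'1 p d x s))
  have h2i : (0 : ℝ) < 2 ^ i := by positivity
  have hlog : ∀ p ∈ QD i (i + 1), 0 ≤ Real.log p := fun p hp =>
    Real.log_nonneg (by exact_mod_cast (QD_prime hp).one_lt.le)
  have hcmp : ∀ p ∈ QD i (i + 1),
      ‖∑ n ∈ Icc 1 y, ω p n * (φ p n * ∏ j, F j (a j * n + b j * p))‖ ≤
      ‖DlV a b ha B v r F N ω φ' p‖ + (ε / 18 * (2 * y / 2 ^ i) + KJ * V) := by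
    intro p hp
    have hpp := QD_prime hp
    have hp12 : 2 ^ i < p ∧ p ≤ 2 ^ (i + 1) := by
      unfold QD at hp
      rw [mem_filter, mem_Ioc] at hp
      exact hp.1
    have hpJ : p ≤ 2 ^ (J + 1) := hp12.2.trans (Nat.pow_le_pow_right (by norm_num) (by omega))
    set ψ : ℕ → ℂ := fun n => φ p n * ∏ j, F j (a j * n + b j * p) with hψ
    have hψ1 : ∀ n, ‖ψ n‖ ≤ 1 := by
      intro n
      simp only [hψ]
      rw [norm_mul, norm_prod]
      exact mul_le_one₀ (hφ1 _ _) (prod_nonneg fun _ _ => norm_nonneg _)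
        (prod_le_one (fun _ _ => norm_nonneg _) (fun j _ => hF j _))
    have h4 := cmpV i p N y L (2 * (B * p)) B (k * τ) (by positivity) (hdi p hp) hNy hyN
      (ω p) (hω.per p hp) (hω.blk p hp)
      (fun n => φ' p n * cy a b ha B v r F N p n) ψ (by
        intro n
        rw [norm_mul]
        exact mul_le_one₀ (hφ'1 _ _) (norm_nonneg _) (cy_norm ha hv p n)) hψ1 (by
        intro n hn
        simp only [hψ, hφ']
        rw [← mul_sub, norm_mul]
        have h6 : ‖cy a b ha B v r F N p n -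
            ∏ j, F j (a j * ((n + B * p : ℕ) : ℤ) + b j * p)‖ ≤ k * τ := by
          unfold cy
          refine prod_sub_le _ _ τ (fun j => hv _) (fun j => hF j _) (fun j => ?_)
          have h5 := qq_le ha hb p j
          unfold let_
          simp only
          rw [Nat.mod_eq_of_lt (by omega), arg_eq ha hb p n j]
          exact hr _ (hF j _)
        calc _ ≤ 1 * (k * τ) := mul_le_mul (hφ1 _ _) h6 (norm_nonneg _) zero_le_one
          _ = _ := one_mul _)
    have h5 : ‖∑ n ∈ Icc 1 y, ω p n * ψ n‖ ≤ ‖DlV a b ha B v r F N ω φ' p‖ +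
        ‖∑ n ∈ range N, ω p n * (φ' p n * cy a b ha B v r F N p n) - ∑ n ∈ Icc 1 y, ω p n * ψ n‖ := by
      have := norm_sub_norm_le (∑ n ∈ Icc 1 y, ω p n * ψ n) (DlV a b ha B v r F N ω φ' p)
      rw [norm_sub_rev] at this
      unfold DlV at this ⊢
      linarith
    refine h5.trans (add_le_add le_rfl (h4.trans ?_))
    apply add_le_add
    · apply mul_le_mul hkτ _ (by positivity) (by positivity)
      have hNy' : (N : ℝ) ≤ y := by exact_mod_cast hNy
      exact div_le_div_of_nonneg_right (by linarith) h2i.le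
    · rw [hKJ]
      have g1 : (B : ℝ) * p ≤ B * 2 ^ (J + 1) := by
        apply mul_le_mul_of_nonneg_left _ (Nat.cast_nonneg B)
        exact_mod_cast hpJ
      have g2 : (B : ℝ) * 2 ^ (J + 1) ≤ B * 2 ^ (J + 1) * V :=
        le_mul_of_one_le_right (by positivity) hVr
      have g3 : (L : ℝ) = M * V := by rw [hL]; push_cast; ring
      rw [g3]
      push_cast
      nlinarith
  calc ∑ p ∈ QD i (i + 1), Real.log p *
          ‖∑ n ∈ Icc 1 y, ω p n * (φ p n * ∏ j, F j (a j * n + b j * p))‖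
      ≤ ∑ p ∈ QD i (i + 1), (Real.log p * ‖DlV a b ha B v r F N ω φ' p‖ +
          Real.log p * (ε / 18 * (2 * y / 2 ^ i) + KJ * V)) := by
        apply sum_le_sum
        intro p hp
        rw [← mul_add]
        exact mul_le_mul_of_nonneg_left (hcmp p hp) (hlog p hp)
    _ = ∑ p ∈ QD i (i + 1), Real.log p * ‖DlV a b ha B v r F N ω φ' p‖ +
          (∑ p ∈ QD i (i + 1), Real.log p) * (ε / 18 * (2 * y / 2 ^ i) + KJ * V) := by
        rw [sum_add_distrib, sum_mul]
    _ ≤ 2 * (ε / 6) * N + (3 * 2 ^ i) * (ε / 18 * (2 * y / 2 ^ i) + KJ * V) := by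
        apply add_le_add h1
        exact mul_le_mul_of_nonneg_right (theta_le i) (by positivity)
    _ ≤ ε * y := by
        have g1 : 2 * (ε / 6) * N ≤ ε / 3 * y := by
          have : (N : ℝ) ≤ y := by exact_mod_cast hNy
          nlinarith
        have g2 : (3 * 2 ^ i) * (ε / 18 * (2 * y / 2 ^ i)) = ε / 3 * y := by
          field_simp
          ring
        have g3 : (3 * 2 ^ i) * (KJ * V) ≤ ε / 3 * y := by
          have g4 : (2 : ℝ) ^ i ≤ 2 ^ J := pow_le_pow_right₀ one_le_two hiJ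
          have g5 : 0 ≤ KJ * V := by positivity
          rw [div_mul_eq_mul_div, div_le_iff₀ hε] at hyK
          nlinarith [mul_le_mul_of_nonneg_right g4 g5]
        rw [mul_add, g2]
        linarith

end Run7.h581
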