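import Mathlib
import Pool.Agent.Run7.h581.DecV
import Pool.Agent.Run7.h581.Approx

/-!
Decoupling for products of `k` bounded functions at linear forms, twisted by the phases
`e(θ n / p)`, `θ` irrational.
-/

set_option autoImplicit false

namespace Run7.h581

open Finset Pool.Agent.TH575.CW Pool.Agent.N781.E

/-- `e(x) = exp(2 π i x)` -/
noncomputable def ee (x : ℝ) : ℂ := Complex.exp ((2 * Real.pi * x : ℝ) * Complex.I)

lemma ee_norm (x : ℝ) : ‖ee x‖ = 1 := Complex.norm_exp_ofReal_mul_I _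

lemma ee_add (x y : ℝ) : ee (x + y) = ee x * ee y := by
  unfold ee
  rw [← Complex.exp_add]
  congr 1
  push_cast
  ring

lemma ee_int (n : ℤ) : ee n = 1 := by
  unfold ee
  rw [Complex.exp_eq_one_iff]
  exact ⟨n, by push_cast; ring⟩

lemma ee_add_int (x : ℝ) (n : ℤ) : ee (x + n) = ee x := by rw [ee_add, ee_int, mul_one]

lemma ee_zero : ee 0 = 1 := by
  have := ee_int 0
  simpa using this

lemma ee_conj (x : ℝ) : (starRingEnd ℂ) (ee x) = ee (-x) := by
  unfold ee
  rw [← Complex.exp_conj, map_mul, Complex.conj_ofReal, Complex.conj_I]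
  congr 1
  push_cast
  ring

lemma ee_sub_le (x y : ℝ) : ‖ee x - ee y‖ ≤ 2 * Real.pi * |x - y| := by
  have h1 : ee x - ee y = ee y * (ee (x - y) - 1) := by
    rw [mul_sub, ← ee_add, mul_one]
    congr 2
    ring
  rw [h1, norm_mul, ee_norm, one_mul]
  unfold ee
  have h2 := Real.norm_exp_I_mul_ofReal_sub_one_le (x := 2 * Real.pi * (x - y))
  rw [mul_comm (Complex.I)] at h2
  refine h2.trans (le_of_eq ?_)
  rw [Real.norm_eq_abs, abs_mul, abs_of_pos (by positivity)]

/-- Decoupling with irrational phases. -/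
theorem dec_phase (k : ℕ) (a : Fin k → ℕ) (b : Fin k → ℤ) (ha : ∀ j, 1 ≤ a j) (ε : ℝ) (hε : 0 < ε) :
    ∃ (C : ℝ) (i0 : ℕ), 0 < C ∧ 1 ≤ i0 ∧ ∀ θ : ℝ, Irrational θ → ∀ J : ℕ, ∃ y0 : ℕ, ∀ y : ℕ, y0 ≤ y →
      ∀ F : Fin k → ℤ → ℂ, (∀ j m, ‖F j m‖ ≤ 1) → ∃ Bad : Finset ℕ, Bad ⊆ Icc i0 J ∧
        ∑ i ∈ Bad, 1 / (i : ℝ) ≤ C ∧ ∀ i ∈ Icc i0 J, i ∉ Bad → ∀ ω : ℕ → ℕ → ℂ, Wt i ω →
        ∑ p ∈ QD i (i + 1), Real.log p *
          ‖∑ n ∈ Icc 1 y, ω p n * (ee (θ * n / p) * ∏ j, F j (a j * n + b j * p))‖ ≤ ε * y := by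
  obtain ⟨C, i0, hC, hi0, hdec⟩ := dec_mainV k a b ha (ε / 2) (by positivity)
  refine ⟨C, i0, hC, hi0, fun θ hθ J => ?_⟩
  obtain ⟨K, hK, hdecJ⟩ := hdec J
  set M : ℕ := ∏ p ∈ (Icc 1 (2 ^ (J + 1))).filter Nat.Prime, p with hM
  have hM0 : 0 < M := prod_pos fun p hp => (mem_filter.1 hp).2.pos
  have hMr : (0 : ℝ) < M := by exact_mod_cast hM0
  have hpM : ∀ p : ℕ, p.Prime → p ≤ 2 ^ (J + 1) → p ∣ M := by
    intro p hp hpJ
    rw [hM]
    apply dvd_prod_of_mem (fun p => p)
    rw [mem_filter, mem_Icc]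
    exact ⟨⟨hp.one_lt.le, hpJ⟩, hp⟩
  set κ : ℝ := ε / (24 * Real.pi * M) with hκ
  have hκ0 : 0 < κ := by positivity
  obtain ⟨y0, hy0⟩ := approx (θ / M) (hθ.div_natCast hM0.ne') M hM0 K κ hK hκ0
  refine ⟨y0, fun y hy F hF => ?_⟩
  obtain ⟨V, u, hV0, hVM, hVK, hVu⟩ := hy0 y hy
  have hVr : (0 : ℝ) < V := by exact_mod_cast hV0
  obtain ⟨Bad, hB1, hB2, hB3⟩ := hdecJ y V hV0 (fun p hp hpJ => hVM p hp (hpM p hp hpJ)) hVK F hF
  refine ⟨Bad, hB1, hB2, fun i hi hib ω hω => ?_⟩
  have hiJ : i ≤ J := (mem_Icc.1 hi).2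
  set φ : ℕ → ℕ → ℂ := fun p n => ee (((M / p : ℕ) : ℝ) * u * n / V) with hφ
  have h1 := hB3 i hi hib ω φ hω (fun p n => (ee_norm _).le) (by
    intro p n
    simp only [hφ]
    have : ((M / p : ℕ) : ℝ) * u * ((n + V : ℕ) : ℝ) / V =
        ((M / p : ℕ) : ℝ) * u * n / V + ((((M / p : ℕ) : ℤ) * u : ℤ) : ℝ) := by
      rw [Int.cast_mul, Int.cast_natCast, Nat.cast_add, mul_add, add_div, mul_div_assoc _ (V : ℝ),
        div_self hVr.ne', mul_one]
    rw [this, ee_add_int])
  have h2i : (0 : ℝ) < 2 ^ i := by positivity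
  have hlog : ∀ p ∈ QD i (i + 1), 0 ≤ Real.log p := fun p hp =>
    Real.log_nonneg (by exact_mod_cast (QD_prime hp).one_lt.le)
  have hcmp : ∀ p ∈ QD i (i + 1),
      ‖∑ n ∈ Icc 1 y, ω p n * (ee (θ * n / p) * ∏ j, F j (a j * n + b j * p))‖ ≤
      ‖∑ n ∈ Icc 1 y, ω p n * (φ p n * ∏ j, F j (a j * n + b j * p))‖ +
        4 * Real.pi * (M / 2 ^ i) * κ * y := by
    intro p hp
    have hpp := QD_prime hp
    have hp12 : 2 ^ i < p ∧ p ≤ 2 ^ (i + 1) := by
      unfold QD at hp
      rw [mem_filter, mem_Ioc] at hp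
      exact hp.1
    have hpJ : p ≤ 2 ^ (J + 1) := hp12.2.trans (Nat.pow_le_pow_right (by norm_num) (by omega))
    have hp0 : (0 : ℝ) < p := by exact_mod_cast hpp.pos
    have hpi : (2 : ℝ) ^ i ≤ p := by exact_mod_cast hp12.1.le
    have hMp : ((M / p : ℕ) : ℝ) = M / p := Nat.cast_div (hpM p hpp hpJ) hp0.ne'
    have h3 : ∑ n ∈ Icc 1 y, ω p n * (ee (θ * n / p) * ∏ j, F j (a j * n + b j * p)) =
        ∑ n ∈ Icc 1 y, ω p n * (φ p n * ∏ j, F j (a j * n + b j * p)) +
        ∑ n ∈ Icc 1 y, ω p n * ((ee (θ * n / p) - φ p n) * ∏ j, F j (a j * n + b j * p)) := by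
      rw [← sum_add_distrib]
      apply sum_congr rfl
      intro n _
      ring
    rw [h3]
    refine (norm_add_le _ _).trans (add_le_add le_rfl ?_)
    refine (norm_sum_le _ _).trans ?_
    have h4 : ∀ n ∈ Icc 1 y, ‖ω p n * ((ee (θ * n / p) - φ p n) * ∏ j, F j (a j * n + b j * p))‖ ≤
        4 * Real.pi * (M / 2 ^ i) * κ := by
      intro n hn
      rw [mem_Icc] at hn
      rw [norm_mul, norm_mul]
      have h5 := norm_le_two i p (ω p) (hω.blk p hp) n
      have h6 : ‖∏ j, F j (a j * n + b j * p)‖ ≤ 1 := by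
        rw [norm_prod]
        exact prod_le_one (fun _ _ => norm_nonneg _) (fun j _ => hF j _)
      have h7 : ‖ee (θ * n / p) - φ p n‖ ≤ 2 * Real.pi * ((M / 2 ^ i) * κ) := by
        refine (ee_sub_le _ _).trans ?_
        apply mul_le_mul_of_nonneg_left _ (by positivity)
        have h8 : θ * n / p - ((M / p : ℕ) : ℝ) * u * n / V = (M / p) * n * (θ / M - u / V) := by
          rw [hMp]
          field_simp
        rw [h8, abs_mul, abs_of_nonneg (by positivity)]
        have h9 : (n : ℝ) ≤ y := by exact_mod_cast hn.2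
        calc (M : ℝ) / p * n * |θ / M - u / V| ≤ M / p * y * |θ / M - u / V| := by
              apply mul_le_mul_of_nonneg_right _ (abs_nonneg _)
              exact mul_le_mul_of_nonneg_left h9 (by positivity)
          _ = M / p * (y * |θ / M - u / V|) := by ring
          _ ≤ M / p * κ := mul_le_mul_of_nonneg_left hVu (by positivity)
          _ ≤ M / 2 ^ i * κ := by
              apply mul_le_mul_of_nonneg_right _ hκ0.le
              exact div_le_div_of_nonneg_left hMr.le h2i hpi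
      calc ‖ω p n‖ * (‖ee (θ * n / p) - φ p n‖ * ‖∏ j, F j (a j * n + b j * p)‖)
          ≤ 2 * ((2 * Real.pi * ((M / 2 ^ i) * κ)) * 1) := by
            apply mul_le_mul h5 _ (by positivity) zero_le_two
            exact mul_le_mul h7 h6 (norm_nonneg _) (by positivity)
        _ = _ := by ring
    refine (sum_le_sum h4).trans ?_
    rw [sum_const, Nat.card_Icc, nsmul_eq_mul, Nat.add_sub_cancel]
    exact le_of_eq (mul_comm _ _)
  calc ∑ p ∈ QD i (i + 1), Real.log p *
          ‖∑ n ∈ Icc 1 y, ω p n * (ee (θ * n / p) * ∏ j, F j (a j * n + b j * p))‖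
      ≤ ∑ p ∈ QD i (i + 1), (Real.log p *
          ‖∑ n ∈ Icc 1 y, ω p n * (φ p n * ∏ j, F j (a j * n + b j * p))‖ +
          Real.log p * (4 * Real.pi * (M / 2 ^ i) * κ * y)) := by
        apply sum_le_sum
        intro p hp
        rw [← mul_add]
        exact mul_le_mul_of_nonneg_left (hcmp p hp) (hlog p hp)
    _ = ∑ p ∈ QD i (i + 1), Real.log p *
          ‖∑ n ∈ Icc 1 y, ω p n * (φ p n * ∏ j, F j (a j * n + b j * p))‖ +
          (∑ p ∈ QD i (i + 1), Real.log p) * (4 * Real.pi * (M / 2 ^ i) * κ * y) := by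
        rw [sum_add_distrib, sum_mul]
    _ ≤ ε / 2 * y + (3 * 2 ^ i) * (4 * Real.pi * (M / 2 ^ i) * κ * y) := by
        apply add_le_add h1
        exact mul_le_mul_of_nonneg_right (theta_le i) (by positivity)
    _ = ε * y := by
        rw [hκ]
        field_simp
        ring

/-- the weights `e(n / p) / 2 ^ i` -/
noncomputable def wA (i : ℕ) (p n : ℕ) : ℂ := ee (n / p) / 2 ^ i

/-- the weights `1_{p ∣ n} - 1 / p` -/
noncomputable def wB (p n : ℕ) : ℂ := (om p n : ℂ)

lemma wt_A (i : ℕ) : Wt i (wA i) where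
  per := by
    intro p hp n
    have hp0 : (p : ℝ) ≠ 0 := by exact_mod_cast (QD_prime hp).ne_zero
    unfold wA
    have : ((n + p : ℕ) : ℝ) / p = n / p + ((1 : ℤ) : ℝ) := by
      push_cast
      field_simp
    rw [this, ee_add_int]
  mean := by
    intro p hp
    have hpp := QD_prime hp
    unfold wA
    rw [← sum_div]
    have h1 := (Complex.isPrimitiveRoot_exp p hpp.ne_zero).geom_sum_eq_zero hpp.one_lt
    have h2 : ∑ s ∈ range p, ee (s / p) = 0 := by
      rw [← h1]
      apply sum_congr rfl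
      intro s _
      unfold ee
      rw [← Complex.exp_nat_mul]
      congr 1
      push_cast
      ring
    rw [h2, zero_div]
  blk := by
    intro p _ s
    unfold wA
    have h1 : ∀ e ∈ range (2 ^ i), ‖ee (((s + e : ℕ) : ℝ) / p) / 2 ^ i‖ = 1 / 2 ^ i := by
      intro e _
      rw [norm_div, ee_norm, norm_pow]
      norm_num
    rw [sum_congr rfl h1, sum_const, card_range, nsmul_eq_mul]
    push_cast
    rw [mul_one_div_cancel (by positivity)]
    norm_num

lemma wt_B (i : ℕ) : Wt i wB where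
  per := by
    intro p _ n
    unfold wB
    have := om_add_mul p n 1
    rw [one_mul] at this
    rw [this]
  mean := by
    intro p hp
    have hpp := QD_prime hp
    have hp0 : (p : ℝ) ≠ 0 := by exact_mod_cast hpp.ne_zero
    unfold wB om
    rw [← Complex.ofReal_sum, sum_sub_distrib, sum_const, card_range, nsmul_eq_mul]
    have h1 : ∑ n ∈ range p, (if p ∣ n then (1 : ℝ) else 0) = 1 := by
      rw [sum_eq_single 0]
      · simp
      · intro b hb hb0
        rw [mem_range] at hb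
        rw [if_neg]
        intro h
        exact hb0 (Nat.eq_zero_of_dvd_of_lt h hb)
      · intro h
        exact absurd (mem_range.2 hpp.pos) h
    rw [h1, mul_one_div_cancel hp0, sub_self, Complex.ofReal_zero]
  blk := by
    intro p hp s
    have hpp := QD_prime hp
    have hp12 : 2 ^ i < p := by
      unfold QD at hp
      rw [mem_filter, mem_Ioc] at hp
      exact hp.1.1
    have hp0 : (0 : ℝ) < p := by exact_mod_cast hpp.pos
    have h1 : ∀ e ∈ range (2 ^ i), ‖wB p (s + e)‖ ≤ (if p ∣ s + e then (1 : ℝ) else 0) + 1 / p := by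
      intro e _
      unfold wB
      rw [Complex.norm_real, Real.norm_eq_abs]
      unfold om
      refine (abs_sub _ _).trans ?_
      apply add_le_add
      · split_ifs <;> simp
      · rw [abs_of_nonneg (by positivity)]
    refine (sum_le_sum h1).trans ?_
    rw [sum_add_distrib, sum_const, card_range, nsmul_eq_mul]
    have h2 := one_mult p (2 ^ i) hp12 s (fun _ => 1) (fun _ => by simp)
    have h3 := (le_abs_self _).trans h2
    have h4 : ((2 ^ i : ℕ) : ℝ) * (1 / p) ≤ 1 := by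
      rw [mul_one_div, div_le_one hp0]
      exact_mod_cast hp12.le
    linarith

end Run7.h581
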