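import Mathlib
import Pool.Agent.Run7.h581.Phase

/-!
The values `λ s ^ γ + μ`, `0 < γ < 1`, are not concentrated near the integers.
-/

set_option autoImplicit false

namespace Run7.h581

open Finset

/-- the distance to the nearest integer and the chord -/
lemma near_int (y δ : ℝ) (h : ‖ee y - 1‖ ≤ δ) : |y - round y| ≤ δ / 4 := by
  set x : ℝ := y - round y with hx
  have h1 : |x| ≤ 1 / 2 := abs_sub_round y
  have h2 : ee y = ee x := by
    have : y = x + (round y : ℝ) := by rw [hx]; ring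
    conv_lhs => rw [this]
    rw [ee_add_int]
  have h3 : ‖ee x - 1‖ = 2 * |Real.sin (Real.pi * x)| := by
    have h4 : ee x - 1 = ee (x / 2) * (2 * Complex.I * Complex.sin (Real.pi * x)) := by
      have h5 : ee x = ee (x / 2) * ee (x / 2) := by rw [← ee_add]; congr 1; ring
      have h6 : ee (x / 2) * ee (-(x / 2)) = 1 := by rw [← ee_add, add_neg_cancel, ee_zero]
      have h7 : 2 * Complex.I * Complex.sin (Real.pi * x) = ee (x / 2) - ee (-(x / 2)) := by
        unfold ee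
        rw [Complex.sin]
        have e1 : ((2 * Real.pi * (x / 2) : ℝ) : ℂ) * Complex.I = (Real.pi * x : ℂ) * Complex.I := by
          push_cast; ring
        have e2 : ((2 * Real.pi * (-(x / 2)) : ℝ) : ℂ) * Complex.I = -(Real.pi * x : ℂ) * Complex.I := by
          push_cast; ring
        rw [e1, e2]
        have : Complex.I * Complex.I = -1 := Complex.I_mul_I
        linear_combination (Complex.exp (-(Real.pi * x : ℂ) * Complex.I) -
          Complex.exp ((Real.pi * x : ℂ) * Complex.I)) * this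
      rw [h7, mul_sub, h6, ← h5]
    rw [h4, norm_mul, ee_norm, one_mul, norm_mul, norm_mul, Complex.norm_I, mul_one]
    have h8 : Complex.sin (Real.pi * x) = ((Real.sin (Real.pi * x) : ℝ) : ℂ) := by push_cast; rfl
    rw [h8, Complex.norm_real, Real.norm_eq_abs]
    norm_num
  rw [h2, h3] at h
  have h4 : 2 * |x| ≤ |Real.sin (Real.pi * x)| := by
    have h5 : |Real.sin (Real.pi * x)| = Real.sin (Real.pi * |x|) := by
      rcases le_total 0 x with h6 | h6
      · rw [abs_of_nonneg h6, abs_of_nonneg]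
        apply Real.sin_nonneg_of_nonneg_of_le_pi
        · positivity
        · rw [abs_of_nonneg h6] at h1
          have := Real.pi_pos
          nlinarith
      · rw [abs_of_nonpos h6, mul_neg, Real.sin_neg, abs_of_nonpos]
        rw [← neg_nonneg, ← Real.sin_neg, ← mul_neg]
        apply Real.sin_nonneg_of_nonneg_of_le_pi
        · have := Real.pi_pos
          have : 0 ≤ -x := by linarith
          positivity
        · rw [abs_of_nonpos h6] at h1
          have := Real.pi_pos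
          nlinarith
    rw [h5]
    have h6 := Real.mul_le_sin (x := Real.pi * |x|) (by positivity) (by
      have := Real.pi_pos
      nlinarith)
    have h7 : 2 / Real.pi * (Real.pi * |x|) = 2 * |x| := by
      have := Real.pi_pos
      field_simp
    linarith
  linarith

/-- growth of `s ^ γ` -/
lemma rpow_gap (γ : ℝ) (hγ0 : 0 < γ) (hγ1 : γ < 1) (s t Y : ℝ) (hs : 0 ≤ s) (hst : s ≤ t) (ht : 0 < t)
    (htY : t ≤ Y) : γ * Y ^ (γ - 1) * (t - s) ≤ t ^ γ - s ^ γ := by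
  have h1 := _root_.rpow_one_add_le_one_add_mul_self (s := s / t - 1) (p := γ) (by
    have : 0 ≤ s / t := by positivity
    linarith) hγ0.le hγ1.le
  rw [add_sub_cancel] at h1
  have h2 : (s / t) ^ γ = s ^ γ / t ^ γ := Real.div_rpow hs ht.le γ
  have ht0 : 0 < t ^ γ := Real.rpow_pos_of_pos ht γ
  rw [h2, div_le_iff₀ ht0] at h1
  have h3 : Y ^ (γ - 1) ≤ t ^ (γ - 1) := Real.rpow_le_rpow_of_nonpos ht htY (by linarith)
  have h4 : t ^ (γ - 1) = t ^ γ / t := by rw [Real.rpow_sub ht, Real.rpow_one]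
  have h5 : γ * Y ^ (γ - 1) * (t - s) ≤ γ * t ^ (γ - 1) * (t - s) := by
    apply mul_le_mul_of_nonneg_right _ (by linarith)
    exact mul_le_mul_of_nonneg_left h3 hγ0.le
  have h6 : γ * t ^ (γ - 1) * (t - s) = t ^ γ - (1 + γ * (s / t - 1)) * t ^ γ := by
    rw [h4]
    field_simp
    ring
  linarith

lemma card_diam (A : Finset ℕ) (D : ℝ) (hD : 0 ≤ D) (h : ∀ s ∈ A, ∀ t ∈ A, s ≤ t → (t : ℝ) - s ≤ D) :
    (A.card : ℝ) ≤ D + 1 := by
  rcases A.eq_empty_or_nonempty with rfl | hne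
  · simp; linarith
  · set m := A.min' hne with hm
    have h1 : A ⊆ Icc m (m + ⌊D⌋₊) := by
      intro t ht
      rw [mem_Icc]
      have h2 := A.min'_le t ht
      refine ⟨h2, ?_⟩
      have h3 := h m (A.min'_mem hne) t ht h2
      have h4 : ((t - m : ℕ) : ℝ) ≤ D := by
        rw [Nat.cast_sub h2]
        exact h3
      have h5 := Nat.le_floor h4
      omega
    have h2 := card_le_card h1
    rw [Nat.card_Icc] at h2
    have h3 : ((⌊D⌋₊ : ℕ) : ℝ) ≤ D := Nat.floor_le hD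
    have h4 : (A.card : ℝ) ≤ ⌊D⌋₊ + 1 := by exact_mod_cast (by omega : A.card ≤ ⌊D⌋₊ + 1)
    linarith

/-- counting, for `lam > 0` -/
lemma conc_pos (γ lam μ : ℝ) (hγ0 : 0 < γ) (hγ1 : γ < 1) (hlam : 0 < lam) (δ : ℝ) (hδ : 0 < δ)
    (hδ1 : δ ≤ 1) : ∃ Y0 : ℕ, ∀ Y : ℕ, Y0 ≤ Y →
      (((range Y).filter (fun s : ℕ => |lam * (s : ℝ) ^ γ + μ - round (lam * (s : ℝ) ^ γ + μ)| ≤ δ)).card : ℝ) ≤
        (4 * δ / γ) * Y := by
  -- asymptotics
  have h1 : Filter.Tendsto (fun Y : ℕ => (Y : ℝ) ^ (γ - 1)) Filter.atTop (nhds 0) := by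
    have := (tendsto_rpow_neg_atTop (show 0 < 1 - γ by linarith)).comp tendsto_natCast_atTop_atTop
    simpa [Function.comp_def] using this
  have h2 : Filter.Tendsto (fun Y : ℕ => (Y : ℝ) ^ (-γ)) Filter.atTop (nhds 0) := by
    have := (tendsto_rpow_neg_atTop hγ0).comp tendsto_natCast_atTop_atTop
    simpa [Function.comp_def] using this
  have h3 : Filter.Tendsto (fun Y : ℕ => lam * (Y : ℝ) ^ (γ - 1) + 10 * δ / (lam * γ) * (Y : ℝ) ^ (-γ) +
      5 * ((Y : ℝ) ^ (γ - 1) * (Y : ℝ) ^ (-γ))) Filter.atTop (nhds 0) := by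
    have := ((h1.const_mul lam).add (h2.const_mul (10 * δ / (lam * γ)))).add ((h1.mul h2).const_mul 5)
    simpa using this
  obtain ⟨Y1, hY1⟩ := Filter.eventually_atTop.1 (h3.eventually_lt_const (show (0 : ℝ) < 2 * δ / γ by positivity))
  refine ⟨Y1 + 1, fun Y hY => ?_⟩
  have hYpos : (0 : ℝ) < Y := by exact_mod_cast (by omega : 0 < Y)
  have hYlim := hY1 Y (by omega)
  set f : ℕ → ℝ := fun s => lam * (s : ℝ) ^ γ + μ with hf
  set A := (range Y).filter (fun s : ℕ => |f s - round (f s)| ≤ δ) with hA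
  -- the integers which occur
  set B : Finset ℤ := Icc (⌊μ⌋ - 1) (⌈lam * (Y : ℝ) ^ γ + μ⌉ + 1) with hB
  have hmap : ∀ s ∈ A, round (f s) ∈ B := by
    intro s hs
    rw [hA, mem_filter, mem_range] at hs
    rw [hB, mem_Icc]
    have e1 := (abs_le.1 (hs.2.trans hδ1))
    have e2 : μ ≤ f s := by
      simp only [hf]
      have : 0 ≤ lam * (s : ℝ) ^ γ := by positivity
      linarith
    have e3 : f s ≤ lam * (Y : ℝ) ^ γ + μ := by
      simp only [hf]
      have : (s : ℝ) ^ γ ≤ (Y : ℝ) ^ γ := Real.rpow_le_rpow (Nat.cast_nonneg _) (by exact_mod_cast hs.1.le) hγ0.le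
      nlinarith
    constructor
    · have e4 : (⌊μ⌋ : ℝ) ≤ μ := Int.floor_le μ
      have e5 : ((⌊μ⌋ - 1 : ℤ) : ℝ) ≤ (round (f s) : ℝ) := by
        push_cast
        linarith
      exact_mod_cast e5
    · have e4 := Int.le_ceil (lam * (Y : ℝ) ^ γ + μ)
      have e5 : (round (f s) : ℝ) ≤ ((⌈lam * (Y : ℝ) ^ γ + μ⌉ + 1 : ℤ) : ℝ) := by
        push_cast
        linarith
      exact_mod_cast e5
  have hBcard : (B.card : ℝ) ≤ lam * (Y : ℝ) ^ γ + 5 := by
    rw [hB, Int.card_Icc]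
    have e1 := Int.ceil_lt_add_one (lam * (Y : ℝ) ^ γ + μ)
    have e2 := Int.sub_one_lt_floor μ
    have e3 : 0 ≤ lam * (Y : ℝ) ^ γ := by positivity
    have e4 : ((⌈lam * (Y : ℝ) ^ γ + μ⌉ + 1 + 1 - (⌊μ⌋ - 1) : ℤ) : ℝ) ≤ lam * (Y : ℝ) ^ γ + 5 := by
      push_cast
      linarith
    have e5 : 0 ≤ ⌈lam * (Y : ℝ) ^ γ + μ⌉ + 1 + 1 - (⌊μ⌋ - 1) := by
      have : ⌊μ⌋ ≤ ⌈lam * (Y : ℝ) ^ γ + μ⌉ := by
        have : (⌊μ⌋ : ℝ) ≤ (⌈lam * (Y : ℝ) ^ γ + μ⌉ : ℝ) := by
          have := Int.floor_le μ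
          have := Int.le_ceil (lam * (Y : ℝ) ^ γ + μ)
          linarith
        exact_mod_cast this
      omega
    have e6 : (((⌈lam * (Y : ℝ) ^ γ + μ⌉ + 1 + 1 - (⌊μ⌋ - 1)).toNat : ℕ) : ℝ) =
        ((⌈lam * (Y : ℝ) ^ γ + μ⌉ + 1 + 1 - (⌊μ⌋ - 1) : ℤ) : ℝ) := by
      rw [← Int.cast_natCast, Int.toNat_of_nonneg e5]
    rw [e6]
    exact e4
  -- the fibres
  set D : ℝ := 2 * δ / (lam * γ) * (Y : ℝ) ^ (1 - γ) with hD
  have hD0 : 0 ≤ D := by positivity
  have hfib : ∀ m ∈ B, ((A.filter (fun s => round (f s) = m)).card : ℝ) ≤ D + 1 := by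
    intro m _
    apply card_diam _ _ hD0
    intro s hs t ht hst
    rw [mem_filter, hA, mem_filter, mem_range] at hs ht
    rcases Nat.eq_zero_or_pos t with h0 | h0
    · have : s = 0 := by omega
      subst h0
      rw [this]
      simpa using hD0
    have ht0 : (0 : ℝ) < t := by exact_mod_cast h0
    have e1 := rpow_gap γ hγ0 hγ1 s t Y (Nat.cast_nonneg _) (by exact_mod_cast hst) ht0 (by exact_mod_cast ht.1.1.le)
    have e2 : f t - f s ≤ 2 * δ := by
      have e3 := (abs_le.1 hs.1.2).1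
      have e4 := (abs_le.1 ht.1.2).2
      rw [hs.2] at e3
      rw [ht.2] at e4
      linarith
    have e3 : lam * (γ * (Y : ℝ) ^ (γ - 1) * ((t : ℝ) - s)) ≤ 2 * δ := by
      calc _ ≤ lam * ((t : ℝ) ^ γ - (s : ℝ) ^ γ) := mul_le_mul_of_nonneg_left e1 hlam.le
        _ = f t - f s := by simp only [hf]; ring
        _ ≤ _ := e2
    have e4 : (Y : ℝ) ^ (γ - 1) * (Y : ℝ) ^ (1 - γ) = 1 := by
      rw [← Real.rpow_add hYpos]
      simp
    have hYp : 0 < (Y : ℝ) ^ (1 - γ) := Real.rpow_pos_of_pos hYpos _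
    have e5 := mul_le_mul_of_nonneg_right e3 hYp.le
    have e6 : lam * (γ * (Y : ℝ) ^ (γ - 1) * ((t : ℝ) - s)) * (Y : ℝ) ^ (1 - γ) = lam * γ * ((t : ℝ) - s) := by
      linear_combination (lam * γ * ((t : ℝ) - s)) * e4
    rw [e6] at e5
    rw [hD, div_mul_eq_mul_div, le_div_iff₀ (by positivity)]
    linarith
  have hcard : (A.card : ℝ) ≤ B.card * (D + 1) := by
    rw [Finset.card_eq_sum_card_fiberwise (f := fun s => round (f s)) (t := B) hmap]
    push_cast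
    refine (sum_le_sum hfib).trans (le_of_eq ?_)
    rw [sum_const, nsmul_eq_mul]
  refine hcard.trans ?_
  have hY0' : (Y : ℝ) ^ γ * (Y : ℝ) ^ (1 - γ) = Y := by
    rw [← Real.rpow_add hYpos]
    simp
  have e1 : (Y : ℝ) ^ (γ - 1) * Y = (Y : ℝ) ^ γ := by
    rw [← Real.rpow_add_one hYpos.ne']
    simp
  have e2 : (Y : ℝ) ^ (-γ) * Y = (Y : ℝ) ^ (1 - γ) := by
    rw [← Real.rpow_add_one hYpos.ne']
    ring_nf
  have e3 : (Y : ℝ) ^ (γ - 1) * (Y : ℝ) ^ (-γ) * Y = 1 := by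
    rw [← Real.rpow_add hYpos, ← Real.rpow_add_one hYpos.ne']
    ring_nf
    simp
  calc (B.card : ℝ) * (D + 1) ≤ (lam * (Y : ℝ) ^ γ + 5) * (D + 1) :=
        mul_le_mul_of_nonneg_right hBcard (by positivity)
    _ = 2 * δ / γ * ((Y : ℝ) ^ γ * (Y : ℝ) ^ (1 - γ)) + lam * (Y : ℝ) ^ γ +
        10 * δ / (lam * γ) * (Y : ℝ) ^ (1 - γ) + 5 := by
        rw [hD]
        field_simp
        ring
    _ = 2 * δ / γ * Y + (lam * (Y : ℝ) ^ (γ - 1) + 10 * δ / (lam * γ) * (Y : ℝ) ^ (-γ) +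
      5 * ((Y : ℝ) ^ (γ - 1) * (Y : ℝ) ^ (-γ))) * Y := by
        rw [hY0', ← e1, ← e2]
        linear_combination (-5 : ℝ) * e3
    _ ≤ 2 * δ / γ * Y + 2 * δ / γ * Y := by
        have := mul_le_mul_of_nonneg_right hYlim.le hYpos.le
        linarith
    _ = (4 * δ / γ) * Y := by ring

/-- counting near the integers -/
theorem conc (γ lam μ : ℝ) (hγ0 : 0 < γ) (hγ1 : γ < 1) (hlam : lam ≠ 0) (δ : ℝ) (hδ : 0 < δ)
    (hδ1 : δ ≤ 1) : ∃ Y0 : ℕ, ∀ Y : ℕ, Y0 ≤ Y →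
      (((range Y).filter (fun s : ℕ => ‖ee (lam * (s : ℝ) ^ γ + μ) - 1‖ ≤ δ)).card : ℝ) ≤ (δ / γ) * Y := by
  rcases lt_or_gt_of_ne hlam with h | h
  · obtain ⟨Y0, hY0⟩ := conc_pos γ (-lam) (-μ) hγ0 hγ1 (by linarith) (δ / 4) (by positivity) (by linarith)
    refine ⟨Y0, fun Y hY => ?_⟩
    have h1 := hY0 Y hY
    have h2 : 4 * (δ / 4) / γ = δ / γ := by ring
    rw [h2] at h1
    refine le_trans ?_ h1
    have h3 : (range Y).filter (fun s : ℕ => ‖ee (lam * (s : ℝ) ^ γ + μ) - 1‖ ≤ δ) ⊆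
        (range Y).filter (fun s : ℕ => |-lam * (s : ℝ) ^ γ + -μ - round (-lam * (s : ℝ) ^ γ + -μ)| ≤ δ / 4) := by
      intro s hs
      rw [mem_filter] at hs ⊢
      refine ⟨hs.1, near_int _ _ ?_⟩
      have h4 : -lam * (s : ℝ) ^ γ + -μ = -(lam * (s : ℝ) ^ γ + μ) := by ring
      rw [h4, ← ee_conj]
      have h5 : (starRingEnd ℂ) (ee (lam * (s : ℝ) ^ γ + μ)) - 1 =
          (starRingEnd ℂ) (ee (lam * (s : ℝ) ^ γ + μ) - 1) := by simp
      rw [h5, RCLike.norm_conj]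
      exact hs.2
    exact_mod_cast card_le_card h3
  · obtain ⟨Y0, hY0⟩ := conc_pos γ lam μ hγ0 hγ1 h (δ / 4) (by positivity) (by linarith)
    refine ⟨Y0, fun Y hY => ?_⟩
    have h1 := hY0 Y hY
    have h2 : 4 * (δ / 4) / γ = δ / γ := by ring
    rw [h2] at h1
    refine le_trans ?_ h1
    have h3 : (range Y).filter (fun s : ℕ => ‖ee (lam * (s : ℝ) ^ γ + μ) - 1‖ ≤ δ) ⊆
        (range Y).filter (fun s : ℕ => |lam * (s : ℝ) ^ γ + μ - round (lam * (s : ℝ) ^ γ + μ)| ≤ δ / 4) := by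
      intro s hs
      rw [mem_filter] at hs ⊢
      exact ⟨hs.1, near_int _ _ hs.2⟩
    exact_mod_cast card_le_card h3

end Run7.h581
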