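import Mathlib
import Pool.Agent.Run7.h581.Conc

/-!
Sequences whose increments are asymptotic to `λ s ^ (γ - 1)`, `0 < γ < 1`, are not concentrated near the
integers.
-/

set_option autoImplicit false

namespace Run7.h581

open Finset

lemma conc2_pos (γ : ℝ) (hγ0 : 0 < γ) (hγ1 : γ < 1) (f : ℕ → ℝ) (lam : ℝ) (hlam : 0 < lam)
    (hf : Filter.Tendsto (fun s : ℕ => (f (s + 1) - f s) * (s : ℝ) ^ (1 - γ)) Filter.atTop (nhds lam))
    (δ : ℝ) (hδ : 0 < δ) (hδ1 : δ ≤ 1) : ∃ Y0 : ℕ, ∀ Y : ℕ, Y0 ≤ Y →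
      (((range Y).filter (fun s : ℕ => |f s - round (f s)| ≤ δ)).card : ℝ) ≤ (32 * δ / γ) * Y := by
  obtain ⟨s1, hs1⟩ := Filter.eventually_atTop.1
    ((hf.eventually_const_lt (show lam / 2 < lam by linarith)).and
      (hf.eventually_lt_const (show lam < 2 * lam by linarith)))
  set s0 : ℕ := s1 + 1 with hs0
  have hstep : ∀ s : ℕ, s0 ≤ s → lam / 2 * (s : ℝ) ^ (γ - 1) ≤ f (s + 1) - f s ∧
      f (s + 1) - f s ≤ 2 * lam * (s : ℝ) ^ (γ - 1) := by
    intro s hs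
    have hspos : (0 : ℝ) < s := by exact_mod_cast (by omega : 0 < s)
    have h1 := hs1 s (by omega)
    have h2 : (s : ℝ) ^ (1 - γ) * (s : ℝ) ^ (γ - 1) = 1 := by
      rw [← Real.rpow_add hspos]
      simp
    have h3 : 0 < (s : ℝ) ^ (γ - 1) := Real.rpow_pos_of_pos hspos _
    have h4 : f (s + 1) - f s = (f (s + 1) - f s) * (s : ℝ) ^ (1 - γ) * (s : ℝ) ^ (γ - 1) := by
      rw [mul_assoc, h2, mul_one]
    rw [h4]
    exact ⟨mul_le_mul_of_nonneg_right h1.1.le h3.le, mul_le_mul_of_nonneg_right h1.2.le h3.le⟩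
  have hlow : ∀ (Y s t : ℕ), s0 ≤ s → s ≤ t → t ≤ Y →
      lam / 2 * (Y : ℝ) ^ (γ - 1) * ((t : ℝ) - s) ≤ f t - f s := by
    intro Y s t hs hst htY
    induction t, hst using Nat.le_induction with
    | base => simp
    | succ t ht ih =>
      have h1 := ih (by omega)
      have h2 := (hstep t (by omega)).1
      have htpos : (0 : ℝ) < t := by exact_mod_cast (by omega : 0 < t)
      have h3 : (Y : ℝ) ^ (γ - 1) ≤ (t : ℝ) ^ (γ - 1) :=
        Real.rpow_le_rpow_of_nonpos htpos (by exact_mod_cast (by omega : t ≤ Y)) (by linarith)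
      push_cast
      nlinarith
  have hup : ∀ t : ℕ, s0 ≤ t → f t ≤ f s0 + 4 * lam / γ * (t : ℝ) ^ γ := by
    intro t ht
    induction t, ht using Nat.le_induction with
    | base =>
      have : 0 ≤ 4 * lam / γ * (s0 : ℝ) ^ γ := by positivity
      linarith
    | succ t ht ih =>
      have h2 := (hstep t ht).2
      have htpos : (0 : ℝ) < t := by exact_mod_cast (by omega : 0 < t)
      have ht1 : (1 : ℝ) ≤ t := by exact_mod_cast (by omega : 1 ≤ t)
      have h3 := rpow_gap γ hγ0 hγ1 t (t + 1) (t + 1) htpos.le (by linarith) (by linarith) le_rfl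
      have h4 : (1 / 2 : ℝ) * (t : ℝ) ^ (γ - 1) ≤ ((t : ℝ) + 1) ^ (γ - 1) := by
        have h5 : (2 * (t : ℝ)) ^ (γ - 1) ≤ ((t : ℝ) + 1) ^ (γ - 1) :=
          Real.rpow_le_rpow_of_nonpos (by linarith) (by linarith) (by linarith)
        rw [Real.mul_rpow (by norm_num) htpos.le] at h5
        have h6 : (1 / 2 : ℝ) ≤ (2 : ℝ) ^ (γ - 1) := by
          have h7 : (2 : ℝ) ^ (-1 : ℝ) ≤ (2 : ℝ) ^ (γ - 1) :=
            Real.rpow_le_rpow_of_exponent_le (by norm_num) (by linarith)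
          rw [Real.rpow_neg_one] at h7
          linarith
        have h8 : 0 < (t : ℝ) ^ (γ - 1) := Real.rpow_pos_of_pos htpos _
        nlinarith
      rw [add_sub_cancel_left, mul_one] at h3
      have h5 : 2 * lam * (t : ℝ) ^ (γ - 1) ≤ 4 * lam / γ * (((t : ℝ) + 1) ^ γ - (t : ℝ) ^ γ) := by
        rw [div_mul_eq_mul_div, le_div_iff₀ hγ0]
        have g1 := mul_le_mul_of_nonneg_left h3 (show 0 ≤ 4 * lam by positivity)
        have g2 := mul_le_mul_of_nonneg_left h4 (show 0 ≤ 4 * lam * γ by positivity)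
        linarith
      push_cast
      rw [mul_sub] at h5
      linarith
  -- asymptotics
  have h1 : Filter.Tendsto (fun Y : ℕ => (Y : ℝ) ^ (γ - 1)) Filter.atTop (nhds 0) := by
    have := (tendsto_rpow_neg_atTop (show 0 < 1 - γ by linarith)).comp tendsto_natCast_atTop_atTop
    simpa [Function.comp_def] using this
  have h2 : Filter.Tendsto (fun Y : ℕ => (Y : ℝ) ^ (-γ)) Filter.atTop (nhds 0) := by
    have := (tendsto_rpow_neg_atTop hγ0).comp tendsto_natCast_atTop_atTop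
    simpa [Function.comp_def] using this
  have h3 : Filter.Tendsto (fun Y : ℕ => 4 * lam / γ * (Y : ℝ) ^ (γ - 1) + 20 * δ / lam * (Y : ℝ) ^ (-γ) +
      (5 + s0) * ((Y : ℝ) ^ (γ - 1) * (Y : ℝ) ^ (-γ))) Filter.atTop (nhds 0) := by
    have := ((h1.const_mul (4 * lam / γ)).add (h2.const_mul (20 * δ / lam))).add
      ((h1.mul h2).const_mul (5 + (s0 : ℝ)))
    simpa using this
  obtain ⟨Y1, hY1⟩ := Filter.eventually_atTop.1 (h3.eventually_lt_const (show (0 : ℝ) < 16 * δ / γ by positivity))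
  refine ⟨Y1 + s0 + 1, fun Y hY => ?_⟩
  have hYpos : (0 : ℝ) < Y := by exact_mod_cast (by omega : 0 < Y)
  have hYlim := hY1 Y (by omega)
  set A := (Ico s0 Y).filter (fun s : ℕ => |f s - round (f s)| ≤ δ) with hA
  have hAB : (((range Y).filter (fun s : ℕ => |f s - round (f s)| ≤ δ)).card : ℝ) ≤ A.card + s0 := by
    have : (range Y).filter (fun s : ℕ => |f s - round (f s)| ≤ δ) ⊆ A ∪ range s0 := by
      intro s hs
      rw [mem_filter, mem_range] at hs
      rw [mem_union, hA, mem_filter, mem_Ico, mem_range]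
      by_cases h : s < s0
      · exact Or.inr h
      · exact Or.inl ⟨⟨by omega, hs.1⟩, hs.2⟩
    have h4 := (card_le_card this).trans (card_union_le _ _)
    rw [card_range] at h4
    exact_mod_cast h4
  -- the integers which occur
  set U : ℝ := f s0 + 4 * lam / γ * (Y : ℝ) ^ γ with hU
  set B : Finset ℤ := Icc (⌊f s0⌋ - 1) (⌈U⌉ + 1) with hB
  have hmap : ∀ s ∈ A, round (f s) ∈ B := by
    intro s hs
    rw [hA, mem_filter, mem_Ico] at hs
    rw [hB, mem_Icc]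
    have e1 := (abs_le.1 (hs.2.trans hδ1))
    have e2 : f s0 ≤ f s := by
      have := hlow s s0 s le_rfl hs.1.1 le_rfl
      have h5 : 0 ≤ lam / 2 * (s : ℝ) ^ (γ - 1) * ((s : ℝ) - s0) := by
        have : (s0 : ℝ) ≤ s := by exact_mod_cast hs.1.1
        have : 0 ≤ (s : ℝ) - s0 := by linarith
        positivity
      linarith
    have e3 : f s ≤ U := by
      refine (hup s hs.1.1).trans ?_
      rw [hU]
      have : (s : ℝ) ^ γ ≤ (Y : ℝ) ^ γ := Real.rpow_le_rpow (Nat.cast_nonneg _) (by exact_mod_cast hs.1.2.le) hγ0.le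
      have h5 : 4 * lam / γ * (s : ℝ) ^ γ ≤ 4 * lam / γ * (Y : ℝ) ^ γ :=
        mul_le_mul_of_nonneg_left this (by positivity)
      linarith
    constructor
    · have e4 : (⌊f s0⌋ : ℝ) ≤ f s0 := Int.floor_le _
      have e5 : ((⌊f s0⌋ - 1 : ℤ) : ℝ) ≤ (round (f s) : ℝ) := by
        push_cast
        linarith
      exact_mod_cast e5
    · have e4 := Int.le_ceil U
      have e5 : (round (f s) : ℝ) ≤ ((⌈U⌉ + 1 : ℤ) : ℝ) := by
        push_cast
        linarith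
      exact_mod_cast e5
  have hBcard : (B.card : ℝ) ≤ 4 * lam / γ * (Y : ℝ) ^ γ + 5 := by
    rw [hB, Int.card_Icc]
    have e1 := Int.ceil_lt_add_one U
    have e2 := Int.sub_one_lt_floor (f s0)
    have e3 : 0 ≤ 4 * lam / γ * (Y : ℝ) ^ γ := by positivity
    have e4 : ((⌈U⌉ + 1 + 1 - (⌊f s0⌋ - 1) : ℤ) : ℝ) ≤ 4 * lam / γ * (Y : ℝ) ^ γ + 5 := by
      push_cast
      linarith
    have e5 : 0 ≤ ⌈U⌉ + 1 + 1 - (⌊f s0⌋ - 1) := by
      have : ⌊f s0⌋ ≤ ⌈U⌉ := by
        have : (⌊f s0⌋ : ℝ) ≤ (⌈U⌉ : ℝ) := by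
          have := Int.floor_le (f s0)
          have := Int.le_ceil U
          linarith
        exact_mod_cast this
      omega
    have e6 : (((⌈U⌉ + 1 + 1 - (⌊f s0⌋ - 1)).toNat : ℕ) : ℝ) = ((⌈U⌉ + 1 + 1 - (⌊f s0⌋ - 1) : ℤ) : ℝ) := by
      rw [← Int.cast_natCast, Int.toNat_of_nonneg e5]
    rw [e6]
    exact e4
  -- the fibres
  set D : ℝ := 4 * δ / lam * (Y : ℝ) ^ (1 - γ) with hD
  have hD0 : 0 ≤ D := by positivity
  have hfib : ∀ m ∈ B, ((A.filter (fun s => round (f s) = m)).card : ℝ) ≤ D + 1 := by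
    intro m _
    apply card_diam _ _ hD0
    intro s hs t ht hst
    rw [mem_filter, hA, mem_filter, mem_Ico] at hs ht
    have e1 := hlow Y s t hs.1.1.1 hst ht.1.1.2.le
    have e2 : f t - f s ≤ 2 * δ := by
      have e3 := (abs_le.1 hs.1.2).1
      have e4 := (abs_le.1 ht.1.2).2
      rw [hs.2] at e3
      rw [ht.2] at e4
      linarith
    have e4 : (Y : ℝ) ^ (γ - 1) * (Y : ℝ) ^ (1 - γ) = 1 := by
      rw [← Real.rpow_add hYpos]
      simp
    have hYp : 0 < (Y : ℝ) ^ (1 - γ) := Real.rpow_pos_of_pos hYpos _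
    have e5 := mul_le_mul_of_nonneg_right (e1.trans e2) hYp.le
    have e6 : lam / 2 * (Y : ℝ) ^ (γ - 1) * ((t : ℝ) - s) * (Y : ℝ) ^ (1 - γ) = lam / 2 * ((t : ℝ) - s) := by
      linear_combination (lam / 2 * ((t : ℝ) - s)) * e4
    rw [e6] at e5
    rw [hD, div_mul_eq_mul_div, le_div_iff₀ hlam]
    linarith
  have hcard : (A.card : ℝ) ≤ B.card * (D + 1) := by
    rw [Finset.card_eq_sum_card_fiberwise (f := fun s => round (f s)) (t := B) hmap]
    push_cast
    refine (sum_le_sum hfib).trans (le_of_eq ?_)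
    rw [sum_const, nsmul_eq_mul]
  refine hAB.trans ?_
  have hY0' : (Y : ℝ) ^ γ * (Y : ℝ) ^ (1 - γ) = Y := by
    rw [← Real.rpow_add hYpos]
    simp
  have e1 : (Y : ℝ) ^ (γ - 1) * Y = (Y : ℝ) ^ γ := by
    rw [← Real.rpow_add_one hYpos.ne']
    simp
  have e2 : (Y : ℝ) ^ (-γ) * Y = (Y : ℝ) ^ (1 - γ) := by
    rw [← Real.rpow_add_one hYpos.ne']
    ring_nf
  have e3 : (Y : ℝ) ^ (γ - 1) * (Y : ℝ) ^ (-γ) * Y = 1 := by
    rw [← Real.rpow_add hYpos, ← Real.rpow_add_one hYpos.ne']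
    ring_nf
    simp
  calc (A.card : ℝ) + s0 ≤ (4 * lam / γ * (Y : ℝ) ^ γ + 5) * (D + 1) + s0 := by
        have := mul_le_mul_of_nonneg_right hBcard (show 0 ≤ D + 1 by positivity)
        linarith
    _ = 16 * δ / γ * ((Y : ℝ) ^ γ * (Y : ℝ) ^ (1 - γ)) + 4 * lam / γ * (Y : ℝ) ^ γ +
        20 * δ / lam * (Y : ℝ) ^ (1 - γ) + (5 + s0) := by
        rw [hD]
        field_simp
        ring
    _ = 16 * δ / γ * Y + (4 * lam / γ * (Y : ℝ) ^ (γ - 1) + 20 * δ / lam * (Y : ℝ) ^ (-γ) +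
      (5 + s0) * ((Y : ℝ) ^ (γ - 1) * (Y : ℝ) ^ (-γ))) * Y := by
        rw [hY0', ← e1, ← e2]
        linear_combination (-(5 + s0) : ℝ) * e3
    _ ≤ 16 * δ / γ * Y + 16 * δ / γ * Y := by
        have := mul_le_mul_of_nonneg_right hYlim.le hYpos.le
        linarith
    _ = (32 * δ / γ) * Y := by ring

/-- counting near the integers -/
theorem conc2 (γ : ℝ) (hγ0 : 0 < γ) (hγ1 : γ < 1) (f : ℕ → ℝ) (lam : ℝ) (hlam : lam ≠ 0)
    (hf : Filter.Tendsto (fun s : ℕ => (f (s + 1) - f s) * (s : ℝ) ^ (1 - γ)) Filter.atTop (nhds lam))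
    (δ : ℝ) (hδ : 0 < δ) (hδ1 : δ ≤ 1) : ∃ Y0 : ℕ, ∀ Y : ℕ, Y0 ≤ Y →
      (((range Y).filter (fun s : ℕ => ‖ee (f s) - 1‖ ≤ δ)).card : ℝ) ≤ (8 * δ / γ) * Y := by
  rcases lt_or_gt_of_ne hlam with h | h
  · obtain ⟨Y0, hY0⟩ := conc2_pos γ hγ0 hγ1 (fun s => -f s) (-lam) (by linarith)
      (by
        have := hf.neg
        refine this.congr fun s => ?_
        ring) (δ / 4) (by positivity) (by linarith)
    refine ⟨Y0, fun Y hY => ?_⟩
    have h1 := hY0 Y hY
    have h2 : 32 * (δ / 4) / γ = 8 * δ / γ := by ring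
    rw [h2] at h1
    refine le_trans ?_ h1
    have h3 : (range Y).filter (fun s : ℕ => ‖ee (f s) - 1‖ ≤ δ) ⊆
        (range Y).filter (fun s : ℕ => |-f s - round (-f s)| ≤ δ / 4) := by
      intro s hs
      rw [mem_filter] at hs ⊢
      refine ⟨hs.1, near_int _ _ ?_⟩
      rw [← ee_conj]
      have h5 : (starRingEnd ℂ) (ee (f s)) - 1 = (starRingEnd ℂ) (ee (f s) - 1) := by simp
      rw [h5, RCLike.norm_conj]
      exact hs.2
    exact_mod_cast card_le_card h3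
  · obtain ⟨Y0, hY0⟩ := conc2_pos γ hγ0 hγ1 f lam h hf (δ / 4) (by positivity) (by linarith)
    refine ⟨Y0, fun Y hY => ?_⟩
    have h1 := hY0 Y hY
    have h2 : 32 * (δ / 4) / γ = 8 * δ / γ := by ring
    rw [h2] at h1
    refine le_trans ?_ h1
    have h3 : (range Y).filter (fun s : ℕ => ‖ee (f s) - 1‖ ≤ δ) ⊆
        (range Y).filter (fun s : ℕ => |f s - round (f s)| ≤ δ / 4) := by
      intro s hs
      rw [mem_filter] at hs ⊢
      exact ⟨hs.1, near_int _ _ hs.2⟩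
    exact_mod_cast card_le_card h3

end Run7.h581
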