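import Mathlib
import Pool.Agent.Run7.h581.Phase
import Pool.Agent.N781.E.Light

/-!
Correlations of multiplicative functions twisted by `e(θ n)`, `θ` irrational, are small at all but
few dyadic scales.
-/

set_option autoImplicit false

namespace Run7.h581

open Finset Pool.Agent.TH575.CW Pool.Agent.N781.E

/-- twisted correlation sum -/
noncomputable def SP {k : ℕ} (a : Fin k → ℕ) (b : Fin k → ℤ) (G : Fin k → ℤ → ℂ) (w : ℕ → ℂ) (y : ℕ) : ℂ :=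
  ∑ m ∈ Icc 1 y, w m * ∏ j, G j (a j * m + b j)

lemma term_le {k : ℕ} {G : Fin k → ℤ → ℂ} (hG : ∀ j m, ‖G j m‖ ≤ 1) {w : ℕ → ℂ} (hw : ∀ m, ‖w m‖ ≤ 1)
    (n : ℕ) (m : Fin k → ℤ) : ‖w n * ∏ j, G j (m j)‖ ≤ 1 := by
  rw [norm_mul]
  exact mul_le_one₀ (hw _) (norm_nonneg _) (prod_norm_le hG m)

lemma SP_slow {k : ℕ} (a : Fin k → ℕ) (b : Fin k → ℤ) {G : Fin k → ℤ → ℂ} (hG : ∀ j m, ‖G j m‖ ≤ 1)
    {w : ℕ → ℂ} (hw : ∀ m, ‖w m‖ ≤ 1) (u v : ℕ) (huv : u ≤ v) :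
    ‖SP a b G w v - SP a b G w u‖ ≤ (v : ℝ) - u := by
  unfold SP
  have h1 : Icc 1 v = Icc 1 u ∪ Ioc u v := by
    ext n; simp only [mem_Icc, mem_union, mem_Ioc]; omega
  have h2 : Disjoint (Icc 1 u) (Ioc u v) := by
    rw [disjoint_left]; intro n; simp only [mem_Icc, mem_Ioc]; omega
  rw [h1, sum_union h2, add_sub_cancel_left]
  refine (norm_sum_le _ _).trans ?_
  refine (sum_le_sum (fun n _ => term_le hG hw n _)).trans ?_
  rw [sum_const, Nat.card_Ioc, nsmul_eq_mul, mul_one, Nat.cast_sub huv]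

lemma SP_le {k : ℕ} (a : Fin k → ℕ) (b : Fin k → ℤ) {G : Fin k → ℤ → ℂ} (hG : ∀ j m, ‖G j m‖ ≤ 1)
    {w : ℕ → ℂ} (hw : ∀ m, ‖w m‖ ≤ 1) (y : ℕ) : ‖SP a b G w y‖ ≤ y := by
  have := SP_slow a b hG hw 0 y (Nat.zero_le _)
  unfold SP at this ⊢
  simpa using this

lemma rel_sumP {k : ℕ} (a : Fin k → ℕ) (b : Fin k → ℤ) {F G : Fin k → ℤ → ℂ} {g : ℕ → ℂ}
    (hF : ∀ j m, ‖F j m‖ ≤ 1) (hG : ∀ j m, ‖G j m‖ ≤ 1) (hg : ∀ p, ‖g p‖ ≤ 1) (hR : Rel F G g)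
    {w : ℕ → ℂ} (hw : ∀ m, ‖w m‖ ≤ 1)
    (p Y : ℕ) (hp : p.Prime) (hpa : ∀ j, ¬ p ∣ a j) :
    ‖∑ m ∈ Icc 1 Y, w m * ∏ j, F j ((p : ℤ) * (a j * m + b j)) - g p * SP a b G w Y‖ ≤
      2 * (k * ((Y : ℝ) / p + 1)) := by
  classical
  unfold SP
  rw [mul_sum, ← sum_sub_distrib]
  refine (norm_sum_le _ _).trans ?_
  have h1 : ∀ m ∈ Icc 1 Y, ‖w m * ∏ j, F j ((p : ℤ) * (a j * m + b j)) -
      g p * (w m * ∏ j, G j (a j * m + b j))‖ ≤
      2 * ∑ j : Fin k, if (p : ℤ) ∣ (a j : ℤ) * m + b j then (1 : ℝ) else 0 := by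
    intro m _
    by_cases hex : ∃ j, (p : ℤ) ∣ (a j : ℤ) * m + b j
    · obtain ⟨j0, hj0⟩ := hex
      have h2 : (1 : ℝ) ≤ ∑ j : Fin k, if (p : ℤ) ∣ (a j : ℤ) * m + b j then (1 : ℝ) else 0 := by
        have h3 := single_le_sum (f := fun j : Fin k => if (p : ℤ) ∣ (a j : ℤ) * m + b j then (1 : ℝ) else 0)
          (fun j _ => by positivity) (mem_univ j0)
        simp only [if_pos hj0] at h3
        exact h3
      have h4 := norm_sub_le (w m * ∏ j, F j ((p : ℤ) * (a j * m + b j)))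
        (g p * (w m * ∏ j, G j (a j * m + b j)))
      have h5 := term_le hF hw m (fun j => (p : ℤ) * (a j * m + b j))
      have h6 : ‖g p * (w m * ∏ j, G j (a j * m + b j))‖ ≤ 1 := by
        rw [norm_mul]
        exact mul_le_one₀ (hg p) (norm_nonneg _) (term_le hG hw m (fun j => (a j * m + b j)))
      linarith
    · push Not at hex
      rw [hR p hp (fun j => (a j : ℤ) * m + b j) hex,
        show w m * (g p * ∏ j, G j (a j * m + b j)) - g p * (w m * ∏ j, G j (a j * m + b j)) = 0 by ring,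
        norm_zero]
      positivity
  refine (sum_le_sum h1).trans ?_
  rw [← mul_sum, sum_comm]
  apply mul_le_mul_of_nonneg_left _ (by norm_num)
  have h2 : ∀ j ∈ (univ : Finset (Fin k)), ∑ m ∈ Icc 1 Y, (if (p : ℤ) ∣ (a j : ℤ) * m + b j then (1 : ℝ) else 0) ≤
      (Y : ℝ) / p + 1 := by
    intro j _
    rw [sum_boole]
    exact card_lin p Y (a j) (b j) hp (hpa j)
  refine (sum_le_sum h2).trans ?_
  rw [sum_const, card_univ, Fintype.card_fin, nsmul_eq_mul]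

/-- the bound at a good scale -/
lemma goodP {k : ℕ} (a : Fin k → ℕ) (b : Fin k → ℤ) {F G : Fin k → ℤ → ℂ} {g : ℕ → ℂ}
    (hF : ∀ j m, ‖F j m‖ ≤ 1) (hG : ∀ j m, ‖G j m‖ ≤ 1) (hg : ∀ p, ‖g p‖ ≤ 1) (hR : Rel F G g)
    (θ ε' δ : ℝ) (hδ : 0 < δ) (i y : ℕ) (hia : ∀ j, a j ≤ 2 ^ i) (ha : ∀ j, 1 ≤ a j)
    (h1 : ∑ p ∈ QD i (i + 1), Real.log p *
          ‖∑ n ∈ Icc 1 y, wB p n * (ee ((θ + 1) * n / p) * ∏ j, F j (a j * n + b j * p))‖ ≤ ε' * y)
    (h2 : ∑ p ∈ QD i (i + 1), Real.log p *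
          ‖∑ n ∈ Icc 1 y, wA i p n * (ee (θ * n / p) * ∏ j, F j (a j * n + b j * p))‖ ≤ ε' * y)
    (hW : δ / 4 * 2 ^ i ≤ WT δ g i) :
    ‖SP a b G (fun m => ee (θ * m)) (y / 2 ^ i)‖ ≤
      4 / δ * (2 * ε' * (y / 2 ^ i) + 6 * k * (y / 4 ^ i + 1)) + (δ * (y / 2 ^ i) + 1) := by
  have h2i : (0 : ℝ) < 2 ^ i := by positivity
  have hlog : ∀ p ∈ QD i (i + 1), 0 ≤ Real.log p := fun p hp =>
    Real.log_nonneg (by exact_mod_cast (QD_prime hp).one_lt.le)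
  have hw : ∀ m : ℕ, ‖ee (θ * m)‖ ≤ 1 := fun m => (ee_norm _).le
  set X := ‖SP a b G (fun m => ee (θ * m)) (y / 2 ^ i)‖ with hX
  set E0 : ℝ := δ * (y / 2 ^ i) + 1 with hE0
  set A : ℕ → ℝ := fun p =>
    ‖∑ n ∈ Icc 1 y, wB p n * (ee ((θ + 1) * n / p) * ∏ j, F j (a j * n + b j * p))‖ with hA
  set D : ℕ → ℝ := fun p =>
    ‖∑ n ∈ Icc 1 y, wA i p n * (ee (θ * n / p) * ∏ j, F j (a j * n + b j * p))‖ with hD
  have key : ∀ p ∈ PL δ i, (Real.log p * ‖g p‖) * (X - E0) ≤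
      Real.log p * A p + Real.log p * D p + Real.log p * (2 * (k * ((y : ℝ) / 4 ^ i + 1))) := by
    intro p hp
    obtain ⟨hp1, hp2, hpp, hpδ⟩ := PL_lt' hp
    have hp0' : (0 : ℝ) < p := by exact_mod_cast hpp.pos
    have hpc : (p : ℂ) ≠ 0 := by exact_mod_cast hpp.ne_zero
    have hp1' : (2 : ℝ) ^ i < p := by exact_mod_cast hp1
    have hpa : ∀ j, ¬ p ∣ a j := by
      intro j hdv
      have h3 := Nat.le_of_dvd (ha j) hdv
      have h4 := hia j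
      omega
    have hlp : 0 ≤ Real.log p := hlog p (PL_mem hp)
    have k1 := rel_sumP a b hF hG hg hR hw p (y / p) hpp hpa
    have k3 : ((y / p : ℕ) : ℝ) / p ≤ (y : ℝ) / 4 ^ i := by
      have g1 : ((y / p : ℕ) : ℝ) ≤ y / p := Nat.cast_div_le
      calc ((y / p : ℕ) : ℝ) / p ≤ (y / p : ℝ) / p := div_le_div_of_nonneg_right g1 hp0'.le
        _ = (y : ℝ) / (p * p) := by rw [div_div]
        _ ≤ (y : ℝ) / (2 ^ i * 2 ^ i) :=
            div_le_div_of_nonneg_left (Nat.cast_nonneg y) (by positivity)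
              (mul_le_mul hp1'.le hp1'.le h2i.le hp0'.le)
        _ = _ := by
            congr 1
            rw [← mul_pow]
            norm_num
    have hpy : y / p ≤ y / 2 ^ i := Nat.div_le_div_left hp1.le (by positivity)
    have k4 := SP_slow a b hG hw (y / p) (y / 2 ^ i) hpy
    have k6 := div_slow hδ y i p hp
    -- the sum over the multiples of `p`
    set ψ : ℕ → ℂ := fun n => ee ((θ + 1) * n / p) * ∏ j, F j (a j * n + b j * p) with hψ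
    have e1 := sum_multC p y hpp.pos ψ
    have e2 : ∑ m ∈ Icc 1 (y / p), ψ (p * m) =
        ∑ m ∈ Icc 1 (y / p), ee (θ * m) * ∏ j, F j ((p : ℤ) * (a j * m + b j)) := by
      apply sum_congr rfl
      intro m _
      simp only [hψ]
      congr 1
      · have : (θ + 1) * ((p * m : ℕ) : ℝ) / p = θ * m + ((m : ℤ) : ℝ) := by
          push_cast
          field_simp
        rw [this, ee_add_int]
      · apply prod_congr rfl
        intro j _
        congr 1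
        push_cast
        ring
    have e3 : (∑ n ∈ Icc 1 y, ψ n) / p =
        ((2 : ℂ) ^ i / p) * ∑ n ∈ Icc 1 y, wA i p n * (ee (θ * n / p) * ∏ j, F j (a j * n + b j * p)) := by
      rw [mul_sum, sum_div]
      apply sum_congr rfl
      intro n _
      simp only [hψ]
      unfold wA
      have : (θ + 1) * (n : ℝ) / p = n / p + θ * n / p := by ring
      rw [this, ee_add]
      field_simp
    set U := SP a b G (fun m => ee (θ * m)) (y / p) with hU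
    set P := ∑ m ∈ Icc 1 (y / p), ee (θ * m) * ∏ j, F j ((p : ℤ) * (a j * m + b j)) with hP
    have f1 : X - E0 ≤ ‖U‖ := by
      have e2 : X ≤ ‖SP a b G (fun m => ee (θ * m)) (y / 2 ^ i) - U‖ + ‖U‖ := by
        rw [hX]
        have := norm_add_le (SP a b G (fun m => ee (θ * m)) (y / 2 ^ i) - U) U
        rwa [sub_add_cancel] at this
      rw [hE0]
      linarith
    have f2 : ‖g p‖ * ‖U‖ ≤ A p + D p + 2 * (k * ((y : ℝ) / 4 ^ i + 1)) := by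
      rw [← norm_mul]
      have t0 : g p * U = -(P - g p * U) + (P - (∑ n ∈ Icc 1 y, ψ n) / p) + (∑ n ∈ Icc 1 y, ψ n) / p := by
        ring
      rw [e2] at e1
      have t1 : ‖P - (∑ n ∈ Icc 1 y, ψ n) / p‖ = A p := by
        rw [← e1]
        rfl
      have t2 : ‖(∑ n ∈ Icc 1 y, ψ n) / (p : ℂ)‖ ≤ D p := by
        rw [e3, norm_mul, norm_div, norm_pow, Complex.norm_natCast, Complex.norm_ofNat]
        have : (2 : ℝ) ^ i / p ≤ 1 := by
          rw [div_le_one hp0']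
          exact hp1'.le
        calc _ ≤ 1 * D p := mul_le_mul_of_nonneg_right this (norm_nonneg _)
          _ = _ := one_mul _
      have t3 := norm_add_le (-(P - g p * U) + (P - (∑ n ∈ Icc 1 y, ψ n) / p)) ((∑ n ∈ Icc 1 y, ψ n) / p)
      have t4 := norm_add_le (-(P - g p * U)) (P - (∑ n ∈ Icc 1 y, ψ n) / p)
      rw [norm_neg] at t4
      have t6 : (k : ℝ) * (((y / p : ℕ) : ℝ) / p + 1) ≤ k * ((y : ℝ) / 4 ^ i + 1) :=
        mul_le_mul_of_nonneg_left (by linarith) (Nat.cast_nonneg k)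
      rw [t0]
      linarith
    have f4 : ‖g p‖ * (X - E0) ≤ ‖g p‖ * ‖U‖ := mul_le_mul_of_nonneg_left f1 (norm_nonneg _)
    have f5 : ‖g p‖ * (X - E0) ≤ A p + D p + 2 * (k * ((y : ℝ) / 4 ^ i + 1)) := by linarith
    have f6 := mul_le_mul_of_nonneg_left f5 hlp
    calc (Real.log p * ‖g p‖) * (X - E0) = Real.log p * (‖g p‖ * (X - E0)) := by ring
      _ ≤ _ := f6
      _ = _ := by ring
  have hWX : WT δ g i * (X - E0) ≤ 2 * ε' * y + 3 * 2 ^ i * (2 * (k * ((y : ℝ) / 4 ^ i + 1))) := by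
    unfold WT
    rw [sum_mul]
    refine (sum_le_sum key).trans ?_
    rw [sum_add_distrib, sum_add_distrib, ← sum_mul]
    have m1 : ∑ p ∈ PL δ i, Real.log p * A p ≤ ε' * y :=
      (sum_le_sum_of_subset_of_nonneg (filter_subset _ _)
        (fun p hp _ => mul_nonneg (hlog p hp) (norm_nonneg _))).trans h1
    have m2 : ∑ p ∈ PL δ i, Real.log p * D p ≤ ε' * y :=
      (sum_le_sum_of_subset_of_nonneg (filter_subset _ _)
        (fun p hp _ => mul_nonneg (hlog p hp) (norm_nonneg _))).trans h2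
    have m4 : ∑ p ∈ PL δ i, Real.log p ≤ 3 * 2 ^ i :=
      (sum_le_sum_of_subset_of_nonneg (filter_subset _ _)
        (fun p hp _ => hlog p hp)).trans (theta_le i)
    have m5 : (∑ p ∈ PL δ i, Real.log p) * (2 * (k * ((y : ℝ) / 4 ^ i + 1))) ≤
        3 * 2 ^ i * (2 * (k * ((y : ℝ) / 4 ^ i + 1))) := mul_le_mul_of_nonneg_right m4 (by positivity)
    linarith
  by_cases hneg : X - E0 ≤ 0
  · have h5 : 0 ≤ ε' * y :=
      (sum_nonneg fun p hp => mul_nonneg (hlog p hp) (norm_nonneg _)).trans h1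
    have h7 : 0 ≤ 2 * ε' * (y / 2 ^ i) := by
      have : 2 * ε' * ((y : ℝ) / 2 ^ i) = (2 * (ε' * y)) / 2 ^ i := by ring
      rw [this]
      positivity
    have h8 : 0 ≤ 4 / δ * (2 * ε' * (y / 2 ^ i) + 6 * k * (y / 4 ^ i + 1)) := by positivity
    linarith
  · push Not at hneg
    have h5 : δ / 4 * 2 ^ i * (X - E0) ≤ WT δ g i * (X - E0) := mul_le_mul_of_nonneg_right hW hneg.le
    have h6 : δ / 4 * 2 ^ i * (X - E0) ≤
        2 * ε' * y + 3 * 2 ^ i * (2 * (k * ((y : ℝ) / 4 ^ i + 1))) := h5.trans hWX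
    have h7 : X - E0 ≤ 4 / δ * (2 * ε' * (y / 2 ^ i) + 6 * k * (y / 4 ^ i + 1)) := by
      have h8 : X - E0 ≤ (2 * ε' * y + 3 * 2 ^ i * (2 * (k * ((y : ℝ) / 4 ^ i + 1)))) / (δ / 4 * 2 ^ i) := by
        rw [le_div_iff₀ (by positivity)]
        linarith
      refine h8.trans (le_of_eq ?_)
      field_simp
      ring
    linarith

/-- the union bound for sums of `1 / i` -/
lemma un_le (S S' : Finset ℕ) : ∑ i ∈ S ∪ S', 1 / (i : ℝ) ≤ ∑ i ∈ S, 1 / (i : ℝ) + ∑ i ∈ S', 1 / (i : ℝ) := by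
  have := sum_union_inter (s₁ := S) (s₂ := S') (f := fun i : ℕ => 1 / (i : ℝ))
  have h2 : 0 ≤ ∑ i ∈ S ∩ S', 1 / (i : ℝ) := sum_nonneg fun i _ => by positivity
  linarith

lemma mono_le {S S' : Finset ℕ} (h : S ⊆ S') : ∑ i ∈ S, 1 / (i : ℝ) ≤ ∑ i ∈ S', 1 / (i : ℝ) :=
  sum_le_sum_of_subset_of_nonneg h fun i _ _ => by positivity

lemma Icc_le (m : ℕ) : ∑ i ∈ Icc 1 m, 1 / (i : ℝ) ≤ m := by
  calc ∑ i ∈ Icc 1 m, 1 / (i : ℝ) ≤ ∑ i ∈ Icc 1 m, (1 : ℝ) := by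
        apply sum_le_sum
        intro i hi
        rw [mem_Icc] at hi
        rw [div_le_one (by exact_mod_cast hi.1)]
        exact_mod_cast hi.1
    _ = m := by simp

/-- the engine for irrational rotations -/
theorem engP (k : ℕ) (a : Fin k → ℕ) (b : Fin k → ℤ) (ha : ∀ j, 1 ≤ a j) (ε : ℝ) (hε : 0 < ε) :
    ∃ (C δ : ℝ), 0 < C ∧ 0 < δ ∧ δ ≤ 1 ∧ ∀ θ : ℝ, Irrational θ → ∀ J : ℕ, ∃ y0 : ℕ, ∀ y : ℕ, y0 ≤ y →
      ∀ (F G : Fin k → ℤ → ℂ) (g : ℕ → ℂ), (∀ j m, ‖F j m‖ ≤ 1) → (∀ j m, ‖G j m‖ ≤ 1) →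
        (∀ p, ‖g p‖ ≤ 1) → Rel F G g →
        ∑ i ∈ (Icc 1 J).filter (fun i => ε * ((y : ℝ) / 2 ^ i) <
            ‖SP a b G (fun m => ee (θ * m)) (y / 2 ^ i)‖ ∧ δ / 4 * 2 ^ i ≤ WT δ g i), 1 / (i : ℝ) ≤ C := by
  classical
  set δ : ℝ := min (ε / 8) 1 with hδ
  have hδ0 : 0 < δ := by rw [hδ]; positivity
  have hδ1 : δ ≤ 1 := min_le_right _ _
  have hδε : δ ≤ ε / 8 := min_le_left _ _
  set ε' : ℝ := ε * δ / 48 with hε'
  have hε'0 : 0 < ε' := by positivity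
  obtain ⟨C0, i0, hC0, hi0, hdec⟩ := dec_phase k a b ha ε' hε'0
  obtain ⟨i3, hi3⟩ := pow_unbounded_of_one_lt (48 * k * 8 / (ε * δ) + 1) (one_lt_two (α := ℝ))
  set i1 := i0 + i3 + ∑ j, a j with hi1
  refine ⟨2 * C0 + i1, δ, by positivity, hδ0, hδ1, fun θ hθ J => ?_⟩
  obtain ⟨y1, hy1⟩ := hdec θ hθ J
  obtain ⟨y2, hy2⟩ := hdec (θ + 1) (by simpa using hθ.add_natCast 1) J
  refine ⟨y1 + y2 + ⌈2 ^ J * (8 * (48 * k / δ + 2)) / ε⌉₊, fun y hy F G g hF hG hg hR => ?_⟩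
  obtain ⟨Bad, hB1, hB2, hB3⟩ := hy1 y (by omega) F hF
  obtain ⟨Bad', hB1', hB2', hB3'⟩ := hy2 y (by omega) F hF
  have hyK : 2 ^ J * (8 * (48 * k / δ + 2)) / ε ≤ y := (Nat.le_ceil _).trans (by
    exact_mod_cast (by omega : ⌈2 ^ J * (8 * (48 * k / δ + 2)) / ε⌉₊ ≤ y))
  have hgood : ∀ i ∈ Icc 1 J, i1 ≤ i → i ∉ Bad → i ∉ Bad' → δ / 4 * 2 ^ i ≤ WT δ g i →
      ‖SP a b G (fun m => ee (θ * m)) (y / 2 ^ i)‖ ≤ ε * ((y : ℝ) / 2 ^ i) := by
    intro i hi hii hib hib' hW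
    rw [mem_Icc] at hi
    have hii0 : i ∈ Icc i0 J := by rw [mem_Icc]; omega
    have hlt : i < 2 ^ i := Nat.lt_two_pow_self
    have hia : ∀ j, a j ≤ 2 ^ i := by
      intro j
      have := single_le_sum (f := a) (fun _ _ => Nat.zero_le _) (mem_univ j)
      omega
    have h3 := goodP a b hF hG hg hR θ ε' δ hδ0 i y hia ha (hB3' i hii0 hib' wB (wt_B i))
      (hB3 i hii0 hib (wA i) (wt_A i)) hW
    have h2i : (0 : ℝ) < 2 ^ i := by positivity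
    have hyi : (0 : ℝ) ≤ (y : ℝ) / 2 ^ i := by positivity
    have hiJ : (2 : ℝ) ^ i ≤ 2 ^ J := pow_le_pow_right₀ one_le_two hi.2
    have h4i : (4 : ℝ) ^ i = 2 ^ i * 2 ^ i := by rw [← mul_pow]; norm_num
    refine h3.trans ?_
    have g1 : 4 / δ * (2 * ε' * (y / 2 ^ i) + 6 * k * (y / 4 ^ i + 1)) =
        ε / 6 * (y / 2 ^ i) + 24 * k / δ / 2 ^ i * (y / 2 ^ i) + 24 * k / δ := by
      rw [h4i, hε']
      field_simp
      ring
    have g2 : 24 * k / δ / 2 ^ i ≤ ε / 8 := by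
      have g3 : (48 * k * 8 / (ε * δ) : ℝ) ≤ 2 ^ i := by
        have : (2 : ℝ) ^ i3 ≤ 2 ^ i := pow_le_pow_right₀ one_le_two (by omega)
        linarith
      rw [div_le_iff₀ (by positivity)] at g3
      rw [div_div, div_le_iff₀ (by positivity)]
      have : (0 : ℝ) ≤ k := Nat.cast_nonneg _
      linarith
    have g4 : 24 * k / δ + 1 ≤ ε / 8 * (y / 2 ^ i) := by
      rw [div_le_iff₀ hε] at hyK
      rw [mul_div_assoc', le_div_iff₀ h2i]
      have g5 : 0 ≤ 8 * (48 * k / δ + 2) := by positivity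
      have g6 : 2 ^ i * (8 * (48 * k / δ + 2)) ≤ 2 ^ J * (8 * (48 * k / δ + 2)) :=
        mul_le_mul_of_nonneg_right hiJ g5
      have g7 : 24 * (k : ℝ) / δ ≤ 48 * k / δ := by
        apply div_le_div_of_nonneg_right _ hδ0.le
        have : (0 : ℝ) ≤ k := Nat.cast_nonneg _
        linarith
      nlinarith
    rw [g1]
    have g7 : 24 * k / δ / 2 ^ i * ((y : ℝ) / 2 ^ i) ≤ ε / 8 * (y / 2 ^ i) :=
      mul_le_mul_of_nonneg_right g2 hyi
    have g8 : δ * ((y : ℝ) / 2 ^ i) ≤ ε / 8 * (y / 2 ^ i) := mul_le_mul_of_nonneg_right hδε hyi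
    have g9 : 0 ≤ ε * ((y : ℝ) / 2 ^ i) := by positivity
    linarith
  have hsub : (Icc 1 J).filter (fun i => ε * ((y : ℝ) / 2 ^ i) <
      ‖SP a b G (fun m => ee (θ * m)) (y / 2 ^ i)‖ ∧ δ / 4 * 2 ^ i ≤ WT δ g i) ⊆
      Icc 1 i1 ∪ (Bad ∪ Bad') := by
    intro i hi
    rw [mem_filter] at hi
    rw [mem_union, mem_union]
    by_contra hcon
    push Not at hcon
    have h1 : i1 ≤ i := by
      by_contra h2
      apply hcon.1
      rw [mem_Icc]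
      have := (mem_Icc.1 hi.1).1
      omega
    have := hgood i hi.1 h1 hcon.2.1 hcon.2.2 hi.2.2
    linarith [hi.2.1]
  have h5 := mono_le hsub
  have h6 := un_le (Icc 1 i1) (Bad ∪ Bad')
  have h7 := un_le Bad Bad'
  have h8 := Icc_le i1
  linarith

/-- multiplicative functions with values in the closed unit disc -/
def IsMult (f : ℕ → ℂ) : Prop :=
  (∀ n, ‖f n‖ ≤ 1) ∧ ∀ m n : ℕ, m.Coprime n → f (m * n) = f m * f n

lemma toZ_norm {k : ℕ} {f : Fin k → ℕ → ℂ} (hf : ∀ i, IsMult (f i)) (j : Fin k) (m : ℤ) :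
    ‖Pool.Agent.N781.E.toZ f j m‖ ≤ 1 := (hf j).1 _

lemma rel_toZ {k : ℕ} {f : Fin k → ℕ → ℂ} (hf : ∀ i, IsMult (f i)) :
    Rel (Pool.Agent.N781.E.toZ f) (Pool.Agent.N781.E.toZ f) (fun p => ∏ i, f i p) := by
  intro p hp m hpm
  rw [← prod_mul_distrib]
  apply prod_congr rfl
  intro i _
  have h1 : ¬ p ∣ (m i).natAbs := fun h2 => hpm i (Int.natCast_dvd.mpr h2)
  unfold Pool.Agent.N781.E.toZ
  rw [Int.natAbs_mul, Int.natAbs_natCast, (hf i).2 _ _ ((Nat.Prime.coprime_iff_not_dvd hp).mpr h1)]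

/-- Correlations twisted by `e(θ n)`, `θ` irrational, are small at all but few dyadic scales; the
bound for the exceptional scales depends neither on `θ` nor on the functions. -/
theorem lin_few (k : ℕ) (hk : 0 < k) (a : Fin k → ℕ) (b : Fin k → ℤ) (ha : ∀ j, 1 ≤ a j) (ε : ℝ)
    (hε : 0 < ε) : ∃ C : ℝ, ∀ θ : ℝ, Irrational θ → ∀ J : ℕ, ∃ N₀ : ℕ, ∀ N : ℕ, N₀ ≤ N →
      ∀ f : Fin k → ℕ → ℂ, (∀ j, IsMult (f j)) →
        ∑ i ∈ (Icc 1 J).filter (fun i => ε * ((N : ℝ) / 2 ^ i) <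
          ‖SP a b (Pool.Agent.N781.E.toZ f) (fun m => ee (θ * m)) (N / 2 ^ i)‖), 1 / (i : ℝ) ≤ C := by
  classical
  obtain ⟨C0, δ, hC0, hδ, hδ1, heng⟩ := engP k a b ha ε hε
  obtain ⟨C3, i3, hC3, hlight⟩ := lightK k hk a b ha δ hδ hδ1 ε hε
  refine ⟨C0 + i3 + C3, fun θ hθ J => ?_⟩
  obtain ⟨y0, hy0⟩ := heng θ hθ J
  obtain ⟨y3, hy3⟩ := hlight J
  refine ⟨y0 + y3, fun N hN f hf => ?_⟩
  have hg : ∀ p, ‖∏ i, f i p‖ ≤ 1 := by
    intro p
    rw [norm_prod]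
    exact prod_le_one (fun _ _ => norm_nonneg _) (fun j _ => (hf j).1 _)
  have hmain := hy0 N (by omega) (Pool.Agent.N781.E.toZ f) (Pool.Agent.N781.E.toZ f) (fun p => ∏ i, f i p) (toZ_norm hf) (toZ_norm hf) hg
    (rel_toZ hf)
  -- absolute values
  set f' : Fin k → ℕ → ℂ := fun j n => ((‖f j n‖ : ℝ) : ℂ) with hf'
  have hnn' : ∀ j n, ‖f' j n‖ = ‖f j n‖ := by
    intro j n
    simp only [hf']
    rw [Complex.norm_real, norm_norm]
  have hMD : ∀ j, MD (f' j) := by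
    intro j
    refine ⟨fun n => ?_, fun m n hmn => ?_⟩
    · rw [hnn']
      exact (hf j).1 n
    · simp only [hf']
      rw [(hf j).2 m n hmn, norm_mul]
      push_cast
      rfl
  have hWT : ∀ i, WT δ (fun p => ∏ j, f' j p) i = WT δ (fun p => ∏ j, f j p) i := by
    intro i
    unfold WT
    apply sum_congr rfl
    intro p _
    rw [norm_prod, norm_prod]
    simp only [hnn']
  have habs : ∀ Y, ‖SP a b (Pool.Agent.N781.E.toZ f) (fun m => ee (θ * m)) Y‖ ≤ ‖SS a b (Pool.Agent.N781.E.toZ f') Y‖ := by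
    intro Y
    have h1 : SS a b (Pool.Agent.N781.E.toZ f') Y =
        ((∑ m ∈ Icc 1 Y, ∏ j, ‖Pool.Agent.N781.E.toZ f j (a j * m + b j)‖ : ℝ) : ℂ) := by
      unfold SS Pool.Agent.N781.E.toZ
      push_cast
      rfl
    rw [h1, Complex.norm_real, Real.norm_eq_abs, abs_of_nonneg
      (sum_nonneg fun _ _ => prod_nonneg fun _ _ => norm_nonneg _)]
    unfold SP
    refine (norm_sum_le _ _).trans (sum_le_sum fun m _ => ?_)
    rw [norm_mul, ee_norm, one_mul, norm_prod]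
  by_contra hcon
  push Not at hcon
  set L := (Icc i3 J).filter (fun i => WT δ (fun p => ∏ j, f j p) i < δ / 4 * 2 ^ i) with hL
  have hsub : (Icc 1 J).filter (fun i => ε * ((N : ℝ) / 2 ^ i) <
      ‖SP a b (Pool.Agent.N781.E.toZ f) (fun m => ee (θ * m)) (N / 2 ^ i)‖) ⊆
      ((Icc 1 J).filter (fun i => ε * ((N : ℝ) / 2 ^ i) <
      ‖SP a b (Pool.Agent.N781.E.toZ f) (fun m => ee (θ * m)) (N / 2 ^ i)‖ ∧
        δ / 4 * 2 ^ i ≤ WT δ (fun p => ∏ j, f j p) i)) ∪ (Icc 1 i3 ∪ L) := by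
    intro i hi
    rw [mem_filter, mem_Icc] at hi
    rw [mem_union, mem_union, mem_filter, mem_Icc, mem_Icc, hL, mem_filter, mem_Icc]
    by_cases h1 : i ≤ i3
    · exact Or.inr (Or.inl ⟨hi.1.1, h1⟩)
    · by_cases h2 : δ / 4 * 2 ^ i ≤ WT δ (fun p => ∏ j, f j p) i
      · exact Or.inl ⟨hi.1, hi.2, h2⟩
      · exact Or.inr (Or.inr ⟨⟨by omega, hi.1.2⟩, not_le.1 h2⟩)
  have h5 := mono_le hsub
  have h6 := un_le ((Icc 1 J).filter (fun i => ε * ((N : ℝ) / 2 ^ i) <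
      ‖SP a b (Pool.Agent.N781.E.toZ f) (fun m => ee (θ * m)) (N / 2 ^ i)‖ ∧
        δ / 4 * 2 ^ i ≤ WT δ (fun p => ∏ j, f j p) i)) (Icc 1 i3 ∪ L)
  have h7 := un_le (Icc 1 i3) L
  have h8 := Icc_le i3
  have h9 : C3 < ∑ i ∈ L, 1 / (i : ℝ) := by linarith
  have h10 := hy3 N (by omega) f' hMD (by simp only [hWT]; exact h9)
  have h11 : (Icc 1 J).filter (fun i => ε * ((N : ℝ) / 2 ^ i) <
      ‖SP a b (Pool.Agent.N781.E.toZ f) (fun m => ee (θ * m)) (N / 2 ^ i)‖) = ∅ := by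
    rw [Finset.eq_empty_iff_forall_notMem]
    intro i hi
    rw [mem_filter] at hi
    have h12 := h10 i hi.1
    have h13 := habs (N / 2 ^ i)
    linarith [hi.2]
  rw [h11, sum_empty] at hcon
  have h13 : (0 : ℝ) ≤ i3 := Nat.cast_nonneg _
  linarith

end Run7.h581
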