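import Mathlib

/-!
A van der Corput inequality.
-/

set_option autoImplicit false

namespace Run7.h581

open Finset

lemma sum_shift_le (v : ℕ → ℂ) (hv : ∀ n, ‖v n‖ ≤ 1) (y h : ℕ) :
    ‖∑ n ∈ Icc 1 y, v (n + h) - ∑ n ∈ Icc 1 y, v n‖ ≤ 2 * h := by
  have e1 : ∑ n ∈ Icc 1 y, v (n + h) = ∑ n ∈ Icc (1 + h) (y + h), v n := by
    rw [← Finset.map_add_right_Icc, sum_map]
    rfl
  rw [e1, ← Finset.sum_sdiff_sub_sum_sdiff]
  refine (norm_sub_le _ _).trans ?_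
  have f1 : ∀ S : Finset ℕ, ‖∑ n ∈ S, v n‖ ≤ S.card := by
    intro S
    refine (norm_sum_le _ _).trans ?_
    refine (sum_le_sum (fun n _ => hv n)).trans ?_
    rw [sum_const, nsmul_eq_mul, mul_one]
  have f2 : (Icc (1 + h) (y + h) \ Icc 1 y).card ≤ h := by
    have : Icc (1 + h) (y + h) \ Icc 1 y ⊆ Icc (y + 1) (y + h) := by
      intro n hn
      rw [mem_sdiff, mem_Icc, mem_Icc] at hn
      rw [mem_Icc]
      omega
    refine (card_le_card this).trans ?_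
    rw [Nat.card_Icc]
    omega
  have f3 : (Icc 1 y \ Icc (1 + h) (y + h)).card ≤ h := by
    have : Icc 1 y \ Icc (1 + h) (y + h) ⊆ Icc 1 h := by
      intro n hn
      rw [mem_sdiff, mem_Icc, mem_Icc] at hn
      rw [mem_Icc]
      omega
    refine (card_le_card this).trans ?_
    rw [Nat.card_Icc]
    omega
  have g1 := f1 (Icc (1 + h) (y + h) \ Icc 1 y)
  have g2 := f1 (Icc 1 y \ Icc (1 + h) (y + h))
  have g3 : ((Icc (1 + h) (y + h) \ Icc 1 y).card : ℝ) ≤ h := by exact_mod_cast f2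
  have g4 : ((Icc 1 y \ Icc (1 + h) (y + h)).card : ℝ) ≤ h := by exact_mod_cast f3
  linarith

/-- van der Corput's inequality -/
theorem vdc (u : ℕ → ℂ) (hu : ∀ n, ‖u n‖ ≤ 1) (y H : ℕ) (hH : 1 ≤ H) (η Y : ℝ) (hη : 0 ≤ η)
    (hyY : (y : ℝ) ≤ Y)
    (h : ∀ d, 1 ≤ d → d < H → ‖∑ m ∈ Icc 1 y, u (m + d) * (starRingEnd ℂ) (u m)‖ ≤ η * Y) :
    ‖∑ n ∈ Icc 1 y, u n‖ ^ 2 ≤ 2 * Y ^ 2 / H + 2 * η * Y ^ 2 + 4 * H * Y + 8 * H ^ 2 := by
  have hHr : (1 : ℝ) ≤ H := by exact_mod_cast hH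
  have hH0 : (0 : ℝ) < H := by linarith
  have hy0 : (0 : ℝ) ≤ y := Nat.cast_nonneg _
  have hY0 : 0 ≤ Y := hy0.trans hyY
  set A := ∑ n ∈ Icc 1 y, u n with hA
  set B := ∑ n ∈ Icc 1 y, ∑ t ∈ range H, u (n + t) with hB
  have h1 : ‖B - H * A‖ ≤ 2 * H ^ 2 := by
    have e1 : B - H * A = ∑ t ∈ range H, (∑ n ∈ Icc 1 y, u (n + t) - ∑ n ∈ Icc 1 y, u n) := by
      rw [sum_sub_distrib, sum_const, card_range, nsmul_eq_mul, hB, sum_comm]
    rw [e1]
    refine (norm_sum_le _ _).trans ?_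
    have e2 : ∀ t ∈ range H, ‖∑ n ∈ Icc 1 y, u (n + t) - ∑ n ∈ Icc 1 y, u n‖ ≤ 2 * H := by
      intro t ht
      rw [mem_range] at ht
      have := sum_shift_le u hu y t
      have h3 : (t : ℝ) ≤ H := by exact_mod_cast ht.le
      linarith
    refine (sum_le_sum e2).trans (le_of_eq ?_)
    rw [sum_const, card_range, nsmul_eq_mul]
    ring
  -- the pairs
  have hT : ∀ s ∈ range H, ∀ t ∈ range H, s ≠ t →
      ‖∑ n ∈ Icc 1 y, u (n + s) * (starRingEnd ℂ) (u (n + t))‖ ≤ η * Y + 2 * H := by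
    have hT1 : ∀ s ∈ range H, ∀ t ∈ range H, t < s →
        ‖∑ n ∈ Icc 1 y, u (n + s) * (starRingEnd ℂ) (u (n + t))‖ ≤ η * Y + 2 * H := by
      intro s hs t ht hts
      rw [mem_range] at hs ht
      set v : ℕ → ℂ := fun m => u (m + (s - t)) * (starRingEnd ℂ) (u m) with hv
      have hv1 : ∀ n, ‖v n‖ ≤ 1 := by
        intro n
        simp only [hv]
        rw [norm_mul, RCLike.norm_conj]
        exact mul_le_one₀ (hu _) (norm_nonneg _) (hu _)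
      have e1 : ∑ n ∈ Icc 1 y, u (n + s) * (starRingEnd ℂ) (u (n + t)) = ∑ n ∈ Icc 1 y, v (n + t) := by
        apply sum_congr rfl
        intro n _
        simp only [hv]
        rw [show n + t + (s - t) = n + s by omega]
      rw [e1]
      have e2 := sum_shift_le v hv1 y t
      have e3 := h (s - t) (by omega) (by omega)
      have e4 : ‖∑ n ∈ Icc 1 y, v (n + t)‖ ≤ ‖∑ n ∈ Icc 1 y, v (n + t) - ∑ n ∈ Icc 1 y, v n‖ +
          ‖∑ n ∈ Icc 1 y, v n‖ := by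
        have := norm_add_le (∑ n ∈ Icc 1 y, v (n + t) - ∑ n ∈ Icc 1 y, v n) (∑ n ∈ Icc 1 y, v n)
        rwa [sub_add_cancel] at this
      have e5 : (t : ℝ) ≤ H := by exact_mod_cast ht.le
      linarith
    intro s hs t ht hst
    rcases Nat.lt_or_gt_of_ne hst with h2 | h2
    · have h3 := hT1 t ht s hs h2
      rw [← RCLike.norm_conj] at h3
      rw [map_sum] at h3
      refine le_trans (le_of_eq ?_) h3
      congr 1
      apply sum_congr rfl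
      intro n _
      rw [map_mul, Complex.conj_conj, mul_comm]
    · exact hT1 s hs t ht h2
  have h2 : ∑ n ∈ Icc 1 y, ‖∑ t ∈ range H, u (n + t)‖ ^ 2 ≤ H * Y + H ^ 2 * (η * Y + 2 * H) := by
    have e1 : ((∑ n ∈ Icc 1 y, ‖∑ t ∈ range H, u (n + t)‖ ^ 2 : ℝ) : ℂ) =
        ∑ s ∈ range H, ∑ t ∈ range H, ∑ n ∈ Icc 1 y, u (n + s) * (starRingEnd ℂ) (u (n + t)) := by
      push_cast
      have e2 : ∀ n ∈ Icc 1 y, ((‖∑ t ∈ range H, u (n + t)‖ : ℝ) : ℂ) ^ 2 =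
          ∑ s ∈ range H, ∑ t ∈ range H, u (n + s) * (starRingEnd ℂ) (u (n + t)) := by
        intro n _
        rw [← Complex.ofReal_pow, ← Complex.normSq_eq_norm_sq, ← Complex.mul_conj, map_sum, sum_mul_sum]
      rw [sum_congr rfl e2, sum_comm]
      apply sum_congr rfl
      intro s _
      rw [sum_comm]
    have e2 : ∑ n ∈ Icc 1 y, ‖∑ t ∈ range H, u (n + t)‖ ^ 2 =
        ‖∑ s ∈ range H, ∑ t ∈ range H, ∑ n ∈ Icc 1 y, u (n + s) * (starRingEnd ℂ) (u (n + t))‖ := by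
      rw [← e1, Complex.norm_real, Real.norm_eq_abs, abs_of_nonneg (sum_nonneg fun _ _ => by positivity)]
    rw [e2]
    refine (norm_sum_le _ _).trans ?_
    have e3 : ∀ s ∈ range H, ‖∑ t ∈ range H, ∑ n ∈ Icc 1 y, u (n + s) * (starRingEnd ℂ) (u (n + t))‖ ≤
        Y + H * (η * Y + 2 * H) := by
      intro s hs
      refine (norm_sum_le _ _).trans ?_
      have e4 : ∀ t ∈ range H, ‖∑ n ∈ Icc 1 y, u (n + s) * (starRingEnd ℂ) (u (n + t))‖ ≤
          (if s = t then Y else 0) + (η * Y + 2 * H) := by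
        intro t ht
        split_ifs with hst
        · have e5 : ‖∑ n ∈ Icc 1 y, u (n + s) * (starRingEnd ℂ) (u (n + t))‖ ≤ y := by
            refine (norm_sum_le _ _).trans ?_
            have e6 : ∀ n ∈ Icc 1 y, ‖u (n + s) * (starRingEnd ℂ) (u (n + t))‖ ≤ 1 := by
              intro n _
              rw [norm_mul, RCLike.norm_conj]
              exact mul_le_one₀ (hu _) (norm_nonneg _) (hu _)
            refine (sum_le_sum e6).trans (le_of_eq ?_)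
            rw [sum_const, Nat.card_Icc, nsmul_eq_mul, mul_one, Nat.add_sub_cancel]
          have e7 : 0 ≤ η * Y := by positivity
          linarith
        · rw [zero_add]
          exact hT s hs t ht hst
      refine (sum_le_sum e4).trans (le_of_eq ?_)
      rw [sum_add_distrib, sum_ite_eq, if_pos hs, sum_const, card_range, nsmul_eq_mul]
    refine (sum_le_sum e3).trans (le_of_eq ?_)
    rw [sum_const, card_range, nsmul_eq_mul]
    ring
  have h3 : ‖B‖ ^ 2 ≤ Y * (H * Y + H ^ 2 * (η * Y + 2 * H)) := by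
    have e1 : ‖B‖ ≤ ∑ n ∈ Icc 1 y, ‖∑ t ∈ range H, u (n + t)‖ := norm_sum_le _ _
    have e2 : (∑ n ∈ Icc 1 y, ‖∑ t ∈ range H, u (n + t)‖) ^ 2 ≤
        (Icc 1 y).card * ∑ n ∈ Icc 1 y, ‖∑ t ∈ range H, u (n + t)‖ ^ 2 := sq_sum_le_card_mul_sum_sq
    rw [Nat.card_Icc, Nat.add_sub_cancel] at e2
    have e3 : ‖B‖ ^ 2 ≤ (∑ n ∈ Icc 1 y, ‖∑ t ∈ range H, u (n + t)‖) ^ 2 :=
      pow_le_pow_left₀ (norm_nonneg _) e1 2
    refine e3.trans (e2.trans ?_)
    exact mul_le_mul hyY h2 (sum_nonneg fun _ _ => by positivity) hY0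
  have h4 : H * ‖A‖ ≤ ‖B‖ + 2 * H ^ 2 := by
    have e1 : (H : ℂ) * A = B - (B - H * A) := by ring
    have e2 : ‖(H : ℂ) * A‖ ≤ ‖B‖ + ‖B - H * A‖ := by
      conv_lhs => rw [e1]
      exact norm_sub_le _ _
    rw [norm_mul, Complex.norm_natCast] at e2
    linarith
  have h5 : (H * ‖A‖) ^ 2 ≤ 2 * ‖B‖ ^ 2 + 8 * (H : ℝ) ^ 4 := by
    have e1 : (H * ‖A‖) ^ 2 ≤ (‖B‖ + 2 * H ^ 2) ^ 2 := pow_le_pow_left₀ (by positivity) h4 2
    nlinarith [sq_nonneg (‖B‖ - 2 * (H : ℝ) ^ 2)]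
  have h6 : (H : ℝ) ^ 2 * ‖A‖ ^ 2 ≤
      (H : ℝ) ^ 2 * (2 * Y ^ 2 / H + 2 * η * Y ^ 2 + 4 * H * Y + 8 * H ^ 2) := by
    calc (H : ℝ) ^ 2 * ‖A‖ ^ 2 = (H * ‖A‖) ^ 2 := by ring
      _ ≤ 2 * ‖B‖ ^ 2 + 8 * (H : ℝ) ^ 4 := h5
      _ ≤ 2 * (Y * (H * Y + H ^ 2 * (η * Y + 2 * H))) + 8 * (H : ℝ) ^ 4 := by linarith
      _ = _ := by
        field_simp
        ring
  exact le_of_mul_le_mul_left h6 (by positivity)

end Run7.h581
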