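import Mathlib
import Pool.Agent.Run7.h581.Poly

/-!
Weights which are locally close to periodic phases: the sum over the multiples of `p` is small in
mean over the primes of the scale, at all but few scales.
-/

set_option autoImplicit false

namespace Run7.h581

open Finset Pool.Agent.TH575.CW Pool.Agent.N781.E

/-- On most blocks `(s L, (s + 1) L]` and for all small primes `p` the values `w (n / p)`, `p ∣ n`, are
close to `c_p e(u'_p t / V')`, `n = s L + t`, and also `e(t / p) e(u_p t / V)` is close to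
`e(u'_p t / V')`, where `V` and `V'` are small multiples of `L` and prime to all small primes. -/
def Loc (w : ℕ → ℂ) : Prop :=
  ∀ (J : ℕ) (K κ ε : ℝ), 0 < K → 0 < κ → 0 < ε → ∃ L : ℕ, 2 ^ (J + 1) ≤ L ∧ ∃ Y0 : ℕ, ∀ Y : ℕ, Y0 ≤ Y →
    ∃ G : Finset ℕ, G ⊆ range Y ∧ ((range Y \ G).card : ℝ) ≤ ε * Y ∧ ∀ s ∈ G,
      ∃ (V V' : ℕ) (u u' : ℕ → ℤ) (c : ℕ → ℂ), 0 < V ∧ 0 < V' ∧
        (∀ p : ℕ, p.Prime → p ≤ 2 ^ (J + 1) → ¬ p ∣ V ∧ ¬ p ∣ V') ∧ K * V ≤ L ∧ K * V' ≤ L ∧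
        ∀ p : ℕ, p.Prime → p ≤ 2 ^ (J + 1) → ‖c p‖ ≤ 1 ∧
          L * |(u p : ℝ) / V + 1 / p - u' p / V'| ≤ κ ∧
          ∀ t ∈ Icc 1 L, p ∣ s * L + t →
            ‖w ((s * L + t) / p) - c p * ee (u' p * t / V')‖ ≤ κ

lemma wt_shift {i : ℕ} {ω : ℕ → ℕ → ℂ} (hω : Wt i ω) (n0 : ℕ) : Wt i (fun p n => ω p (n0 + n)) where
  per := by
    intro p hp n
    show ω p (n0 + (n + p)) = ω p (n0 + n)
    rw [show n0 + (n + p) = n0 + n + p by ring, hω.per p hp]
  mean := by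
    intro p hp
    rw [← hω.mean p hp]
    apply Complex.ext
    · rw [Complex.re_sum, Complex.re_sum]
      have := sum_shift p (fun n => (ω p n).re) (fun n => by simp only [hω.per p hp]) n0
      simpa only [add_comm] using this
    · rw [Complex.im_sum, Complex.im_sum]
      have := sum_shift p (fun n => (ω p n).im) (fun n => by simp only [hω.per p hp]) n0
      simpa only [add_comm] using this
  blk := by
    intro p hp s
    have := hω.blk p hp (n0 + s)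
    simpa only [add_assoc] using this

/-- the number of multiples of `p` in a block -/
lemma card_blk (p L n0 : ℕ) (hp : p.Prime) :
    (((Icc 1 L).filter (fun t => p ∣ n0 + t)).card : ℝ) ≤ (L : ℝ) / p + 1 := by
  have h := card_lin p L 1 n0 hp hp.not_dvd_one
  have h1 : (Icc 1 L).filter (fun t => p ∣ n0 + t) =
      (Icc 1 L).filter (fun m : ℕ => (p : ℤ) ∣ ((1 : ℕ) : ℤ) * m + (n0 : ℤ)) := by
    apply filter_congr
    intro t _
    rw [← Int.natCast_dvd_natCast]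
    push_cast
    rw [one_mul, add_comm]
  rw [h1]
  exact h

/-- the sum over the multiples of `p` in a block -/
noncomputable def blk (w X : ℕ → ℂ) (p L n0 : ℕ) : ℂ :=
  ∑ t ∈ (Icc 1 L).filter (fun t => p ∣ n0 + t), w ((n0 + t) / p) * X t

lemma blk_triv (w X : ℕ → ℂ) (hw : ∀ m, ‖w m‖ ≤ 1) (hX : ∀ m, ‖X m‖ ≤ 1) (p L n0 : ℕ) (hp : p.Prime) :
    ‖blk w X p L n0‖ ≤ (L : ℝ) / p + 1 := by
  refine le_trans ?_ (card_blk p L n0 hp)
  unfold blk
  refine (norm_sum_le _ _).trans ?_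
  have h1 : ∀ t ∈ (Icc 1 L).filter (fun t => p ∣ n0 + t), ‖w ((n0 + t) / p) * X t‖ ≤ 1 := by
    intro t _
    rw [norm_mul]
    exact mul_le_one₀ (hw _) (norm_nonneg _) (hX _)
  refine (sum_le_sum h1).trans (le_of_eq ?_)
  rw [sum_const, nsmul_eq_mul, mul_one]

/-- one block, one prime -/
lemma blk_bound (w X : ℕ → ℂ) (hX : ∀ m, ‖X m‖ ≤ 1) (i p L n0 : ℕ) (hp : p.Prime) (hpi : 2 ^ i ≤ p)
    (V V' : ℕ) (u u' : ℤ) (c : ℂ) (hc : ‖c‖ ≤ 1) (κ : ℝ) (hκ : 0 ≤ κ)
    (h1 : L * |(u : ℝ) / V + 1 / p - u' / V'| ≤ κ)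
    (h2 : ∀ t ∈ Icc 1 L, p ∣ n0 + t → ‖w ((n0 + t) / p) - c * ee (u' * t / V')‖ ≤ κ) :
    ‖blk w X p L n0‖ ≤ ‖∑ t ∈ Icc 1 L, wB p (n0 + t) * (ee (u' * t / V') * X t)‖ +
      ‖∑ t ∈ Icc 1 L, wA i p t * (ee (u * t / V) * X t)‖ + κ * (L / p + 1) + (L : ℝ) / p * (2 * Real.pi * κ) := by
  have hp0 : (0 : ℝ) < p := by exact_mod_cast hp.pos
  have hpc : (p : ℂ) ≠ 0 := by exact_mod_cast hp.ne_zero
  have e1 : blk w X p L n0 =
      ∑ t ∈ (Icc 1 L).filter (fun t => p ∣ n0 + t), (w ((n0 + t) / p) - c * ee (u' * t / V')) * X t +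
      c * (∑ t ∈ Icc 1 L, wB p (n0 + t) * (ee (u' * t / V') * X t) +
        (∑ t ∈ Icc 1 L, ee (u' * t / V') * X t) / p) := by
    have e2 : ∑ t ∈ Icc 1 L, wB p (n0 + t) * (ee (u' * t / V') * X t) +
        (∑ t ∈ Icc 1 L, ee (u' * t / V') * X t) / p =
        ∑ t ∈ (Icc 1 L).filter (fun t => p ∣ n0 + t), ee (u' * t / V') * X t := by
      rw [sum_div, ← sum_add_distrib, sum_filter]
      apply sum_congr rfl
      intro t _
      unfold wB om
      push_cast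
      split_ifs <;> push_cast <;> ring
    rw [e2, mul_sum, ← sum_add_distrib]
    unfold blk
    apply sum_congr rfl
    intro t _
    ring
  have e3 : (∑ t ∈ Icc 1 L, ee (u' * t / V') * X t) / (p : ℂ) =
      (∑ t ∈ Icc 1 L, (ee (u' * t / V') - ee (t / p) * ee (u * t / V)) * X t) / p +
      ((2 : ℂ) ^ i / p) * ∑ t ∈ Icc 1 L, wA i p t * (ee (u * t / V) * X t) := by
    rw [mul_sum, sum_div, sum_div, ← sum_add_distrib]
    apply sum_congr rfl
    intro t _
    unfold wA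
    field_simp
    ring
  have f1 : ‖∑ t ∈ (Icc 1 L).filter (fun t => p ∣ n0 + t),
      (w ((n0 + t) / p) - c * ee (u' * t / V')) * X t‖ ≤ κ * (L / p + 1) := by
    refine (norm_sum_le _ _).trans ?_
    have h3 : ∀ t ∈ (Icc 1 L).filter (fun t => p ∣ n0 + t),
        ‖(w ((n0 + t) / p) - c * ee (u' * t / V')) * X t‖ ≤ κ := by
      intro t ht
      rw [mem_filter] at ht
      rw [norm_mul]
      calc _ ≤ κ * 1 := mul_le_mul (h2 t ht.1 ht.2) (hX _) (norm_nonneg _) hκ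
        _ = κ := mul_one _
    refine (sum_le_sum h3).trans ?_
    rw [sum_const, nsmul_eq_mul, mul_comm]
    exact mul_le_mul_of_nonneg_left (card_blk p L n0 hp) hκ
  have f2 : ‖(∑ t ∈ Icc 1 L, (ee (u' * t / V') - ee (t / p) * ee (u * t / V)) * X t) / (p : ℂ)‖ ≤
      (L : ℝ) / p * (2 * Real.pi * κ) := by
    rw [norm_div, Complex.norm_natCast]
    have h3 : ‖∑ t ∈ Icc 1 L, (ee (u' * t / V') - ee (t / p) * ee (u * t / V)) * X t‖ ≤
        L * (2 * Real.pi * κ) := by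
      refine (norm_sum_le _ _).trans ?_
      have h4 : ∀ t ∈ Icc 1 L, ‖(ee (u' * t / V') - ee (t / p) * ee (u * t / V)) * X t‖ ≤
          2 * Real.pi * κ := by
        intro t ht
        rw [mem_Icc] at ht
        have htL : (t : ℝ) ≤ L := by exact_mod_cast ht.2
        rw [norm_mul, ← ee_add]
        have h5 : ‖ee (u' * t / V') - ee (t / p + u * t / V)‖ ≤ 2 * Real.pi * κ := by
          refine (ee_sub_le _ _).trans ?_
          apply mul_le_mul_of_nonneg_left _ (by positivity)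
          have h6 : (u' : ℝ) * t / V' - (t / p + u * t / V) = -(t * (u / V + 1 / p - u' / V')) := by ring
          rw [h6, abs_neg, abs_mul, abs_of_nonneg (Nat.cast_nonneg t)]
          exact (mul_le_mul_of_nonneg_right htL (abs_nonneg _)).trans h1
        calc _ ≤ (2 * Real.pi * κ) * 1 := mul_le_mul h5 (hX _) (norm_nonneg _) (by positivity)
          _ = _ := mul_one _
      refine (sum_le_sum h4).trans (le_of_eq ?_)
      rw [sum_const, Nat.card_Icc, nsmul_eq_mul, Nat.add_sub_cancel]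
    calc _ ≤ (L * (2 * Real.pi * κ)) / (p : ℝ) := div_le_div_of_nonneg_right h3 hp0.le
      _ = _ := by ring
  have f3 : ‖((2 : ℂ) ^ i / p) * ∑ t ∈ Icc 1 L, wA i p t * (ee (u * t / V) * X t)‖ ≤
      ‖∑ t ∈ Icc 1 L, wA i p t * (ee (u * t / V) * X t)‖ := by
    rw [norm_mul, norm_div, norm_pow, Complex.norm_natCast, Complex.norm_ofNat]
    have : (2 : ℝ) ^ i / p ≤ 1 := by
      rw [div_le_one hp0]
      exact_mod_cast hpi
    calc _ ≤ 1 * ‖∑ t ∈ Icc 1 L, wA i p t * (ee (u * t / V) * X t)‖ :=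
          mul_le_mul_of_nonneg_right this (norm_nonneg _)
      _ = _ := one_mul _
  rw [e1]
  refine (norm_add_le _ _).trans ?_
  have f4 : ‖c * (∑ t ∈ Icc 1 L, wB p (n0 + t) * (ee (u' * t / V') * X t) +
        (∑ t ∈ Icc 1 L, ee (u' * t / V') * X t) / p)‖ ≤
      ‖∑ t ∈ Icc 1 L, wB p (n0 + t) * (ee (u' * t / V') * X t)‖ +
      (‖∑ t ∈ Icc 1 L, wA i p t * (ee (u * t / V) * X t)‖ + (L : ℝ) / p * (2 * Real.pi * κ)) := by
    rw [norm_mul]
    have h3 := norm_add_le (∑ t ∈ Icc 1 L, wB p (n0 + t) * (ee (u' * t / V') * X t))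
      ((∑ t ∈ Icc 1 L, ee (u' * t / V') * X t) / (p : ℂ))
    have h4 := norm_add_le
      ((∑ t ∈ Icc 1 L, (ee (u' * t / V') - ee (t / p) * ee (u * t / V)) * X t) / (p : ℂ))
      (((2 : ℂ) ^ i / p) * ∑ t ∈ Icc 1 L, wA i p t * (ee (u * t / V) * X t))
    rw [← e3] at h4
    calc _ ≤ 1 * ‖(∑ t ∈ Icc 1 L, wB p (n0 + t) * (ee (u' * t / V') * X t) +
        (∑ t ∈ Icc 1 L, ee (u' * t / V') * X t) / p)‖ := mul_le_mul_of_nonneg_right hc (norm_nonneg _)
      _ ≤ _ := by linarith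
  linarith

/-- splitting into blocks -/
lemma sum_blocks (L : ℕ) (f : ℕ → ℂ) (Y : ℕ) :
    ∑ n ∈ Icc 1 (Y * L), f n = ∑ s ∈ range Y, ∑ t ∈ Icc 1 L, f (s * L + t) := by
  induction Y with
  | zero => simp
  | succ Y ih =>
    rw [sum_range_succ, ← ih]
    have h1 : Icc 1 ((Y + 1) * L) = Icc 1 (Y * L) ∪ Ioc (Y * L) ((Y + 1) * L) := by
      ext n
      simp only [mem_Icc, mem_union, mem_Ioc]
      have : Y * L ≤ (Y + 1) * L := Nat.mul_le_mul_right _ (by omega)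
      omega
    have h2 : Disjoint (Icc 1 (Y * L)) (Ioc (Y * L) ((Y + 1) * L)) := by
      rw [disjoint_left]; intro n; simp only [mem_Icc, mem_Ioc]; omega
    rw [h1, sum_union h2]
    congr 1
    have h3 : Ioc (Y * L) ((Y + 1) * L) = (Icc 1 L).map (addLeftEmbedding (Y * L)) := by
      rw [Finset.map_add_left_Icc]
      ext n
      rw [mem_Ioc, mem_Icc]
      have : (Y + 1) * L = Y * L + L := by ring
      omega
    rw [h3, sum_map]
    rfl

end Run7.h581
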