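import Mathlib
import Pool.Agent.Run7.h581.Loc

/-!
Weights which are locally close to periodic phases: decoupling over blocks, and the theorem for such
weights.
-/

set_option autoImplicit false

namespace Run7.h581

open Finset Pool.Agent.TH575.CW Pool.Agent.N781.E

lemma sum_log_blk (i L : ℕ) (hiL : 2 ^ i ≤ L) : ∑ p ∈ QD i (i + 1), Real.log p * ((L : ℝ) / p + 1) ≤ 6 * L := by
  have h2i : (0 : ℝ) < 2 ^ i := by positivity
  have hL : (2 : ℝ) ^ i ≤ L := by exact_mod_cast hiL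
  have h1 : ∀ p ∈ QD i (i + 1), Real.log p * ((L : ℝ) / p + 1) ≤ Real.log p * ((L : ℝ) / 2 ^ i + 1) := by
    intro p hp
    have hpp := QD_prime hp
    have hp1 : 2 ^ i < p := by
      unfold QD at hp
      rw [mem_filter, mem_Ioc] at hp
      exact hp.1.1
    have hlog : 0 ≤ Real.log p := Real.log_nonneg (by exact_mod_cast hpp.one_lt.le)
    apply mul_le_mul_of_nonneg_left _ hlog
    have : (L : ℝ) / p ≤ L / 2 ^ i := div_le_div_of_nonneg_left (Nat.cast_nonneg _) h2i (by exact_mod_cast hp1.le)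
    linarith
  refine (sum_le_sum h1).trans ?_
  rw [← sum_mul]
  calc _ ≤ (3 * 2 ^ i) * ((L : ℝ) / 2 ^ i + 1) := mul_le_mul_of_nonneg_right (theta_le i) (by positivity)
    _ = 3 * L + 3 * 2 ^ i := by field_simp
    _ ≤ 6 * L := by linarith

/-- one block, all scales -/
lemma blk_all (k : ℕ) (a : Fin k → ℕ) (b : Fin k → ℤ) (ε1 C0 : ℝ) (i0 J : ℕ) (K : ℝ)
    (hdec : ∀ y V : ℕ, 0 < V → (∀ p : ℕ, p.Prime → p ≤ 2 ^ (J + 1) → ¬ p ∣ V) → K * V ≤ y →
      ∀ F : Fin k → ℤ → ℂ, (∀ j m, ‖F j m‖ ≤ 1) → ∃ Bad : Finset ℕ, Bad ⊆ Icc i0 J ∧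
        ∑ i ∈ Bad, 1 / (i : ℝ) ≤ C0 ∧ ∀ i ∈ Icc i0 J, i ∉ Bad →
        ∀ ω φ : ℕ → ℕ → ℂ, Wt i ω → (∀ p n, ‖φ p n‖ ≤ 1) → (∀ p n, φ p (n + V) = φ p n) →
        ∑ p ∈ QD i (i + 1), Real.log p *
          ‖∑ n ∈ Icc 1 y, ω p n * (φ p n * ∏ j, F j (a j * n + b j * p))‖ ≤ ε1 * y)
    (κ : ℝ) (hκ : 0 ≤ κ) (L : ℕ) (hL : 2 ^ (J + 1) ≤ L) (w : ℕ → ℂ) (n0 V V' : ℕ)
    (u u' : ℕ → ℤ) (c : ℕ → ℂ) (hV : 0 < V) (hV' : 0 < V')
    (hcop : ∀ p : ℕ, p.Prime → p ≤ 2 ^ (J + 1) → ¬ p ∣ V ∧ ¬ p ∣ V') (hKV : K * V ≤ L) (hKV' : K * V' ≤ L)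
    (hloc : ∀ p : ℕ, p.Prime → p ≤ 2 ^ (J + 1) → ‖c p‖ ≤ 1 ∧
          L * |(u p : ℝ) / V + 1 / p - u' p / V'| ≤ κ ∧
          ∀ t ∈ Icc 1 L, p ∣ n0 + t → ‖w ((n0 + t) / p) - c p * ee (u' p * t / V')‖ ≤ κ)
    (F : Fin k → ℤ → ℂ) (hF : ∀ j m, ‖F j m‖ ≤ 1) :
    ∃ Bs : Finset ℕ, Bs ⊆ Icc i0 J ∧ ∑ i ∈ Bs, 1 / (i : ℝ) ≤ 2 * C0 ∧ ∀ i ∈ Icc i0 J, i ∉ Bs →
      ∑ p ∈ QD i (i + 1), Real.log p *
        ‖blk w (fun t => ∏ j, F j (a j * t + b j * p + a j * n0)) p L n0‖ ≤ (2 * ε1 + 51 * κ) * L := by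
  classical
  set F' : Fin k → ℤ → ℂ := fun j m => F j (m + a j * n0) with hF'
  have hF'1 : ∀ j m, ‖F' j m‖ ≤ 1 := fun j m => hF j _
  obtain ⟨Bad, hB1, hB2, hB3⟩ := hdec L V hV (fun p hp hpJ => (hcop p hp hpJ).1) hKV F' hF'1
  obtain ⟨Bad', hB1', hB2', hB3'⟩ := hdec L V' hV' (fun p hp hpJ => (hcop p hp hpJ).2) hKV' F' hF'1
  refine ⟨Bad ∪ Bad', union_subset hB1 hB1', ?_, fun i hi hib => ?_⟩
  · have := un_le Bad Bad'
    linarith
  rw [mem_union] at hib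
  push Not at hib
  have hiJ : i ≤ J := (mem_Icc.1 hi).2
  have hVr : (0 : ℝ) < V := by exact_mod_cast hV
  have hVr' : (0 : ℝ) < V' := by exact_mod_cast hV'
  have hA := hB3 i hi hib.1 (wA i) (fun p t => ee (u p * t / V)) (wt_A i) (fun p n => (ee_norm _).le) (by
    intro p n
    have : (u p : ℝ) * ((n + V : ℕ) : ℝ) / V = (u p : ℝ) * n / V + (u p : ℝ) := by
      push_cast
      field_simp
    rw [this, ee_add_int])
  have hB := hB3' i hi hib.2 (fun p t => wB p (n0 + t)) (fun p t => ee (u' p * t / V')) (wt_shift (wt_B i) n0)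
    (fun p n => (ee_norm _).le) (by
    intro p n
    have : (u' p : ℝ) * ((n + V' : ℕ) : ℝ) / V' = (u' p : ℝ) * n / V' + (u' p : ℝ) := by
      push_cast
      field_simp
    rw [this, ee_add_int])
  have hiL : 2 ^ i ≤ L := (Nat.pow_le_pow_right (by norm_num) (by omega)).trans hL
  have hkey : ∀ p ∈ QD i (i + 1), Real.log p *
      ‖blk w (fun t => ∏ j, F j (a j * t + b j * p + a j * n0)) p L n0‖ ≤
      Real.log p * ‖∑ t ∈ Icc 1 L, wB p (n0 + t) * (ee (u' p * t / V') * ∏ j, F' j (a j * t + b j * p))‖ +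
      Real.log p * ‖∑ t ∈ Icc 1 L, wA i p t * (ee (u p * t / V) * ∏ j, F' j (a j * t + b j * p))‖ +
      17 / 2 * κ * (Real.log p * ((L : ℝ) / p + 1)) := by
    intro p hp
    have hpp := QD_prime hp
    have hp12 : 2 ^ i < p ∧ p ≤ 2 ^ (i + 1) := by
      unfold QD at hp
      rw [mem_filter, mem_Ioc] at hp
      exact hp.1
    have hpJ : p ≤ 2 ^ (J + 1) := hp12.2.trans (Nat.pow_le_pow_right (by norm_num) (by omega))
    have hlog : 0 ≤ Real.log p := Real.log_nonneg (by exact_mod_cast hpp.one_lt.le)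
    obtain ⟨hc, h1, h2⟩ := hloc p hpp hpJ
    have hX : ∀ t : ℕ, ‖∏ j, F j (a j * t + b j * p + a j * n0)‖ ≤ 1 := fun t => prod_norm_le hF _
    have h3 := blk_bound w (fun t => ∏ j, F j (a j * t + b j * p + a j * n0)) hX i p L n0 hpp hp12.1.le V V'
      (u p) (u' p) (c p) hc κ hκ h1 h2
    have hLp : (0 : ℝ) ≤ (L : ℝ) / p := by positivity
    have hpi : 2 * Real.pi ≤ 15 / 2 := by
      have := Real.pi_lt_d2
      linarith
    have h4 : κ * ((L : ℝ) / p + 1) + (L : ℝ) / p * (2 * Real.pi * κ) ≤ 17 / 2 * κ * ((L : ℝ) / p + 1) := by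
      have h5 : (L : ℝ) / p * (2 * Real.pi * κ) ≤ (L : ℝ) / p * (15 / 2 * κ) :=
        mul_le_mul_of_nonneg_left (mul_le_mul_of_nonneg_right hpi hκ) hLp
      nlinarith
    calc _ ≤ Real.log p * (‖∑ t ∈ Icc 1 L, wB p (n0 + t) * (ee (u' p * t / V') * ∏ j, F' j (a j * t + b j * p))‖ +
      ‖∑ t ∈ Icc 1 L, wA i p t * (ee (u p * t / V) * ∏ j, F' j (a j * t + b j * p))‖ +
      17 / 2 * κ * ((L : ℝ) / p + 1)) := by
          apply mul_le_mul_of_nonneg_left _ hlog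
          linarith
      _ = _ := by ring
  refine (sum_le_sum hkey).trans ?_
  rw [sum_add_distrib, sum_add_distrib, ← mul_sum]
  have h5 := mul_le_mul_of_nonneg_left (sum_log_blk i L hiL) (show 0 ≤ 17 / 2 * κ by positivity)
  linarith

/-- Decoupling for weights which are locally close to periodic phases. -/
theorem dec_loc (k : ℕ) (a : Fin k → ℕ) (b : Fin k → ℤ) (ha : ∀ j, 1 ≤ a j) (ε : ℝ) (hε : 0 < ε) :
    ∃ (C : ℝ) (i0 : ℕ), 0 < C ∧ 1 ≤ i0 ∧ ∀ w : ℕ → ℂ, (∀ m, ‖w m‖ ≤ 1) → Loc w → ∀ J : ℕ, ∃ y0 : ℕ,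
      ∀ y : ℕ, y0 ≤ y → ∀ F : Fin k → ℤ → ℂ, (∀ j m, ‖F j m‖ ≤ 1) → ∃ Bad : Finset ℕ, Bad ⊆ Icc i0 J ∧
        ∑ i ∈ Bad, 1 / (i : ℝ) ≤ C ∧ ∀ i ∈ Icc i0 J, i ∉ Bad →
        ∑ p ∈ QD i (i + 1), Real.log p *
          ‖∑ m ∈ Icc 1 (y / p), w m * ∏ j, F j ((p : ℤ) * (a j * m + b j))‖ ≤ ε * y := by
  classical
  set ε1 : ℝ := ε / 16 with hε1
  set κ : ℝ := ε / 1000 with hκd
  have hκ : 0 < κ := by positivity
  set ε2 : ℝ := ε / 64 with hε2
  have hε20 : 0 < ε2 := by positivity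
  obtain ⟨C0, i0, hC0, hi0, hdec⟩ := dec_mainV k a b ha ε1 (by positivity)
  refine ⟨2 * C0 / ε2, i0, by positivity, hi0, fun w hw hloc J => ?_⟩
  obtain ⟨K, hK, hdecJ⟩ := hdec J
  obtain ⟨L, hL, Y0, hY0⟩ := hloc J K κ ε2 hK hκ hε20
  have hL0 : 0 < L := lt_of_lt_of_le (by positivity) hL
  have hLr : (0 : ℝ) < L := by exact_mod_cast hL0
  refine ⟨(Y0 + 1) * L + ⌈16 * 6 * (L : ℝ) / ε⌉₊, fun y hy F hF => ?_⟩
  set Y := y / L with hYd
  have hYY0 : Y0 + 1 ≤ Y := by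
    rw [hYd, Nat.le_div_iff_mul_le hL0]
    omega
  have hYr : (0 : ℝ) < Y := by exact_mod_cast (by omega : 0 < Y)
  obtain ⟨G, hG1, hG2, hG3⟩ := hY0 Y (by omega)
  have hYL : Y * L ≤ y := Nat.div_mul_le_self y L
  have hYLr : (Y : ℝ) * L ≤ y := by exact_mod_cast hYL
  have hyL : y < Y * L + L := by
    have := Nat.lt_div_mul_add (a := y) hL0
    exact this
  have hyε : 96 * (L : ℝ) ≤ ε * y := by
    have h1 : 16 * 6 * (L : ℝ) / ε ≤ y := (Nat.le_ceil _).trans (by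
      exact_mod_cast (by omega : ⌈16 * 6 * (L : ℝ) / ε⌉₊ ≤ y))
    rw [div_le_iff₀ hε] at h1
    linarith
  -- the bad sets of the blocks
  have hch : ∀ s : ℕ, ∃ Bs : Finset ℕ, Bs ⊆ Icc i0 J ∧ ∑ i ∈ Bs, 1 / (i : ℝ) ≤ 2 * C0 ∧ (s ∈ G →
      ∀ i ∈ Icc i0 J, i ∉ Bs → ∑ p ∈ QD i (i + 1), Real.log p *
        ‖blk w (fun t => ∏ j, F j (a j * t + b j * p + a j * ((s * L : ℕ) : ℤ))) p L (s * L)‖ ≤
          (2 * ε1 + 51 * κ) * L) := by
    intro s
    by_cases hs : s ∈ G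
    · obtain ⟨V, V', u, u', c, hV, hV', hcop, hKV, hKV', hl⟩ := hG3 s hs
      obtain ⟨Bs, h1, h2, h3⟩ := blk_all k a b ε1 C0 i0 J K hdecJ κ hκ.le L hL w (s * L) V V' u u' c hV hV'
        hcop hKV hKV' hl F hF
      exact ⟨Bs, h1, h2, fun _ => h3⟩
    · exact ⟨∅, empty_subset _, by simp; positivity, fun h => absurd h hs⟩
  choose Bs hBs1 hBs2 hBs3 using hch
  set Bad := (Icc i0 J).filter (fun i => ε2 * Y < (((range Y).filter (fun s => i ∈ Bs s)).card : ℝ)) with hBad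
  refine ⟨Bad, filter_subset _ _, ?_, fun i hi hib => ?_⟩
  · -- few bad scales
    have h1 : ε2 * Y * ∑ i ∈ Bad, 1 / (i : ℝ) ≤ Y * (2 * C0) := by
      calc ε2 * Y * ∑ i ∈ Bad, 1 / (i : ℝ) = ∑ i ∈ Bad, (ε2 * Y) * (1 / (i : ℝ)) := by rw [mul_sum]
        _ ≤ ∑ i ∈ Bad, (((range Y).filter (fun s => i ∈ Bs s)).card : ℝ) * (1 / (i : ℝ)) := by
            apply sum_le_sum
            intro i hi
            rw [hBad, mem_filter] at hi
            exact mul_le_mul_of_nonneg_right hi.2.le (by positivity)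
        _ ≤ ∑ i ∈ Icc i0 J, (((range Y).filter (fun s => i ∈ Bs s)).card : ℝ) * (1 / (i : ℝ)) := by
            apply sum_le_sum_of_subset_of_nonneg (filter_subset _ _)
            intro i _ _
            positivity
        _ = ∑ i ∈ Icc i0 J, ∑ s ∈ range Y, if i ∈ Bs s then 1 / (i : ℝ) else 0 := by
            apply sum_congr rfl
            intro i _
            rw [← sum_filter, sum_const, nsmul_eq_mul]
        _ = ∑ s ∈ range Y, ∑ i ∈ Icc i0 J, if i ∈ Bs s then 1 / (i : ℝ) else 0 := sum_comm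
        _ ≤ ∑ s ∈ range Y, 2 * C0 := by
            apply sum_le_sum
            intro s _
            rw [← sum_filter, filter_mem_eq_inter]
            exact (mono_le inter_subset_right).trans (hBs2 s)
        _ = Y * (2 * C0) := by rw [sum_const, card_range, nsmul_eq_mul]
    have h2 : ε2 * ∑ i ∈ Bad, 1 / (i : ℝ) ≤ 2 * C0 := by
      by_contra hcon
      push Not at hcon
      have : Y * (2 * C0) < Y * (ε2 * ∑ i ∈ Bad, 1 / (i : ℝ)) := mul_lt_mul_of_pos_left hcon hYr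
      linarith
    rw [le_div_iff₀ hε20]
    linarith
  · have hiJ : i ≤ J := (mem_Icc.1 hi).2
    have hiL : 2 ^ i ≤ L := (Nat.pow_le_pow_right (by norm_num) (by omega)).trans hL
    have hcard : (((range Y).filter (fun s => i ∈ Bs s)).card : ℝ) ≤ ε2 * Y := by
      by_contra hcon
      push Not at hcon
      exact hib (by rw [hBad, mem_filter]; exact ⟨hi, hcon⟩)
    have hlogp : ∀ p ∈ QD i (i + 1), 0 ≤ Real.log p := fun p hp =>
      Real.log_nonneg (by exact_mod_cast (QD_prime hp).one_lt.le)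
    -- decomposition of the sum over the multiples of `p`
    have hsplit : ∀ p ∈ QD i (i + 1),
        ‖∑ m ∈ Icc 1 (y / p), w m * ∏ j, F j ((p : ℤ) * (a j * m + b j))‖ ≤
        ∑ s ∈ range Y, ‖blk w (fun t => ∏ j, F j (a j * t + b j * p + a j * ((s * L : ℕ) : ℤ))) p L (s * L)‖ +
          ((L : ℝ) / p + 1) := by
      intro p hp
      have hpp := QD_prime hp
      set ψ : ℕ → ℂ := fun n => if p ∣ n then w (n / p) * ∏ j, F j (a j * n + b j * p) else 0 with hψ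
      have e1 : ∑ m ∈ Icc 1 (y / p), w m * ∏ j, F j ((p : ℤ) * (a j * m + b j)) = ∑ n ∈ Icc 1 y, ψ n := by
        simp only [hψ]
        rw [← sum_filter]
        apply sum_nbij (fun m => p * m)
        · intro m hm
          rw [mem_Icc] at hm
          rw [mem_filter, mem_Icc]
          refine ⟨⟨?_, ?_⟩, dvd_mul_right _ _⟩
          · exact Nat.mul_pos hpp.pos hm.1
          · calc p * m ≤ p * (y / p) := Nat.mul_le_mul_left _ hm.2
              _ ≤ y := Nat.mul_div_le y p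
        · intro m _ m' _ h
          exact Nat.eq_of_mul_eq_mul_left hpp.pos h
        · intro n hn
          rw [mem_coe, mem_filter, mem_Icc] at hn
          obtain ⟨m, rfl⟩ := hn.2
          refine ⟨m, ?_, rfl⟩
          rw [mem_coe, mem_Icc]
          constructor
          · rcases Nat.eq_zero_or_pos m with h0 | h0
            · subst h0; omega
            · exact h0
          · rw [Nat.le_div_iff_mul_le hpp.pos, mul_comm]
            exact hn.1.2
        · intro m _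
          rw [Nat.mul_div_cancel_left m hpp.pos]
          congr 1
          apply prod_congr rfl
          intro j _
          congr 1
          push_cast
          ring
      have e2 : ∑ n ∈ Icc 1 y, ψ n = ∑ n ∈ Icc 1 (Y * L), ψ n + ∑ n ∈ Ioc (Y * L) y, ψ n := by
        have h1 : Icc 1 y = Icc 1 (Y * L) ∪ Ioc (Y * L) y := by
          ext n; simp only [mem_Icc, mem_union, mem_Ioc]; omega
        have h2 : Disjoint (Icc 1 (Y * L)) (Ioc (Y * L) y) := by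
          rw [disjoint_left]; intro n; simp only [mem_Icc, mem_Ioc]; omega
        rw [h1, sum_union h2]
      have hψ1 : ∀ n, ‖ψ n‖ ≤ if p ∣ n then (1 : ℝ) else 0 := by
        intro n
        simp only [hψ]
        split_ifs
        · exact term_le hF hw _ _
        · simp
      have e3 : ‖∑ n ∈ Ioc (Y * L) y, ψ n‖ ≤ (L : ℝ) / p + 1 := by
        have h1 : Ioc (Y * L) y ⊆ (Icc 1 L).map (addLeftEmbedding (Y * L)) := by
          rw [Finset.map_add_left_Icc]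
          intro n hn
          rw [mem_Ioc] at hn
          rw [mem_Icc]
          omega
        refine (norm_sum_le _ _).trans ?_
        refine (sum_le_sum fun n _ => hψ1 n).trans ?_
        refine (sum_le_sum_of_subset_of_nonneg h1 fun n _ _ => by split_ifs <;> norm_num).trans ?_
        rw [sum_map]
        refine le_trans (le_of_eq ?_) (card_blk p L (Y * L) hpp)
        rw [← sum_filter, sum_const, nsmul_eq_mul, mul_one]
        rfl
      have e4 : ‖∑ n ∈ Icc 1 (Y * L), ψ n‖ ≤ ∑ s ∈ range Y,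
          ‖blk w (fun t => ∏ j, F j (a j * t + b j * p + a j * ((s * L : ℕ) : ℤ))) p L (s * L)‖ := by
        rw [sum_blocks]
        refine (norm_sum_le _ _).trans (le_of_eq ?_)
        apply sum_congr rfl
        intro s _
        congr 1
        unfold blk
        rw [sum_filter]
        apply sum_congr rfl
        intro t _
        simp only [hψ]
        split_ifs
        · congr 1
          apply prod_congr rfl
          intro j _
          congr 1
          push_cast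
          ring
        · rfl
      rw [e1, e2]
      exact (norm_add_le _ _).trans (add_le_add e4 e3)
    have hblk6 : ∀ s : ℕ, ∑ p ∈ QD i (i + 1), Real.log p *
        ‖blk w (fun t => ∏ j, F j (a j * t + b j * p + a j * ((s * L : ℕ) : ℤ))) p L (s * L)‖ ≤ 6 * L := by
      intro s
      refine le_trans (sum_le_sum fun p hp => ?_) (sum_log_blk i L hiL)
      apply mul_le_mul_of_nonneg_left _ (hlogp p hp)
      exact blk_triv w _ hw (fun t => prod_norm_le hF _) p L (s * L) (QD_prime hp)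
    calc ∑ p ∈ QD i (i + 1), Real.log p *
          ‖∑ m ∈ Icc 1 (y / p), w m * ∏ j, F j ((p : ℤ) * (a j * m + b j))‖
        ≤ ∑ p ∈ QD i (i + 1), Real.log p * (∑ s ∈ range Y,
            ‖blk w (fun t => ∏ j, F j (a j * t + b j * p + a j * ((s * L : ℕ) : ℤ))) p L (s * L)‖ +
          ((L : ℝ) / p + 1)) := sum_le_sum fun p hp => mul_le_mul_of_nonneg_left (hsplit p hp) (hlogp p hp)
      _ = ∑ s ∈ range Y, ∑ p ∈ QD i (i + 1), Real.log p *
            ‖blk w (fun t => ∏ j, F j (a j * t + b j * p + a j * ((s * L : ℕ) : ℤ))) p L (s * L)‖ +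
          ∑ p ∈ QD i (i + 1), Real.log p * ((L : ℝ) / p + 1) := by
          rw [sum_comm, ← sum_add_distrib]
          apply sum_congr rfl
          intro p _
          rw [mul_add, mul_sum]
      _ ≤ ∑ s ∈ range Y, ((2 * ε1 + 51 * κ) * L + 6 * L * ((if i ∈ Bs s then 1 else 0) +
            (if s ∈ G then 0 else 1))) + 6 * L := by
          apply add_le_add _ (sum_log_blk i L hiL)
          apply sum_le_sum
          intro s _
          have hp0 : 0 ≤ (2 * ε1 + 51 * κ) * L := by positivity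
          by_cases hsG : s ∈ G
          · by_cases hsB : i ∈ Bs s
            · rw [if_pos hsB, if_pos hsG]
              have := hblk6 s
              linarith
            · rw [if_neg hsB, if_pos hsG]
              have := hBs3 s hsG i hi hsB
              linarith
          · rw [if_neg hsG]
            have h1 := hblk6 s
            have h2 : (0 : ℝ) ≤ if i ∈ Bs s then 1 else 0 := by split_ifs <;> norm_num
            nlinarith
      _ = Y * ((2 * ε1 + 51 * κ) * L) + 6 * L * ((((range Y).filter (fun s => i ∈ Bs s)).card : ℝ) +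
            (((range Y) \ G).card : ℝ)) + 6 * L := by
          rw [sum_add_distrib, sum_const, card_range, nsmul_eq_mul, ← mul_sum, sum_add_distrib]
          congr 3
          congr 1
          · rw [sum_boole]
          · have h1 : ∑ s ∈ range Y, (if s ∈ G then (0 : ℝ) else 1) =
                ∑ s ∈ range Y, (if s ∉ G then (1 : ℝ) else 0) := by
              apply sum_congr rfl
              intro s _
              split_ifs with h2 <;> simp_all
            rw [h1, sum_boole, sdiff_eq_filter]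
      _ ≤ Y * ((2 * ε1 + 51 * κ) * L) + 6 * L * (ε2 * Y + ε2 * Y) + 6 * L := by
          have h1 : 6 * (L : ℝ) * ((((range Y).filter (fun s => i ∈ Bs s)).card : ℝ) +
            (((range Y) \ G).card : ℝ)) ≤ 6 * L * (ε2 * Y + ε2 * Y) :=
            mul_le_mul_of_nonneg_left (add_le_add hcard hG2) (by positivity)
          linarith
      _ = (2 * ε1 + 51 * κ + 12 * ε2) * (Y * L) + 6 * L := by ring
      _ ≤ (2 * ε1 + 51 * κ + 12 * ε2) * y + 6 * L := by
          have := mul_le_mul_of_nonneg_left hYLr (show 0 ≤ 2 * ε1 + 51 * κ + 12 * ε2 by positivity)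
          linarith
      _ ≤ ε * y := by
          have h1 : 2 * ε1 + 51 * κ + 12 * ε2 ≤ ε / 2 := by
            rw [hε1, hκd, hε2]
            linarith
          have h2 := mul_le_mul_of_nonneg_right h1 (Nat.cast_nonneg (α := ℝ) y)
          linarith

/-- the bound at a good scale -/
lemma goodW {k : ℕ} (a : Fin k → ℕ) (b : Fin k → ℤ) {F G : Fin k → ℤ → ℂ} {g : ℕ → ℂ}
    (hF : ∀ j m, ‖F j m‖ ≤ 1) (hG : ∀ j m, ‖G j m‖ ≤ 1) (hg : ∀ p, ‖g p‖ ≤ 1) (hR : Rel F G g)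
    {w : ℕ → ℂ} (hw : ∀ m, ‖w m‖ ≤ 1)
    (ε' δ : ℝ) (hδ : 0 < δ) (i y : ℕ) (hia : ∀ j, a j ≤ 2 ^ i) (ha : ∀ j, 1 ≤ a j)
    (h1 : ∑ p ∈ QD i (i + 1), Real.log p *
          ‖∑ m ∈ Icc 1 (y / p), w m * ∏ j, F j ((p : ℤ) * (a j * m + b j))‖ ≤ ε' * y)
    (hW : δ / 4 * 2 ^ i ≤ WT δ g i) :
    ‖SP a b G w (y / 2 ^ i)‖ ≤
      4 / δ * (ε' * (y / 2 ^ i) + 6 * k * (y / 4 ^ i + 1)) + (δ * (y / 2 ^ i) + 1) := by
  have h2i : (0 : ℝ) < 2 ^ i := by positivity
  have hlog : ∀ p ∈ QD i (i + 1), 0 ≤ Real.log p := fun p hp =>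
    Real.log_nonneg (by exact_mod_cast (QD_prime hp).one_lt.le)
  set X := ‖SP a b G w (y / 2 ^ i)‖ with hX
  set E0 : ℝ := δ * (y / 2 ^ i) + 1 with hE0
  set A : ℕ → ℝ := fun p => ‖∑ m ∈ Icc 1 (y / p), w m * ∏ j, F j ((p : ℤ) * (a j * m + b j))‖ with hA
  have key : ∀ p ∈ PL δ i, (Real.log p * ‖g p‖) * (X - E0) ≤
      Real.log p * A p + Real.log p * (2 * (k * ((y : ℝ) / 4 ^ i + 1))) := by
    intro p hp
    obtain ⟨hp1, hp2, hpp, hpδ⟩ := PL_lt' hp
    have hp0' : (0 : ℝ) < p := by exact_mod_cast hpp.pos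
    have hp1' : (2 : ℝ) ^ i < p := by exact_mod_cast hp1
    have hpa : ∀ j, ¬ p ∣ a j := by
      intro j hdv
      have h3 := Nat.le_of_dvd (ha j) hdv
      have h4 := hia j
      omega
    have hlp : 0 ≤ Real.log p := hlog p (PL_mem hp)
    have k1 := rel_sumP a b hF hG hg hR hw p (y / p) hpp hpa
    have k3 : ((y / p : ℕ) : ℝ) / p ≤ (y : ℝ) / 4 ^ i := by
      have g1 : ((y / p : ℕ) : ℝ) ≤ y / p := Nat.cast_div_le
      calc ((y / p : ℕ) : ℝ) / p ≤ (y / p : ℝ) / p := div_le_div_of_nonneg_right g1 hp0'.le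
        _ = (y : ℝ) / (p * p) := by rw [div_div]
        _ ≤ (y : ℝ) / (2 ^ i * 2 ^ i) :=
            div_le_div_of_nonneg_left (Nat.cast_nonneg y) (by positivity)
              (mul_le_mul hp1'.le hp1'.le h2i.le hp0'.le)
        _ = _ := by
            congr 1
            rw [← mul_pow]
            norm_num
    have hpy : y / p ≤ y / 2 ^ i := Nat.div_le_div_left hp1.le (by positivity)
    have k4 := SP_slow a b hG hw (y / p) (y / 2 ^ i) hpy
    have k6 := div_slow hδ y i p hp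
    set U := SP a b G w (y / p) with hU
    set P := ∑ m ∈ Icc 1 (y / p), w m * ∏ j, F j ((p : ℤ) * (a j * m + b j)) with hP
    have f1 : X - E0 ≤ ‖U‖ := by
      have e2 : X ≤ ‖SP a b G w (y / 2 ^ i) - U‖ + ‖U‖ := by
        rw [hX]
        have := norm_add_le (SP a b G w (y / 2 ^ i) - U) U
        rwa [sub_add_cancel] at this
      rw [hE0]
      linarith
    have f2 : ‖g p‖ * ‖U‖ ≤ A p + 2 * (k * ((y : ℝ) / 4 ^ i + 1)) := by
      rw [← norm_mul]
      have t0 : g p * U = -(P - g p * U) + P := by ring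
      have t4 := norm_add_le (-(P - g p * U)) P
      rw [norm_neg] at t4
      have t6 : (k : ℝ) * (((y / p : ℕ) : ℝ) / p + 1) ≤ k * ((y : ℝ) / 4 ^ i + 1) :=
        mul_le_mul_of_nonneg_left (by linarith) (Nat.cast_nonneg k)
      rw [t0]
      linarith
    have f4 : ‖g p‖ * (X - E0) ≤ ‖g p‖ * ‖U‖ := mul_le_mul_of_nonneg_left f1 (norm_nonneg _)
    have f5 : ‖g p‖ * (X - E0) ≤ A p + 2 * (k * ((y : ℝ) / 4 ^ i + 1)) := by linarith
    have f6 := mul_le_mul_of_nonneg_left f5 hlp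
    calc (Real.log p * ‖g p‖) * (X - E0) = Real.log p * (‖g p‖ * (X - E0)) := by ring
      _ ≤ _ := f6
      _ = _ := by ring
  have hWX : WT δ g i * (X - E0) ≤ ε' * y + 3 * 2 ^ i * (2 * (k * ((y : ℝ) / 4 ^ i + 1))) := by
    unfold WT
    rw [sum_mul]
    refine (sum_le_sum key).trans ?_
    rw [sum_add_distrib, ← sum_mul]
    have m1 : ∑ p ∈ PL δ i, Real.log p * A p ≤ ε' * y :=
      (sum_le_sum_of_subset_of_nonneg (filter_subset _ _)
        (fun p hp _ => mul_nonneg (hlog p hp) (norm_nonneg _))).trans h1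
    have m4 : ∑ p ∈ PL δ i, Real.log p ≤ 3 * 2 ^ i :=
      (sum_le_sum_of_subset_of_nonneg (filter_subset _ _)
        (fun p hp _ => hlog p hp)).trans (theta_le i)
    have m5 : (∑ p ∈ PL δ i, Real.log p) * (2 * (k * ((y : ℝ) / 4 ^ i + 1))) ≤
        3 * 2 ^ i * (2 * (k * ((y : ℝ) / 4 ^ i + 1))) := mul_le_mul_of_nonneg_right m4 (by positivity)
    linarith
  by_cases hneg : X - E0 ≤ 0
  · have h5 : 0 ≤ ε' * y :=
      (sum_nonneg fun p hp => mul_nonneg (hlog p hp) (norm_nonneg _)).trans h1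
    have h7 : 0 ≤ ε' * (y / 2 ^ i) := by
      have : ε' * ((y : ℝ) / 2 ^ i) = (ε' * y) / 2 ^ i := by ring
      rw [this]
      positivity
    have h8 : 0 ≤ 4 / δ * (ε' * (y / 2 ^ i) + 6 * k * (y / 4 ^ i + 1)) := by positivity
    linarith
  · push Not at hneg
    have h5 : δ / 4 * 2 ^ i * (X - E0) ≤ WT δ g i * (X - E0) := mul_le_mul_of_nonneg_right hW hneg.le
    have h6 : δ / 4 * 2 ^ i * (X - E0) ≤
        ε' * y + 3 * 2 ^ i * (2 * (k * ((y : ℝ) / 4 ^ i + 1))) := h5.trans hWX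
    have h7 : X - E0 ≤ 4 / δ * (ε' * (y / 2 ^ i) + 6 * k * (y / 4 ^ i + 1)) := by
      have h8 : X - E0 ≤ (ε' * y + 3 * 2 ^ i * (2 * (k * ((y : ℝ) / 4 ^ i + 1)))) / (δ / 4 * 2 ^ i) := by
        rw [le_div_iff₀ (by positivity)]
        linarith
      refine h8.trans (le_of_eq ?_)
      field_simp
      ring
    linarith

/-- the engine for local weights -/
theorem engW (k : ℕ) (a : Fin k → ℕ) (b : Fin k → ℤ) (ha : ∀ j, 1 ≤ a j) (ε : ℝ) (hε : 0 < ε) :
    ∃ (C δ : ℝ), 0 < C ∧ 0 < δ ∧ δ ≤ 1 ∧ ∀ w : ℕ → ℂ, (∀ m, ‖w m‖ ≤ 1) → Loc w → ∀ J : ℕ, ∃ y0 : ℕ,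
      ∀ y : ℕ, y0 ≤ y → ∀ (F G : Fin k → ℤ → ℂ) (g : ℕ → ℂ), (∀ j m, ‖F j m‖ ≤ 1) → (∀ j m, ‖G j m‖ ≤ 1) →
        (∀ p, ‖g p‖ ≤ 1) → Rel F G g →
        ∑ i ∈ (Icc 1 J).filter (fun i => ε * ((y : ℝ) / 2 ^ i) <
            ‖SP a b G w (y / 2 ^ i)‖ ∧ δ / 4 * 2 ^ i ≤ WT δ g i), 1 / (i : ℝ) ≤ C := by
  classical
  set δ : ℝ := min (ε / 8) 1 with hδ
  have hδ0 : 0 < δ := by rw [hδ]; positivity
  have hδ1 : δ ≤ 1 := min_le_right _ _
  have hδε : δ ≤ ε / 8 := min_le_left _ _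
  set ε' : ℝ := ε * δ / 24 with hε'
  have hε'0 : 0 < ε' := by positivity
  obtain ⟨C0, i0, hC0, hi0, hdec⟩ := dec_loc k a b ha ε' hε'0
  obtain ⟨i3, hi3⟩ := pow_unbounded_of_one_lt (48 * k * 8 / (ε * δ) + 1) (one_lt_two (α := ℝ))
  set i1 := i0 + i3 + ∑ j, a j with hi1
  refine ⟨C0 + i1, δ, by positivity, hδ0, hδ1, fun w hw hloc J => ?_⟩
  obtain ⟨y1, hy1⟩ := hdec w hw hloc J
  refine ⟨y1 + ⌈2 ^ J * (8 * (48 * k / δ + 2)) / ε⌉₊, fun y hy F G g hF hG hg hR => ?_⟩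
  obtain ⟨Bad, hB1, hB2, hB3⟩ := hy1 y (by omega) F hF
  have hyK : 2 ^ J * (8 * (48 * k / δ + 2)) / ε ≤ y := (Nat.le_ceil _).trans (by
    exact_mod_cast (by omega : ⌈2 ^ J * (8 * (48 * k / δ + 2)) / ε⌉₊ ≤ y))
  have hgood : ∀ i ∈ Icc 1 J, i1 ≤ i → i ∉ Bad → δ / 4 * 2 ^ i ≤ WT δ g i →
      ‖SP a b G w (y / 2 ^ i)‖ ≤ ε * ((y : ℝ) / 2 ^ i) := by
    intro i hi hii hib hW
    rw [mem_Icc] at hi
    have hii0 : i ∈ Icc i0 J := by rw [mem_Icc]; omega
    have hlt : i < 2 ^ i := Nat.lt_two_pow_self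
    have hia : ∀ j, a j ≤ 2 ^ i := by
      intro j
      have := single_le_sum (f := a) (fun _ _ => Nat.zero_le _) (mem_univ j)
      omega
    have h3 := goodW a b hF hG hg hR hw ε' δ hδ0 i y hia ha (hB3 i hii0 hib) hW
    have h2i : (0 : ℝ) < 2 ^ i := by positivity
    have hyi : (0 : ℝ) ≤ (y : ℝ) / 2 ^ i := by positivity
    have hiJ : (2 : ℝ) ^ i ≤ 2 ^ J := pow_le_pow_right₀ one_le_two hi.2
    have h4i : (4 : ℝ) ^ i = 2 ^ i * 2 ^ i := by rw [← mul_pow]; norm_num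
    refine h3.trans ?_
    have g1 : 4 / δ * (ε' * (y / 2 ^ i) + 6 * k * (y / 4 ^ i + 1)) =
        ε / 6 * (y / 2 ^ i) + 24 * k / δ / 2 ^ i * (y / 2 ^ i) + 24 * k / δ := by
      rw [h4i, hε']
      field_simp
      ring
    have g2 : 24 * k / δ / 2 ^ i ≤ ε / 8 := by
      have g3 : (48 * k * 8 / (ε * δ) : ℝ) ≤ 2 ^ i := by
        have : (2 : ℝ) ^ i3 ≤ 2 ^ i := pow_le_pow_right₀ one_le_two (by omega)
        linarith
      rw [div_le_iff₀ (by positivity)] at g3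
      rw [div_div, div_le_iff₀ (by positivity)]
      have : (0 : ℝ) ≤ k := Nat.cast_nonneg _
      linarith
    have g4 : 24 * k / δ + 1 ≤ ε / 8 * (y / 2 ^ i) := by
      rw [div_le_iff₀ hε] at hyK
      rw [mul_div_assoc', le_div_iff₀ h2i]
      have g5 : 0 ≤ 8 * (48 * k / δ + 2) := by positivity
      have g6 : 2 ^ i * (8 * (48 * k / δ + 2)) ≤ 2 ^ J * (8 * (48 * k / δ + 2)) :=
        mul_le_mul_of_nonneg_right hiJ g5
      have g7 : 24 * (k : ℝ) / δ ≤ 48 * k / δ := by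
        apply div_le_div_of_nonneg_right _ hδ0.le
        have : (0 : ℝ) ≤ k := Nat.cast_nonneg _
        linarith
      nlinarith
    rw [g1]
    have g7 : 24 * k / δ / 2 ^ i * ((y : ℝ) / 2 ^ i) ≤ ε / 8 * (y / 2 ^ i) :=
      mul_le_mul_of_nonneg_right g2 hyi
    have g8 : δ * ((y : ℝ) / 2 ^ i) ≤ ε / 8 * (y / 2 ^ i) := mul_le_mul_of_nonneg_right hδε hyi
    have g9 : 0 ≤ ε * ((y : ℝ) / 2 ^ i) := by positivity
    linarith
  have hsub : (Icc 1 J).filter (fun i => ε * ((y : ℝ) / 2 ^ i) <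
      ‖SP a b G w (y / 2 ^ i)‖ ∧ δ / 4 * 2 ^ i ≤ WT δ g i) ⊆ Icc 1 i1 ∪ Bad := by
    intro i hi
    rw [mem_filter] at hi
    rw [mem_union]
    by_contra hcon
    push Not at hcon
    have h1 : i1 ≤ i := by
      by_contra h2
      apply hcon.1
      rw [mem_Icc]
      have := (mem_Icc.1 hi.1).1
      omega
    have := hgood i hi.1 h1 hcon.2 hi.2.2
    linarith [hi.2.1]
  have h5 := mono_le hsub
  have h6 := un_le (Icc 1 i1) Bad
  have h8 := Icc_le i1
  linarith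

/-- The theorem for weights which are locally close to periodic phases: the bound for the exceptional
scales depends neither on the weight nor on the functions. -/
theorem loc_few (k : ℕ) (hk : 0 < k) (a : Fin k → ℕ) (b : Fin k → ℤ) (ha : ∀ j, 1 ≤ a j) (ε : ℝ)
    (hε : 0 < ε) : ∃ C : ℝ, 0 ≤ C ∧ ∀ w : ℕ → ℂ, (∀ m, ‖w m‖ ≤ 1) → Loc w → ∀ J : ℕ, ∃ N₀ : ℕ, ∀ N : ℕ,
      N₀ ≤ N → ∀ f : Fin k → ℕ → ℂ, (∀ j, IsMult (f j)) →
        ∑ i ∈ bd (fun y => ‖SP a b (Pool.Agent.N781.E.toZ f) w y‖) ε J N, 1 / (i : ℝ) ≤ C := by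
  classical
  obtain ⟨C0, δ, hC0, hδ, hδ1, heng⟩ := engW k a b ha ε hε
  obtain ⟨C3, i3, hC3, hlight⟩ := lightK k hk a b ha δ hδ hδ1 ε hε
  refine ⟨C0 + i3 + C3, by positivity, fun w hw hloc J => ?_⟩
  obtain ⟨y0, hy0⟩ := heng w hw hloc J
  obtain ⟨y3, hy3⟩ := hlight J
  refine ⟨y0 + y3, fun N hN f hf => ?_⟩
  have hg : ∀ p, ‖∏ i, f i p‖ ≤ 1 := by
    intro p
    rw [norm_prod]
    exact prod_le_one (fun _ _ => norm_nonneg _) (fun j _ => (hf j).1 _)
  have hmain := hy0 N (by omega) (Pool.Agent.N781.E.toZ f) (Pool.Agent.N781.E.toZ f)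
    (fun p => ∏ i, f i p) (toZ_norm hf) (toZ_norm hf) hg (rel_toZ hf)
  -- absolute values
  set f' : Fin k → ℕ → ℂ := fun j n => ((‖f j n‖ : ℝ) : ℂ) with hf'
  have hnn' : ∀ j n, ‖f' j n‖ = ‖f j n‖ := by
    intro j n
    simp only [hf']
    rw [Complex.norm_real, norm_norm]
  have hMD : ∀ j, MD (f' j) := by
    intro j
    refine ⟨fun n => ?_, fun m n hmn => ?_⟩
    · rw [hnn']
      exact (hf j).1 n
    · simp only [hf']
      rw [(hf j).2 m n hmn, norm_mul]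
      push_cast
      rfl
  have hWT : ∀ i, WT δ (fun p => ∏ j, f' j p) i = WT δ (fun p => ∏ j, f j p) i := by
    intro i
    unfold WT
    apply sum_congr rfl
    intro p _
    rw [norm_prod, norm_prod]
    simp only [hnn']
  have habs : ∀ Y, ‖SP a b (Pool.Agent.N781.E.toZ f) w Y‖ ≤ ‖SS a b (Pool.Agent.N781.E.toZ f') Y‖ := by
    intro Y
    have h1 : SS a b (Pool.Agent.N781.E.toZ f') Y =
        ((∑ m ∈ Icc 1 Y, ∏ j, ‖Pool.Agent.N781.E.toZ f j (a j * m + b j)‖ : ℝ) : ℂ) := by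
      unfold SS Pool.Agent.N781.E.toZ
      push_cast
      rfl
    rw [h1, Complex.norm_real, Real.norm_eq_abs, abs_of_nonneg
      (sum_nonneg fun _ _ => prod_nonneg fun _ _ => norm_nonneg _)]
    unfold SP
    refine (norm_sum_le _ _).trans (sum_le_sum fun m _ => ?_)
    rw [norm_mul, norm_prod]
    calc _ ≤ 1 * ∏ j, ‖Pool.Agent.N781.E.toZ f j (a j * m + b j)‖ :=
          mul_le_mul_of_nonneg_right (hw m) (prod_nonneg fun _ _ => norm_nonneg _)
      _ = _ := one_mul _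
  by_contra hcon
  push Not at hcon
  set L := (Icc i3 J).filter (fun i => WT δ (fun p => ∏ j, f j p) i < δ / 4 * 2 ^ i) with hL
  have hsub : bd (fun y => ‖SP a b (Pool.Agent.N781.E.toZ f) w y‖) ε J N ⊆
      ((Icc 1 J).filter (fun i => ε * ((N : ℝ) / 2 ^ i) <
      ‖SP a b (Pool.Agent.N781.E.toZ f) w (N / 2 ^ i)‖ ∧
        δ / 4 * 2 ^ i ≤ WT δ (fun p => ∏ j, f j p) i)) ∪ (Icc 1 i3 ∪ L) := by
    intro i hi
    rw [bd_mem] at hi
    rw [mem_union, mem_union, mem_filter, mem_Icc, mem_Icc, hL, mem_filter, mem_Icc]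
    by_cases h1 : i ≤ i3
    · exact Or.inr (Or.inl ⟨hi.1.1, h1⟩)
    · by_cases h2 : δ / 4 * 2 ^ i ≤ WT δ (fun p => ∏ j, f j p) i
      · exact Or.inl ⟨hi.1, hi.2, h2⟩
      · exact Or.inr (Or.inr ⟨⟨by omega, hi.1.2⟩, not_le.1 h2⟩)
  have h5 := mono_le hsub
  have h6 := un_le ((Icc 1 J).filter (fun i => ε * ((N : ℝ) / 2 ^ i) <
      ‖SP a b (Pool.Agent.N781.E.toZ f) w (N / 2 ^ i)‖ ∧
        δ / 4 * 2 ^ i ≤ WT δ (fun p => ∏ j, f j p) i)) (Icc 1 i3 ∪ L)
  have h7 := un_le (Icc 1 i3) L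
  have h8 := Icc_le i3
  have h9 : C3 < ∑ i ∈ L, 1 / (i : ℝ) := by linarith
  have h10 := hy3 N (by omega) f' hMD (by simp only [hWT]; exact h9)
  have h11 : bd (fun y => ‖SP a b (Pool.Agent.N781.E.toZ f) w y‖) ε J N = ∅ := by
    rw [Finset.eq_empty_iff_forall_notMem]
    intro i hi
    rw [bd_mem] at hi
    have h12 := h10 i (by rw [mem_Icc]; exact hi.1)
    have h13 := habs (N / 2 ^ i)
    linarith [hi.2]
  rw [h11, sum_empty] at hcon
  have h13 : (0 : ℝ) ≤ i3 := Nat.cast_nonneg _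
  linarith

end Run7.h581
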