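import Mathlib
import Pool.Agent.Run7.h581.Loc2

/-!
Weights with a slowly varying local frequency.
-/

set_option autoImplicit false

namespace Run7.h581

open Finset Pool.Agent.TH575.CW Pool.Agent.N781.E

/-- `w` has the slowly varying local frequency `ϑ` -/
structure LF (w : ℕ → ℂ) (ϑ : ℕ → ℝ) : Prop where
  bd : ∀ m, ‖w m‖ ≤ 1
  st : ∀ ε : ℝ, 0 < ε → ∃ m1 : ℕ, ∀ m : ℕ, m1 ≤ m → ‖w (m + 1) - ee (ϑ m) * w m‖ ≤ ε
  sl : ∀ ε : ℝ, 0 < ε → ∃ m1 : ℕ, ∀ m : ℕ, m1 ≤ m → |ϑ (m + 1) - ϑ m| ≤ ε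

/-- the local frequencies can be approximated -/
def Freq (ϑ : ℕ → ℝ) : Prop :=
  ∀ (J : ℕ) (K κ ε : ℝ), 0 < K → 0 < κ → 0 < ε → ∃ L : ℕ, 2 ^ (J + 1) ≤ L ∧ ∃ Y0 : ℕ, ∀ Y : ℕ, Y0 ≤ Y →
    ∃ G : Finset ℕ, G ⊆ range Y ∧ ((range Y \ G).card : ℝ) ≤ ε * Y ∧ ∀ s ∈ G,
      ∃ (V V' : ℕ) (u u' : ℕ → ℤ), 0 < V ∧ 0 < V' ∧
        (∀ p : ℕ, p.Prime → p ≤ 2 ^ (J + 1) → ¬ p ∣ V ∧ ¬ p ∣ V') ∧ K * V ≤ L ∧ K * V' ≤ L ∧
        ∀ p : ℕ, p.Prime → p ≤ 2 ^ (J + 1) → L * |ϑ (s * L / p) / p - u p / V| ≤ κ ∧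
          L * |(ϑ (s * L / p) + 1) / p - u' p / V'| ≤ κ

lemma lf_local {w : ℕ → ℂ} {ϑ : ℕ → ℝ} (h : LF w ϑ) (L : ℕ) (η : ℝ) (hη : 0 < η) :
    ∃ m1 : ℕ, ∀ m0 : ℕ, m1 ≤ m0 → ∀ τ : ℕ, τ ≤ L → ‖w (m0 + τ) - w m0 * ee (ϑ m0 * τ)‖ ≤ η := by
  set δ : ℝ := η / ((L + 1) * (1 + 2 * Real.pi * (L + 1))) with hδ
  have hδ0 : 0 < δ := by positivity
  obtain ⟨m1, hm1⟩ := h.st δ hδ0
  obtain ⟨m2, hm2⟩ := h.sl δ hδ0
  refine ⟨m1 + m2, fun m0 hm0 => ?_⟩
  have hϑ : ∀ τ : ℕ, |ϑ (m0 + τ) - ϑ m0| ≤ τ * δ := by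
    intro τ
    induction τ with
    | zero => simp
    | succ τ ih =>
      have h1 := hm2 (m0 + τ) (by omega)
      have h2 : ϑ (m0 + (τ + 1)) - ϑ m0 = (ϑ (m0 + τ + 1) - ϑ (m0 + τ)) + (ϑ (m0 + τ) - ϑ m0) := by
        rw [← add_assoc]; ring
      rw [h2]
      refine (abs_add_le _ _).trans ?_
      push_cast
      linarith
  have key : ∀ τ : ℕ, τ ≤ L + 1 → ‖w (m0 + τ) - w m0 * ee (ϑ m0 * τ)‖ ≤
      τ * (δ * (1 + 2 * Real.pi * (L + 1))) := by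
    intro τ
    induction τ with
    | zero => intro _; simp [ee_zero]
    | succ τ ih =>
      intro hτ
      have h1 := ih (by omega)
      have h2 := hm1 (m0 + τ) (by omega)
      have h3 : ‖ee (ϑ (m0 + τ)) - ee (ϑ m0)‖ ≤ 2 * Real.pi * (L + 1) * δ := by
        refine (ee_sub_le _ _).trans ?_
        have h4 := hϑ τ
        have h5 : (τ : ℝ) * δ ≤ (L + 1) * δ := by
          apply mul_le_mul_of_nonneg_right _ hδ0.le
          exact_mod_cast (by omega : τ ≤ L + 1)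
        calc 2 * Real.pi * |ϑ (m0 + τ) - ϑ m0| ≤ 2 * Real.pi * ((L + 1) * δ) :=
              mul_le_mul_of_nonneg_left (h4.trans h5) (by positivity)
          _ = _ := by ring
      have e : w (m0 + (τ + 1)) - w m0 * ee (ϑ m0 * ((τ + 1 : ℕ) : ℝ)) =
          (w (m0 + τ + 1) - ee (ϑ (m0 + τ)) * w (m0 + τ)) +
          (ee (ϑ (m0 + τ)) - ee (ϑ m0)) * w (m0 + τ) +
          ee (ϑ m0) * (w (m0 + τ) - w m0 * ee (ϑ m0 * τ)) := by
        have : ϑ m0 * ((τ + 1 : ℕ) : ℝ) = ϑ m0 + ϑ m0 * τ := by push_cast; ring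
        rw [this, ee_add, ← add_assoc]
        ring
      rw [e]
      refine (norm_add_le _ _).trans ?_
      have t1 := norm_add_le (w (m0 + τ + 1) - ee (ϑ (m0 + τ)) * w (m0 + τ))
        ((ee (ϑ (m0 + τ)) - ee (ϑ m0)) * w (m0 + τ))
      have t2 : ‖(ee (ϑ (m0 + τ)) - ee (ϑ m0)) * w (m0 + τ)‖ ≤ 2 * Real.pi * (L + 1) * δ := by
        rw [norm_mul]
        calc _ ≤ (2 * Real.pi * (L + 1) * δ) * 1 := mul_le_mul h3 (h.bd _) (norm_nonneg _) (by positivity)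
          _ = _ := mul_one _
      have t3 : ‖ee (ϑ m0) * (w (m0 + τ) - w m0 * ee (ϑ m0 * τ))‖ = ‖w (m0 + τ) - w m0 * ee (ϑ m0 * τ)‖ := by
        rw [norm_mul, ee_norm, one_mul]
      rw [t3]
      push_cast
      nlinarith
  intro τ hτ
  refine (key τ (by omega)).trans ?_
  have h1 : (τ : ℝ) ≤ L + 1 := by exact_mod_cast (by omega : τ ≤ L + 1)
  calc (τ : ℝ) * (δ * (1 + 2 * Real.pi * (L + 1))) ≤ (L + 1) * (δ * (1 + 2 * Real.pi * (L + 1))) :=
        mul_le_mul_of_nonneg_right h1 (by positivity)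
    _ = η := by
        rw [hδ]
        field_simp

theorem freq_loc {w : ℕ → ℂ} {ϑ : ℕ → ℝ} (h : LF w ϑ) (hf : Freq ϑ) : Loc w := by
  intro J K κ ε hK hκ hε
  obtain ⟨L, hL, Y0, hY0⟩ := hf J K (κ / 8) (ε / 2) hK (by positivity) (by positivity)
  obtain ⟨m1, hm1⟩ := lf_local h L (κ / 8) (by positivity)
  have hL0 : 0 < L := lt_of_lt_of_le (by positivity) hL
  have hLr : (0 : ℝ) < L := by exact_mod_cast hL0
  set s1 : ℕ := (m1 + 1) * 2 ^ (J + 1) with hs1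
  refine ⟨L, hL, Y0 + ⌈2 * (s1 : ℝ) / ε⌉₊, fun Y hY => ?_⟩
  obtain ⟨G, hG1, hG2, hG3⟩ := hY0 Y (by omega)
  refine ⟨G.filter (fun s => s1 ≤ s), (filter_subset _ _).trans hG1, ?_, fun s hs => ?_⟩
  · have h1 : range Y \ G.filter (fun s => s1 ≤ s) ⊆ (range Y \ G) ∪ range s1 := by
      intro s hs
      rw [mem_sdiff, mem_filter] at hs
      rw [mem_union, mem_sdiff, mem_range (n := s1)]
      by_cases h2 : s ∈ G
      · right
        by_contra h3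
        exact hs.2 ⟨h2, by omega⟩
      · left
        exact ⟨hs.1, h2⟩
    have h2 : ((range Y \ G.filter (fun s => s1 ≤ s)).card : ℝ) ≤ ((range Y \ G).card : ℝ) + s1 := by
      have := (card_le_card h1).trans (card_union_le _ _)
      rw [card_range] at this
      exact_mod_cast this
    have h3 : 2 * (s1 : ℝ) / ε ≤ Y := (Nat.le_ceil _).trans (by
      exact_mod_cast (by omega : ⌈2 * (s1 : ℝ) / ε⌉₊ ≤ Y))
    rw [div_le_iff₀ hε] at h3
    linarith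
  rw [mem_filter] at hs
  obtain ⟨V, V', u, u', hV, hV', hcop, hKV, hKV', hp⟩ := hG3 s hs.1
  refine ⟨V, V', u, u', fun p => w (s * L / p) * ee (ϑ (s * L / p) * ((s * L : ℕ) - p * (s * L / p : ℕ) : ℝ) / p) *
    ee ((s * L : ℕ) / p), hV, hV', hcop, hKV, hKV', fun p hpp hpJ => ?_⟩
  obtain ⟨h1, h2⟩ := hp p hpp hpJ
  have hp0 : (0 : ℝ) < p := by exact_mod_cast hpp.pos
  set m0 := s * L / p with hm0
  have hVr : (0 : ℝ) < V := by exact_mod_cast hV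
  have hVr' : (0 : ℝ) < V' := by exact_mod_cast hV'
  refine ⟨?_, ?_, ?_⟩
  · rw [norm_mul, norm_mul, ee_norm, ee_norm, mul_one, mul_one]
    exact h.bd _
  · have e : (u p : ℝ) / V + 1 / p - u' p / V' = -(ϑ m0 / p - u p / V) + ((ϑ m0 + 1) / p - u' p / V') := by
      field_simp
      ring
    rw [e]
    have h3 := abs_add_le (-(ϑ m0 / p - u p / V)) ((ϑ m0 + 1) / p - u' p / V')
    rw [abs_neg] at h3
    have h4 := mul_le_mul_of_nonneg_left h3 hLr.le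
    rw [mul_add] at h4
    linarith
  · intro t ht hdv
    rw [mem_Icc] at ht
    obtain ⟨m, hm⟩ := hdv
    have hm' : (s * L + t) / p = m := by rw [hm, Nat.mul_div_cancel_left m hpp.pos]
    rw [hm']
    have hm0le : p * m0 ≤ s * L := Nat.mul_div_le _ _
    have hm0lt : s * L < p * m0 + p := by
      have := Nat.lt_mul_div_succ (s * L) hpp.pos
      rw [Nat.mul_add, mul_one] at this
      exact this
    have hmge : m0 ≤ m := by
      have h3 : p * m0 ≤ p * m := by omega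
      exact Nat.le_of_mul_le_mul_left h3 hpp.pos
    obtain ⟨τ, rfl⟩ := Nat.exists_eq_add_of_le hmge
    have hpτ : p * τ ≤ p * L := by
      have h3 : p * (m0 + τ) = p * m0 + p * τ := by ring
      have h4 : p + L ≤ p * L + 1 := by
        have h5 := hpp.two_le
        nlinarith
      have h5 : 2 ≤ p := hpp.two_le
      have h6 : 2 * L ≤ p * L := Nat.mul_le_mul_right _ h5
      rw [h3] at hm
      have h7 : p * τ < p + L := by omega
      omega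
    have hτL : τ ≤ L := Nat.le_of_mul_le_mul_left hpτ hpp.pos
    have hm0big : m1 ≤ m0 := by
      rw [hm0, Nat.le_div_iff_mul_le hpp.pos]
      have h3 : m1 * p ≤ (m1 + 1) * 2 ^ (J + 1) := Nat.mul_le_mul (by omega) hpJ
      have h4 : s ≤ s * L := Nat.le_mul_of_pos_right _ hL0
      omega
    have h3 := hm1 m0 hm0big τ hτL
    -- the phase
    have hτr : (τ : ℝ) = (t + ((s * L : ℕ) - p * (m0 : ℕ) : ℝ)) / p := by
      have h4 : ((s * L + t : ℕ) : ℝ) = ((p * (m0 + τ) : ℕ) : ℝ) := by rw [hm]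
      push_cast at h4
      rw [eq_div_iff hp0.ne']
      push_cast
      linarith
    have h4 : ee (ϑ m0 * τ) = ee (ϑ m0 * ((s * L : ℕ) - p * (m0 : ℕ) : ℝ) / p) * ee ((s * L : ℕ) / p) *
        ee ((ϑ m0 + 1) / p * t) := by
      have h5 : ϑ m0 * ((s * L : ℕ) - p * (m0 : ℕ) : ℝ) / p + (s * L : ℕ) / p + (ϑ m0 + 1) / p * t =
          ϑ m0 * τ + (((m0 + τ : ℕ) : ℤ) : ℝ) := by
        have h6 : ((s * L : ℕ) : ℝ) + t = p * ((m0 + τ : ℕ) : ℝ) := by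
          exact_mod_cast hm
        rw [hτr]
        push_cast at h6 ⊢
        field_simp
        linear_combination h6
      rw [← ee_add, ← ee_add, h5, ee_add_int]
    have h5 : ‖ee ((ϑ m0 + 1) / p * t) - ee (u' p * t / V')‖ ≤ 2 * Real.pi * (κ / 8) := by
      refine (ee_sub_le _ _).trans ?_
      apply mul_le_mul_of_nonneg_left _ (by positivity)
      have h6 : (ϑ m0 + 1) / p * t - u' p * t / V' = t * ((ϑ m0 + 1) / p - u' p / V') := by ring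
      rw [h6, abs_mul, abs_of_nonneg (Nat.cast_nonneg t)]
      have htL : (t : ℝ) ≤ L := by exact_mod_cast ht.2
      exact (mul_le_mul_of_nonneg_right htL (abs_nonneg _)).trans h2
    set c1 : ℂ := w m0 * ee (ϑ m0 * ((s * L : ℕ) - p * (m0 : ℕ) : ℝ) / p) * ee ((s * L : ℕ) / p) with hc1
    have hc1n : ‖c1‖ ≤ 1 := by
      rw [hc1, norm_mul, norm_mul, ee_norm, ee_norm, mul_one, mul_one]
      exact h.bd _
    have e : w (m0 + τ) - c1 * ee (u' p * t / V') =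
        (w (m0 + τ) - w m0 * ee (ϑ m0 * τ)) + c1 * (ee ((ϑ m0 + 1) / p * t) - ee (u' p * t / V')) := by
      rw [h4, hc1]
      ring
    rw [e]
    refine (norm_add_le _ _).trans ?_
    rw [norm_mul]
    have h6 : ‖c1‖ * ‖ee ((ϑ m0 + 1) / p * t) - ee (u' p * t / V')‖ ≤ 1 * (2 * Real.pi * (κ / 8)) :=
      mul_le_mul hc1n h5 (norm_nonneg _) zero_le_one
    have h7 : 2 * Real.pi * (κ / 8) ≤ 6.3 * (κ / 8) := by
      apply mul_le_mul_of_nonneg_right _ (by positivity)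
      have := Real.pi_lt_d2
      linarith
    linarith

end Run7.h581
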