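import Mathlib
import Pool.Agent.Run7.h581.Phase

/-!
A quantitative form of Kronecker's theorem.
-/

set_option autoImplicit false

namespace Run7.h581

open Finset

/-- the Dirichlet kernel -/
noncomputable def DN (n : ℕ) (y : ℝ) : ℂ := ∑ j ∈ range n, ee (j * y)

lemma ee_nat_mul (j : ℕ) (y : ℝ) : ee (j * y) = ee y ^ j := by
  induction j with
  | zero => simp [ee_zero]
  | succ j ih =>
    rw [pow_succ, ← ih, ← ee_add]
    congr 1
    push_cast
    ring

lemma geom_le (n : ℕ) (y : ℝ) : ‖DN n y‖ * ‖ee y - 1‖ ≤ 2 := by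
  unfold DN
  rw [← norm_mul]
  have h1 : (∑ j ∈ range n, ee (j * y)) * (ee y - 1) = ee y ^ n - 1 := by
    rw [← geom_sum_mul]
    congr 1
    exact sum_congr rfl fun j _ => ee_nat_mul j y
  rw [h1, ← ee_nat_mul]
  refine (norm_sub_le _ _).trans ?_
  rw [ee_norm, norm_one]
  norm_num

/-- geometric sums over `[T, 2 T)` -/
lemma geom_Ico (T : ℕ) (y δ : ℝ) (hδ : 0 < δ) (h : δ ≤ ‖ee y - 1‖) :
    ‖∑ t ∈ Ico T (2 * T), ee (t * y)‖ ≤ 2 / δ := by
  have h1 : ∑ t ∈ Ico T (2 * T), ee (t * y) = ee (T * y) * DN T y := by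
    rw [Finset.sum_Ico_eq_sum_range]
    unfold DN
    rw [mul_sum, show 2 * T - T = T by omega]
    apply sum_congr rfl
    intro t _
    rw [← ee_add]
    congr 1
    push_cast
    ring
  rw [h1, norm_mul, ee_norm, one_mul, le_div_iff₀ hδ]
  exact (mul_le_mul_of_nonneg_left h (norm_nonneg _)).trans (geom_le T y)

lemma ee_sum {ι : Type} (s : Finset ι) (f : ι → ℝ) : ee (∑ i ∈ s, f i) = ∏ i ∈ s, ee (f i) := by
  classical
  induction s using Finset.induction_on with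
  | empty => simp [ee_zero]
  | insert i s hi ih => rw [sum_insert hi, prod_insert hi, ee_add, ih]

variable {ι : Type} [Fintype ι] [DecidableEq ι]

/-- the mean value of the product of the squared kernels -/
lemma fej (N : ℕ) (x z : ι → ℝ) (δ : ℝ) (hδ : 0 < δ)
    (hx : ∀ h : ι → ℤ, h ≠ 0 → (∀ i, |h i| < N) → δ ≤ ‖ee (∑ i, h i * x i) - 1‖)
    (n : ι → ℕ) (hn : ∀ i, n i ≤ N) (T : ℕ) :
    |∑ t ∈ Ico T (2 * T), ∏ i, ‖DN (n i) (t * x i - z i)‖ ^ 2 - T * ∏ i, (n i : ℝ)| ≤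
      (∏ i, (n i : ℝ)) ^ 2 * (2 / δ) := by
  set A : Finset (ι → ℕ) := Fintype.piFinset (fun i => range (n i)) with hA
  have hAcard : (A.card : ℝ) = ∏ i, (n i : ℝ) := by
    rw [hA, Fintype.card_piFinset]
    simp
  have hprod : ∀ y : ι → ℝ, ∏ i, DN (n i) (y i) = ∑ j ∈ A, ee (∑ i, (j i : ℝ) * y i) := by
    intro y
    unfold DN
    rw [Finset.prod_univ_sum]
    apply sum_congr rfl
    intro j _
    rw [ee_sum]
  have hsq : ∀ y : ι → ℝ, ((∏ i, ‖DN (n i) (y i)‖ ^ 2 : ℝ) : ℂ) =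
      ∑ j ∈ A, ∑ j' ∈ A, ee (∑ i, ((j i : ℤ) - (j' i : ℤ) : ℤ) * y i) := by
    intro y
    rw [prod_pow, ← norm_prod, ← Complex.normSq_eq_norm_sq, ← Complex.mul_conj, hprod, map_sum, sum_mul_sum]
    apply sum_congr rfl
    intro j _
    apply sum_congr rfl
    intro j' _
    rw [ee_conj, ← ee_add]
    congr 1
    rw [← sub_eq_add_neg, ← sum_sub_distrib]
    apply sum_congr rfl
    intro i _
    push_cast
    ring
  have hcx : ((∑ t ∈ Ico T (2 * T), ∏ i, ‖DN (n i) (t * x i - z i)‖ ^ 2 - T * ∏ i, (n i : ℝ) : ℝ) : ℂ) =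
      ∑ j ∈ A, ∑ j' ∈ A, if j = j' then 0 else
        ∑ t ∈ Ico T (2 * T), ee (∑ i, ((j i : ℤ) - (j' i : ℤ) : ℤ) * ((t : ℝ) * x i - z i)) := by
    have h1 : ((∑ t ∈ Ico T (2 * T), ∏ i, ‖DN (n i) (t * x i - z i)‖ ^ 2 : ℝ) : ℂ) =
        ∑ j ∈ A, ∑ j' ∈ A, ∑ t ∈ Ico T (2 * T), ee (∑ i, ((j i : ℤ) - (j' i : ℤ) : ℤ) * ((t : ℝ) * x i - z i)) := by
      rw [Complex.ofReal_sum]
      have h2 : ∀ t ∈ Ico T (2 * T), ((∏ i, ‖DN (n i) (t * x i - z i)‖ ^ 2 : ℝ) : ℂ) =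
          ∑ j ∈ A, ∑ j' ∈ A, ee (∑ i, ((j i : ℤ) - (j' i : ℤ) : ℤ) * ((t : ℝ) * x i - z i)) := by
        intro t _
        exact hsq (fun i => (t : ℝ) * x i - z i)
      rw [sum_congr rfl h2, sum_comm]
      apply sum_congr rfl
      intro j _
      rw [sum_comm]
    have h2 : ((T * ∏ i, (n i : ℝ) : ℝ) : ℂ) = ∑ j ∈ A, ∑ j' ∈ A, if j = j' then (T : ℂ) else 0 := by
      have h3 : ∀ j ∈ A, ∑ j' ∈ A, (if j = j' then (T : ℂ) else 0) = T := by
        intro j hj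
        rw [sum_ite_eq, if_pos hj]
      rw [sum_congr rfl h3, sum_const, nsmul_eq_mul, ← hAcard]
      push_cast
      ring
    rw [Complex.ofReal_sub, h1, h2, ← sum_sub_distrib]
    apply sum_congr rfl
    intro j _
    rw [← sum_sub_distrib]
    apply sum_congr rfl
    intro j' _
    split_ifs with h
    · subst h
      have h4 : ∀ t ∈ Ico T (2 * T), ee (∑ i, ((j i : ℤ) - (j i : ℤ) : ℤ) * ((t : ℝ) * x i - z i)) = 1 := by
        intro t _
        simp [ee_zero]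
      rw [sum_congr rfl h4, sum_const, Nat.card_Ico, nsmul_eq_mul, mul_one, show 2 * T - T = T by omega, sub_self]
    · rw [sub_zero]
  have hnorm : |∑ t ∈ Ico T (2 * T), ∏ i, ‖DN (n i) (t * x i - z i)‖ ^ 2 - T * ∏ i, (n i : ℝ)| =
      ‖∑ j ∈ A, ∑ j' ∈ A, if j = j' then 0 else
        ∑ t ∈ Ico T (2 * T), ee (∑ i, ((j i : ℤ) - (j' i : ℤ) : ℤ) * ((t : ℝ) * x i - z i))‖ := by
    rw [← hcx, Complex.norm_real, Real.norm_eq_abs]
  rw [hnorm]
  refine (norm_sum_le _ _).trans ?_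
  have h1 : ∀ j ∈ A, ‖∑ j' ∈ A, if j = j' then (0 : ℂ) else
        ∑ t ∈ Ico T (2 * T), ee (∑ i, ((j i : ℤ) - (j' i : ℤ) : ℤ) * ((t : ℝ) * x i - z i))‖ ≤ A.card * (2 / δ) := by
    intro j hj
    refine (norm_sum_le _ _).trans ?_
    have h2 : ∀ j' ∈ A, ‖if j = j' then (0 : ℂ) else
        ∑ t ∈ Ico T (2 * T), ee (∑ i, ((j i : ℤ) - (j' i : ℤ) : ℤ) * ((t : ℝ) * x i - z i))‖ ≤ 2 / δ := by
      intro j' hj'
      split_ifs with h
      · rw [norm_zero]; positivity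
      · set hh : ι → ℤ := fun i => (j i : ℤ) - (j' i : ℤ) with hhd
        have h3 : hh ≠ 0 := by
          intro h4
          apply h
          funext i
          have := congrFun h4 i
          simp only [hhd, Pi.zero_apply] at this
          omega
        have h4 : ∀ i, |hh i| < N := by
          intro i
          rw [hA, Fintype.mem_piFinset] at hj hj'
          have h5 := mem_range.1 (hj i)
          have h6 := mem_range.1 (hj' i)
          have h7 := hn i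
          simp only [hhd]
          rw [abs_lt]
          omega
        have h5 := hx hh h3 h4
        have h6 : ∑ t ∈ Ico T (2 * T), ee (∑ i, ((j i : ℤ) - (j' i : ℤ) : ℤ) * ((t : ℝ) * x i - z i)) =
            ee (-∑ i, hh i * z i) * ∑ t ∈ Ico T (2 * T), ee (t * ∑ i, hh i * x i) := by
          rw [mul_sum]
          apply sum_congr rfl
          intro t _
          rw [← ee_add]
          congr 1
          rw [mul_sum, ← sum_neg_distrib, ← sum_add_distrib]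
          apply sum_congr rfl
          intro i _
          simp only [hhd]
          ring
        rw [h6, norm_mul, ee_norm, one_mul]
        exact geom_Ico T _ δ hδ h5
    refine (sum_le_sum h2).trans (le_of_eq ?_)
    rw [sum_const, nsmul_eq_mul]
  refine (sum_le_sum h1).trans (le_of_eq ?_)
  rw [sum_const, nsmul_eq_mul, ← hAcard]
  ring

/-- quantitative Kronecker theorem -/
theorem kron (N : ℕ) (x z : ι → ℝ) (δ κ : ℝ) (hδ : 0 < δ) (hκ : 0 < κ)
    (hN : 16 * (Fintype.card ι : ℝ) / κ ^ 2 ≤ N) (hN1 : 1 ≤ N)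
    (hx : ∀ h : ι → ℤ, h ≠ 0 → (∀ i, |h i| < N) → δ ≤ ‖ee (∑ i, h i * x i) - 1‖)
    (T : ℕ) (hT : 4 * (N : ℝ) ^ (Fintype.card ι) / δ < T) :
    ∃ t ∈ Ico T (2 * T), ∀ i, ‖ee (t * x i - z i) - 1‖ ≤ κ := by
  by_contra hcon
  push Not at hcon
  have hNr : (1 : ℝ) ≤ N := by exact_mod_cast hN1
  have hN0 : (0 : ℝ) < N := by linarith
  have hT0 : (0 : ℝ) < T := lt_of_le_of_lt (by positivity) hT
  set r := Fintype.card ι with hr
  have hfull := fej N x z δ hδ hx (fun _ => N) (fun _ => le_rfl) T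
  rw [prod_const, card_univ, ← hr] at hfull
  have hlow := (abs_le.1 hfull).1
  -- every `t` is bad
  have hbad : ∀ t ∈ Ico T (2 * T), ∏ i, ‖DN N (t * x i - z i)‖ ^ 2 ≤
      ∑ i, 4 / κ ^ 2 * ∏ l, ‖DN (if l = i then 1 else N) (t * x l - z l)‖ ^ 2 := by
    intro t ht
    obtain ⟨i, hi⟩ := hcon t ht
    have h1 : ‖DN N (t * x i - z i)‖ ^ 2 ≤ 4 / κ ^ 2 := by
      have h2 := geom_le N (t * x i - z i)
      have h3 : ‖DN N (t * x i - z i)‖ * κ ≤ 2 :=
        (mul_le_mul_of_nonneg_left hi.le (norm_nonneg _)).trans h2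
      rw [le_div_iff₀ (by positivity), ← mul_pow]
      calc (‖DN N (t * x i - z i)‖ * κ) ^ 2 ≤ 2 ^ 2 := pow_le_pow_left₀ (by positivity) h3 2
        _ = 4 := by norm_num
    have h2 : ∏ l, ‖DN N (t * x l - z l)‖ ^ 2 ≤
        4 / κ ^ 2 * ∏ l, ‖DN (if l = i then 1 else N) (t * x l - z l)‖ ^ 2 := by
      rw [← mul_prod_erase univ (fun l => ‖DN N (t * x l - z l)‖ ^ 2) (mem_univ i),
        ← mul_prod_erase univ (fun l => ‖DN (if l = i then 1 else N) (t * x l - z l)‖ ^ 2) (mem_univ i)]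
      have h3 : ∏ l ∈ univ.erase i, ‖DN (if l = i then 1 else N) (t * x l - z l)‖ ^ 2 =
          ∏ l ∈ univ.erase i, ‖DN N (t * x l - z l)‖ ^ 2 := by
        apply prod_congr rfl
        intro l hl
        rw [if_neg (ne_of_mem_erase hl)]
      have h4 : ‖DN (if i = i then 1 else N) (t * x i - z i)‖ ^ 2 = 1 := by
        rw [if_pos rfl]
        unfold DN
        simp [ee_zero]
      rw [h3, h4, one_mul]
      exact mul_le_mul_of_nonneg_right h1 (prod_nonneg fun _ _ => by positivity)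
    refine h2.trans ?_
    exact single_le_sum (f := fun i => 4 / κ ^ 2 * ∏ l, ‖DN (if l = i then 1 else N) (t * x l - z l)‖ ^ 2)
      (fun i _ => mul_nonneg (by positivity) (prod_nonneg fun _ _ => by positivity)) (mem_univ i)
  have hup := sum_le_sum hbad
  rw [sum_comm] at hup
  have hup2 : ∀ i ∈ (univ : Finset ι), ∑ t ∈ Ico T (2 * T),
      4 / κ ^ 2 * ∏ l, ‖DN (if l = i then 1 else N) (t * x l - z l)‖ ^ 2 ≤
      4 / κ ^ 2 * (T * (N : ℝ) ^ r / N + ((N : ℝ) ^ r / N) ^ 2 * (2 / δ)) := by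
    intro i _
    rw [← mul_sum]
    apply mul_le_mul_of_nonneg_left _ (by positivity)
    have h1 := fej N x z δ hδ hx (fun l => if l = i then 1 else N) (fun l => by split_ifs <;> omega) T
    have h2 : ∏ l, ((if l = i then 1 else N : ℕ) : ℝ) = (N : ℝ) ^ r / N := by
      rw [← mul_prod_erase univ _ (mem_univ i), if_pos rfl, Nat.cast_one, one_mul]
      have h3 : ∏ l ∈ univ.erase i, ((if l = i then 1 else N : ℕ) : ℝ) = ∏ l ∈ univ.erase i, (N : ℝ) := by
        apply prod_congr rfl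
        intro l hl
        rw [if_neg (ne_of_mem_erase hl)]
      rw [h3, prod_const, card_erase_of_mem (mem_univ i), card_univ, ← hr, eq_div_iff hN0.ne', ← pow_succ]
      congr 1
      have : 0 < r := by
        rw [hr]
        exact Fintype.card_pos_iff.2 ⟨i⟩
      omega
    rw [h2] at h1
    have h3 := (abs_le.1 h1).2
    have h4 : (T : ℝ) * ((N : ℝ) ^ r / N) = T * (N : ℝ) ^ r / N := by ring
    linarith
  have hup3 := sum_le_sum hup2
  rw [sum_const, card_univ, ← hr, nsmul_eq_mul] at hup3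
  have htot := hup.trans hup3
  have hR0 : 0 < (N : ℝ) ^ r := by positivity
  have hrκ : (r : ℝ) * (4 / κ ^ 2) ≤ N / 4 := by
    rw [div_le_iff₀ (by positivity)] at hN
    rw [mul_div_assoc', div_le_iff₀ (by positivity)]
    linarith
  have hfin : (r : ℝ) * (4 / κ ^ 2 * (T * (N : ℝ) ^ r / N + ((N : ℝ) ^ r / N) ^ 2 * (2 / δ))) ≤
      T * (N : ℝ) ^ r / 4 + ((N : ℝ) ^ r) ^ 2 * (2 / δ) / 4 := by
    calc _ = (r : ℝ) * (4 / κ ^ 2) * (T * (N : ℝ) ^ r / N + ((N : ℝ) ^ r / N) ^ 2 * (2 / δ)) := by ring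
      _ ≤ N / 4 * (T * (N : ℝ) ^ r / N + ((N : ℝ) ^ r / N) ^ 2 * (2 / δ)) :=
          mul_le_mul_of_nonneg_right hrκ (by positivity)
      _ = T * (N : ℝ) ^ r / 4 + ((N : ℝ) ^ r) ^ 2 * (2 / δ) / (4 * N) := by
          field_simp
      _ ≤ _ := by
          have : ((N : ℝ) ^ r) ^ 2 * (2 / δ) / (4 * N) ≤ ((N : ℝ) ^ r) ^ 2 * (2 / δ) / 4 := by
            apply div_le_div_of_nonneg_left (by positivity) (by norm_num)
            linarith
          linarith
  have h1 : (3 / 4 : ℝ) * (T * (N : ℝ) ^ r) ≤ 5 / 4 * (((N : ℝ) ^ r) ^ 2 * (2 / δ)) := by linarith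
  have h2 : (T : ℝ) ≤ 4 * (N : ℝ) ^ r / δ := by
    rw [le_div_iff₀ hδ]
    have h3 : (3 / 4 : ℝ) * (T * δ) * (N : ℝ) ^ r ≤ (5 / 2 * (N : ℝ) ^ r) * (N : ℝ) ^ r := by
      have h4 := mul_le_mul_of_nonneg_right h1 hδ.le
      have h5 : 5 / 4 * (((N : ℝ) ^ r) ^ 2 * (2 / δ)) * δ = (5 / 2 * (N : ℝ) ^ r) * (N : ℝ) ^ r := by
        field_simp
        ring
      rw [h5] at h4
      linarith
    have h4 := le_of_mul_le_mul_right h3 hR0
    linarith
  linarith

end Run7.h581
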