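import Mathlib
import Pool.Agent.Run7.h581.Freq
import Pool.Agent.Run7.h581.Kron
import Pool.Agent.Run7.h581.Conc

/-!
Frequencies which are not concentrated near rational relations.
-/

set_option autoImplicit false

namespace Run7.h581

open Finset

/-- the small primes -/
def PS (J : ℕ) : Finset ℕ := (range (2 ^ (J + 1) + 1)).filter Nat.Prime

lemma mem_PS {J p : ℕ} : p ∈ PS J ↔ p.Prime ∧ p ≤ 2 ^ (J + 1) := by
  unfold PS
  rw [mem_filter, mem_range, Nat.lt_succ_iff]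
  exact and_comm

/-- no concentration near rational relations -/
def NonConc (ϑ : ℕ → ℝ) : Prop :=
  ∀ (J : ℕ) (h : {p // p ∈ PS J} → ℤ), h ≠ 0 → ∀ ε : ℝ, 0 < ε → ∃ δ : ℝ, 0 < δ ∧ ∀ L : ℕ, 1 ≤ L →
    ∃ Y0 : ℕ, ∀ Y : ℕ, Y0 ≤ Y →
      (((range Y).filter (fun s => ‖ee (∑ p, h p * (ϑ (s * L / p.1) / p.1)) - 1‖ < δ)).card : ℝ) ≤ ε * Y

lemma nonConc_finset {ϑ : ℕ → ℝ} (hϑ : NonConc ϑ) (J : ℕ) (H : Finset ({p // p ∈ PS J} → ℤ))
    (hH : ∀ h ∈ H, h ≠ 0) : ∀ ε : ℝ, 0 < ε → ∃ δ : ℝ, 0 < δ ∧ ∀ L : ℕ, 1 ≤ L →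
    ∃ Y0 : ℕ, ∀ Y : ℕ, Y0 ≤ Y →
      (((range Y).filter (fun s => ∃ h ∈ H, ‖ee (∑ p, h p * (ϑ (s * L / p.1) / p.1)) - 1‖ < δ)).card : ℝ) ≤
        ε * Y := by
  classical
  induction H using Finset.induction_on with
  | empty =>
    intro ε hε
    refine ⟨1, one_pos, fun L _ => ⟨0, fun Y _ => ?_⟩⟩
    simp
    positivity
  | insert h H hh ih =>
    intro ε hε
    obtain ⟨δ1, hδ1, h1⟩ := ih (fun g hg => hH g (mem_insert_of_mem hg)) (ε / 2) (by positivity)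
    obtain ⟨δ2, hδ2, h2⟩ := hϑ J h (hH h (mem_insert_self _ _)) (ε / 2) (by positivity)
    refine ⟨min δ1 δ2, lt_min hδ1 hδ2, fun L hL => ?_⟩
    obtain ⟨Y1, hY1⟩ := h1 L hL
    obtain ⟨Y2, hY2⟩ := h2 L hL
    refine ⟨Y1 + Y2, fun Y hY => ?_⟩
    have e1 := hY1 Y (by omega)
    have e2 := hY2 Y (by omega)
    have hsub : (range Y).filter (fun s => ∃ g ∈ insert h H,
        ‖ee (∑ p, g p * (ϑ (s * L / p.1) / p.1)) - 1‖ < min δ1 δ2) ⊆
        (range Y).filter (fun s => ∃ g ∈ H, ‖ee (∑ p, g p * (ϑ (s * L / p.1) / p.1)) - 1‖ < δ1) ∪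
        (range Y).filter (fun s => ‖ee (∑ p, h p * (ϑ (s * L / p.1) / p.1)) - 1‖ < δ2) := by
      intro s hs
      rw [mem_filter] at hs
      obtain ⟨hsY, g, hg, hgd⟩ := hs
      rw [mem_union, mem_filter, mem_filter]
      rcases mem_insert.1 hg with rfl | hg
      · right
        exact ⟨hsY, lt_of_lt_of_le hgd (min_le_right _ _)⟩
      · left
        exact ⟨hsY, g, hg, lt_of_lt_of_le hgd (min_le_left _ _)⟩
    have e3 := (card_le_card hsub).trans (card_union_le _ _)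
    have e4 := (Nat.cast_le (α := ℝ)).2 e3
    push_cast at e4
    linarith

theorem nonConc_freq {ϑ : ℕ → ℝ} (hϑ : NonConc ϑ) : Freq ϑ := by
  classical
  intro J K κ ε hK hκ hε
  set M : ℕ := ∏ p ∈ PS J, p with hM
  have hM0 : 0 < M := prod_pos fun p hp => (mem_PS.1 hp).1.pos
  have hM1 : (1 : ℝ) ≤ M := by exact_mod_cast hM0
  have hdvd : ∀ p ∈ PS J, p ∣ M := fun p hp => dvd_prod_of_mem _ hp
  set K2 : ℝ := 2 * K + 1 + 2 ^ (J + 1) with hK2
  have hK20 : 0 < K2 := by positivity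
  set κ' : ℝ := κ / K2 with hκ'
  have hκ'0 : 0 < κ' := by positivity
  set r := Fintype.card {p // p ∈ PS J} with hr
  set N : ℕ := ⌈16 * (r : ℝ) / κ' ^ 2⌉₊ + 1 with hN
  have hN1 : 1 ≤ N := by omega
  have hNr : 16 * (r : ℝ) / κ' ^ 2 ≤ N := (Nat.le_ceil _).trans (by rw [hN]; push_cast; linarith)
  set H : Finset ({p // p ∈ PS J} → ℤ) :=
    ((Fintype.piFinset (fun _ : {p // p ∈ PS J} => Icc (-(N : ℤ)) N)).filter (fun h => h ≠ 0)).image
      (fun h p => h p * (M : ℤ)) with hH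
  have hHne : ∀ h ∈ H, h ≠ 0 := by
    intro h hh
    rw [hH, mem_image] at hh
    obtain ⟨g, hg, rfl⟩ := hh
    rw [mem_filter] at hg
    intro h0
    apply hg.2
    funext p
    have := congrFun h0 p
    simp only [Pi.zero_apply, mul_eq_zero] at this
    rcases this with h1 | h1
    · exact h1
    · exfalso
      have : M = 0 := by exact_mod_cast h1
      omega
  obtain ⟨δ, hδ, hcon⟩ := nonConc_finset hϑ J H hHne ε hε
  set T : ℕ := ⌈4 * (N : ℝ) ^ r / δ⌉₊ + 1 with hT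
  have hTr : 4 * (N : ℝ) ^ r / δ < T := by
    refine lt_of_le_of_lt (Nat.le_ceil _) ?_
    rw [hT]
    push_cast
    linarith
  have hT1 : 1 ≤ T := by omega
  have hT1r : (1 : ℝ) ≤ T := by exact_mod_cast hT1
  set L : ℕ := ⌈2 * K * M * T⌉₊ + 2 ^ (J + 1) with hL
  have hL1 : 2 ^ (J + 1) ≤ L := by omega
  have hLge : 2 * K * M * T ≤ L := (Nat.le_ceil _).trans (by rw [hL]; push_cast; linarith [show (0 : ℝ) ≤ 2 ^ (J + 1) by positivity])
  have hLle : (L : ℝ) ≤ K2 * (M * T) := by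
    have h1 := Nat.ceil_lt_add_one (a := 2 * K * M * T) (by positivity)
    have h2 : (L : ℝ) = ⌈2 * K * M * T⌉₊ + 2 ^ (J + 1) := by rw [hL]; push_cast; ring
    have h3 : (1 : ℝ) ≤ M * T := by nlinarith
    have h4 : (0 : ℝ) < 2 ^ (J + 1) := by positivity
    have h5 : (1 : ℝ) + 2 ^ (J + 1) ≤ (1 + 2 ^ (J + 1)) * (M * T) := by
      have : 0 ≤ (1 + (2 : ℝ) ^ (J + 1)) * (M * T - 1) := mul_nonneg (by positivity) (by linarith)
      linarith
    rw [hK2, h2]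
    linarith
  refine ⟨L, hL1, ?_⟩
  obtain ⟨Y0, hY0⟩ := hcon L (le_trans (Nat.one_le_two_pow) hL1)
  refine ⟨Y0, fun Y hY => ?_⟩
  have hc := hY0 Y hY
  refine ⟨(range Y).filter (fun s => ¬ ∃ h ∈ H, ‖ee (∑ p, h p * (ϑ (s * L / p.1) / p.1)) - 1‖ < δ),
    filter_subset _ _, ?_, fun s hs => ?_⟩
  · refine le_trans (le_of_eq ?_) hc
    congr 2
    ext s
    simp only [mem_sdiff, mem_filter, mem_range]
    constructor
    · rintro ⟨h1, h2⟩
      exact ⟨h1, by_contra fun h3 => h2 ⟨h1, h3⟩⟩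
    · rintro ⟨h1, h2⟩
      exact ⟨h1, fun h3 => h3.2 h2⟩
  rw [mem_filter] at hs
  obtain ⟨-, hs⟩ := hs
  push Not at hs
  -- the Kronecker system
  set x : {p // p ∈ PS J} → ℝ := fun p => M * (ϑ (s * L / p.1) / p.1) with hx
  have hxh : ∀ h : {p // p ∈ PS J} → ℤ, h ≠ 0 → (∀ i, |h i| < N) → δ ≤ ‖ee (∑ i, h i * x i) - 1‖ := by
    intro h h0 hb
    have h1 : (fun p => h p * (M : ℤ)) ∈ H := by
      rw [hH, mem_image]
      refine ⟨h, ?_, rfl⟩
      rw [mem_filter, Fintype.mem_piFinset]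
      refine ⟨fun p => ?_, h0⟩
      rw [mem_Icc]
      have := abs_lt.1 (hb p)
      exact ⟨this.1.le, this.2.le⟩
    have h2 := hs _ h1
    refine h2.trans (le_of_eq ?_)
    congr 3
    apply sum_congr rfl
    intro p _
    simp only [hx]
    push_cast
    ring
  have hMT : (0 : ℝ) < M * T := by positivity
  -- a general consequence
  have hgen : ∀ z : {p // p ∈ PS J} → ℝ, ∀ β : ℕ → ℝ,
      (∀ (t : ℕ) (p : {p // p ∈ PS J}), ee (t * x p - z p) = ee ((1 + M * t : ℕ) * β p)) →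
      ∃ (V : ℕ) (u : ℕ → ℤ), 0 < V ∧ (∀ p : ℕ, p.Prime → p ≤ 2 ^ (J + 1) → ¬ p ∣ V) ∧ K * V ≤ L ∧
        ∀ p : ℕ, p.Prime → p ≤ 2 ^ (J + 1) → L * |β p - u p / V| ≤ κ := by
    intro z β hzβ
    obtain ⟨t, ht, hk⟩ := kron N x z δ κ' hδ hκ'0 hNr hN1 hxh T hTr
    rw [mem_Ico] at ht
    refine ⟨1 + M * t, fun p => round (((1 + M * t : ℕ) : ℝ) * β p), by omega, ?_, ?_, ?_⟩
    · intro p hp hpJ hdv
      have h1 : p ∣ M * t := (hdvd p (mem_PS.2 ⟨hp, hpJ⟩)).mul_right t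
      have h2 : p ∣ 1 := (Nat.dvd_add_left h1).1 hdv
      exact hp.one_lt.ne' (Nat.dvd_one.1 h2)
    · have h1 : 1 + M * t ≤ 2 * (M * T) := by
        have h3 : t + 1 ≤ 2 * T := ht.2
        have h4 : M * (t + 1) ≤ M * (2 * T) := Nat.mul_le_mul_left _ h3
        nlinarith
      have h2 : ((1 + M * t : ℕ) : ℝ) ≤ 2 * (M * T) := by exact_mod_cast h1
      calc K * ((1 + M * t : ℕ) : ℝ) ≤ K * (2 * (M * T)) := mul_le_mul_of_nonneg_left h2 hK.le
        _ = 2 * K * M * T := by ring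
        _ ≤ L := hLge
    · intro p hp hpJ
      have h1 := hk ⟨p, mem_PS.2 ⟨hp, hpJ⟩⟩
      rw [hzβ] at h1
      have h2 := near_int _ _ h1
      simp only [] at h2
      set V : ℝ := ((1 + M * t : ℕ) : ℝ) with hV
      have hVpos : 0 < V := by rw [hV]; positivity
      have hVge : (M * T : ℝ) ≤ V := by
        rw [hV]
        have : M * T ≤ 1 + M * t := by
          have := Nat.mul_le_mul_left M ht.1
          omega
        exact_mod_cast this
      have h3 : |β p - round (V * β p) / V| = |V * β p - round (V * β p)| / V := by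
        rw [← abs_of_pos hVpos, ← abs_div, abs_of_pos hVpos]
        congr 1
        field_simp
      rw [h3]
      have h4 : (L : ℝ) ≤ K2 * V := hLle.trans (mul_le_mul_of_nonneg_left hVge hK20.le)
      rw [mul_div_assoc', div_le_iff₀ hVpos]
      calc (L : ℝ) * |V * β p - round (V * β p)| ≤ (K2 * V) * (κ' / 4) :=
            mul_le_mul h4 h2 (abs_nonneg _) (by positivity)
        _ = κ * V / 4 := by
            rw [hκ']
            field_simp
        _ ≤ κ * V := by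
            have : 0 < κ * V := by positivity
            linarith
  have hp0 : ∀ p : {p // p ∈ PS J}, (p.1 : ℝ) ≠ 0 := fun p => by
    exact_mod_cast (mem_PS.1 p.2).1.ne_zero
  obtain ⟨V, u, hV, hVc, hVK, hVu⟩ := hgen (fun p => -(ϑ (s * L / p.1) / p.1))
    (fun p => ϑ (s * L / p) / p) (by
      intro t p
      congr 1
      simp only [hx]
      push_cast
      ring)
  obtain ⟨V', u', hV', hVc', hVK', hVu'⟩ := hgen (fun p => -((ϑ (s * L / p.1) + 1) / p.1))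
    (fun p => (ϑ (s * L / p) + 1) / p) (by
      intro t p
      obtain ⟨q, hq⟩ := hdvd p.1 p.2
      have h1 : ((1 + M * t : ℕ) : ℝ) * ((ϑ (s * L / p.1) + 1) / p.1) =
          t * x p - -((ϑ (s * L / p.1) + 1) / p.1) + ((t * q : ℤ) : ℝ) := by
        simp only [hx]
        have h2 : (M : ℝ) = p.1 * q := by rw [hq]; push_cast; ring
        have h3 := hp0 p
        push_cast
        rw [h2]
        field_simp
        ring
      rw [h1, ee_add_int])
  exact ⟨V, V', u, u', hV, hV', fun p hp hpJ => ⟨hVc p hp hpJ, hVc' p hp hpJ⟩, hVK, hVK',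
    fun p hp hpJ => ⟨hVu p hp hpJ, hVu' p hp hpJ⟩⟩

end Run7.h581
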