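import Mathlib
import Pool.Agent.Run7.h581.NonConc
import Pool.Agent.Run7.h581.Conc2

/-!
Frequencies `φ` with `φ'(x) ~ κ x ^ (γ - 1)`, `0 < γ < 1`.
-/

set_option autoImplicit false

namespace Run7.h581

open Finset Filter

/-- the values `p ^ {- (1 + γ)}` at the primes are linearly independent over the integers -/
def GenExp (γ : ℝ) : Prop :=
  ∀ (J : ℕ) (h : {p // p ∈ PS J} → ℤ), h ≠ 0 → ∑ p, h p * ((p.1 : ℕ) : ℝ) ^ (-(1 + γ)) ≠ 0

/-- slowly varying functions -/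
def SVr (ψ : ℝ → ℝ) : Prop :=
  ∀ (h ε : ℝ), 0 < ε → ∃ X : ℝ, 0 < X ∧ ∀ x : ℝ, X ≤ x → ∀ t : ℝ, 0 ≤ t → t ≤ h → |ψ (x + t) - ψ x| ≤ ε

lemma tendsto_nat_div (L p : ℕ) (hL : 1 ≤ L) (hp : 1 ≤ p) :
    Tendsto (fun s : ℕ => s * L / p) atTop atTop := by
  rw [tendsto_atTop_atTop]
  intro b
  refine ⟨b * p, fun a ha => ?_⟩
  rw [Nat.le_div_iff_mul_le hp]
  exact ha.trans (Nat.le_mul_of_pos_right _ hL)

/-- the mean value theorem -/
lemma mvt (φ φ' : ℝ → ℝ) (hφ : ∀ x : ℝ, 0 < x → HasDerivAt φ (φ' x) x) (x t : ℝ) (hx : 0 < x)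
    (ht : 0 ≤ t) : ∃ ξ : ℝ, x ≤ ξ ∧ ξ ≤ x + t ∧ φ (x + t) - φ x = φ' ξ * t := by
  rcases eq_or_lt_of_le ht with h | h
  · refine ⟨x, le_rfl, by linarith, ?_⟩
    rw [← h]
    simp
  · obtain ⟨c, hc, hc2⟩ := exists_hasDerivAt_eq_slope φ φ' (show x < x + t by linarith)
      (fun y hy => (hφ y (by linarith [hy.1])).continuousAt.continuousWithinAt)
      (fun y hy => hφ y (by linarith [hy.1]))
    refine ⟨c, hc.1.le, hc.2.le, ?_⟩
    rw [hc2, add_sub_cancel_left, div_mul_cancel₀ _ h.ne']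

lemma svr_of_deriv (φ φ' : ℝ → ℝ) (hφ : ∀ x : ℝ, 0 < x → HasDerivAt φ (φ' x) x)
    (h0 : Tendsto φ' atTop (nhds 0)) : SVr φ := by
  intro h ε hε
  obtain ⟨X, hX⟩ := eventually_atTop.1 ((Metric.tendsto_nhds.1 h0) (ε / (|h| + 1)) (by positivity))
  refine ⟨max X 1, by positivity, fun x hx t ht hth => ?_⟩
  obtain ⟨ξ, hξ1, hξ2, hξ3⟩ := mvt φ φ' hφ x t (lt_of_lt_of_le (by positivity) hx) ht
  rw [hξ3, abs_mul]
  have h1 := hX ξ ((le_max_left _ _).trans (hx.trans hξ1))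
  rw [Real.dist_eq, sub_zero] at h1
  have h2 : |t| ≤ |h| + 1 := by
    rw [abs_of_nonneg ht]
    linarith [le_abs_self h]
  calc |φ' ξ| * |t| ≤ ε / (|h| + 1) * (|h| + 1) := mul_le_mul h1.le h2 (abs_nonneg _) (by positivity)
    _ = ε := by field_simp

/-- the derivative tends to zero -/
lemma deriv_zero (γ κ0 : ℝ) (hγ1 : γ < 1) (φ' : ℝ → ℝ)
    (hlim : Tendsto (fun x : ℝ => φ' x * x ^ (1 - γ)) atTop (nhds κ0)) : Tendsto φ' atTop (nhds 0) := by
  have h1 := tendsto_rpow_neg_atTop (show 0 < 1 - γ by linarith)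
  have h2 := hlim.mul h1
  rw [mul_zero] at h2
  refine h2.congr' ?_
  filter_upwards [eventually_gt_atTop 0] with x hx
  rw [mul_assoc, ← Real.rpow_add hx, add_neg_cancel, Real.rpow_zero, mul_one]

/-- the increments along an arithmetic progression of reals -/
lemma incr (γ κ0 : ℝ) (φ φ' : ℝ → ℝ) (hφ : ∀ x : ℝ, 0 < x → HasDerivAt φ (φ' x) x)
    (hlim : Tendsto (fun x : ℝ => φ' x * x ^ (1 - γ)) atTop (nhds κ0)) (β : ℝ) (hβ : 0 < β) :
    Tendsto (fun s : ℕ => (φ (((s + 1 : ℕ) : ℝ) * β) - φ ((s : ℝ) * β)) * (s : ℝ) ^ (1 - γ)) atTop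
      (nhds (κ0 * β ^ γ)) := by
  have hch : ∀ s : ℕ, ∃ ξ : ℝ, (s : ℝ) * β ≤ ξ ∧ ξ ≤ (s : ℝ) * β + β ∧ (0 < s →
      φ (((s + 1 : ℕ) : ℝ) * β) - φ ((s : ℝ) * β) = φ' ξ * β) := by
    intro s
    by_cases hs : 0 < s
    · have hsp : (0 : ℝ) < s := by exact_mod_cast hs
      obtain ⟨ξ, h1, h2, h3⟩ := mvt φ φ' hφ (s * β) β (by positivity) hβ.le
      refine ⟨ξ, h1, h2, fun _ => ?_⟩
      rw [← h3]
      push_cast
      ring_nf
    · exact ⟨s * β, le_rfl, by linarith, fun h => absurd h hs⟩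
  choose ξ h1 h2 h3 using hch
  have hsinf : Tendsto (fun s : ℕ => (s : ℝ) * β) atTop atTop :=
    tendsto_natCast_atTop_atTop.atTop_mul_const hβ
  have hξ : Tendsto ξ atTop atTop := tendsto_atTop_mono h1 hsinf
  have hr : Tendsto (fun s : ℕ => ξ s / s) atTop (nhds β) := by
    have e1 : Tendsto (fun s : ℕ => β + β * (1 / (s : ℝ))) atTop (nhds β) := by
      have := (tendsto_one_div_atTop_nhds_zero_nat (𝕜 := ℝ)).const_mul β
      have := this.const_add β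
      simpa using this
    refine tendsto_of_tendsto_of_tendsto_of_le_of_le' tendsto_const_nhds e1 ?_ ?_
    · filter_upwards [eventually_gt_atTop 0] with s hs
      have hsp : (0 : ℝ) < s := by exact_mod_cast hs
      rw [le_div_iff₀ hsp]
      linarith [h1 s]
    · filter_upwards [eventually_gt_atTop 0] with s hs
      have hsp : (0 : ℝ) < s := by exact_mod_cast hs
      rw [div_le_iff₀ hsp]
      have : (β + β * (1 / (s : ℝ))) * s = s * β + β := by field_simp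
      linarith [h2 s]
  have hr2 : Tendsto (fun s : ℕ => (ξ s / s) ^ (-(1 - γ))) atTop (nhds (β ^ (-(1 - γ)))) :=
    hr.rpow_const (Or.inl hβ.ne')
  have h4 := ((hlim.comp hξ).mul hr2).mul_const β
  have h5 : κ0 * β ^ (-(1 - γ)) * β = κ0 * β ^ γ := by
    rw [mul_assoc, ← Real.rpow_add_one hβ.ne']
    congr 2
    ring
  rw [h5] at h4
  refine h4.congr' ?_
  filter_upwards [eventually_gt_atTop 0] with s hs
  have hsp : (0 : ℝ) < s := by exact_mod_cast hs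
  have hξp : 0 < ξ s := lt_of_lt_of_le (by positivity) (h1 s)
  simp only [Function.comp_apply]
  rw [h3 s hs, Real.div_rpow hξp.le hsp.le, Real.rpow_neg hξp.le, Real.rpow_neg hsp.le]
  have e1 : ξ s ^ (1 - γ) ≠ 0 := (Real.rpow_pos_of_pos hξp _).ne'
  have e2 : (s : ℝ) ^ (1 - γ) ≠ 0 := (Real.rpow_pos_of_pos hsp _).ne'
  field_simp

/-- rounding the argument -/
lemma floor_sv (φ : ℝ → ℝ) (hφ : SVr φ) (L p : ℕ) (hL : 1 ≤ L) (hp : 1 ≤ p) :
    Tendsto (fun s : ℕ => φ ((s * L / p : ℕ) : ℝ) - φ ((s : ℝ) * (L / p))) atTop (nhds 0) := by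
  rw [Metric.tendsto_nhds]
  intro ε hε
  obtain ⟨X, hX0, hX⟩ := hφ 1 (ε / 2) (by positivity)
  have hpr : (0 : ℝ) < p := by exact_mod_cast hp
  have h1 : Tendsto (fun s : ℕ => ((s * L / p : ℕ) : ℝ)) atTop atTop :=
    tendsto_natCast_atTop_atTop.comp (tendsto_nat_div L p hL hp)
  filter_upwards [h1.eventually_ge_atTop X] with s hs
  set x : ℝ := ((s * L / p : ℕ) : ℝ) with hx
  have hle : x ≤ (s : ℝ) * (L / p) := by
    rw [hx]
    have := Nat.cast_div_le (α := ℝ) (m := s * L) (n := p)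
    push_cast at this
    rw [mul_div_assoc'] 
    exact this
  have hlt : (s : ℝ) * (L / p) ≤ x + 1 := by
    rw [mul_div_assoc', div_le_iff₀ hpr]
    have := Nat.lt_mul_div_succ (s * L) (show 0 < p by omega)
    have h3 : ((s * L : ℕ) : ℝ) ≤ ((p * (s * L / p + 1) : ℕ) : ℝ) := by exact_mod_cast this.le
    push_cast at h3
    rw [hx]
    linarith
  have h4 := hX x hs ((s : ℝ) * (L / p) - x) (by linarith) (by linarith)
  rw [add_sub_cancel] at h4
  rw [Real.dist_eq, sub_zero, abs_sub_comm]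
  linarith

theorem gen_nonConc (γ κ0 : ℝ) (hγ0 : 0 < γ) (hγ1 : γ < 1) (hκ0 : κ0 ≠ 0) (hg : GenExp γ)
    (φ φ' : ℝ → ℝ) (hφ : ∀ x : ℝ, 0 < x → HasDerivAt φ (φ' x) x)
    (hlim : Tendsto (fun x : ℝ => φ' x * x ^ (1 - γ)) atTop (nhds κ0))
    (ϑ : ℕ → ℝ) (hϑ : Tendsto (fun n : ℕ => ϑ n - φ n) atTop (nhds 0)) :
    NonConc ϑ := by
  classical
  intro J h h0 ε hε
  set Λ : ℝ := ∑ p, h p * ((p.1 : ℕ) : ℝ) ^ (-(1 + γ)) with hΛ
  have hΛ0 : Λ ≠ 0 := hg J h h0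
  set δ : ℝ := min (1 / 2) (ε * γ / 64) with hδ
  have hδ0 : 0 < δ := lt_min (by norm_num) (by positivity)
  have hδ1 : 2 * δ ≤ 1 := by
    have := min_le_left (1 / 2) (ε * γ / 64)
    linarith
  have hδ2 : 8 * (2 * δ) / γ ≤ ε / 4 := by
    have := min_le_right (1 / 2) (ε * γ / 64)
    rw [div_le_iff₀ hγ0]
    linarith
  refine ⟨δ, hδ0, fun L hL => ?_⟩
  have hLr : (0 : ℝ) < L := by exact_mod_cast hL
  set lam : ℝ := κ0 * (L : ℝ) ^ γ * Λ with hlam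
  have hlam0 : lam ≠ 0 := mul_ne_zero (mul_ne_zero hκ0 (Real.rpow_pos_of_pos hLr _).ne') hΛ0
  have hp1 : ∀ p : {p // p ∈ PS J}, 1 ≤ p.1 := fun p => (mem_PS.1 p.2).1.one_le
  set F : ℕ → ℝ := fun s => ∑ p : {p // p ∈ PS J}, h p * (φ ((s : ℝ) * (L / p.1)) / p.1) with hF
  have hinc : Tendsto (fun s : ℕ => (F (s + 1) - F s) * (s : ℝ) ^ (1 - γ)) atTop (nhds lam) := by
    have e1 : ∀ p : {p // p ∈ PS J}, Tendsto (fun s : ℕ => h p * ((φ (((s + 1 : ℕ) : ℝ) * (L / p.1)) -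
        φ ((s : ℝ) * (L / p.1))) * (s : ℝ) ^ (1 - γ) / p.1)) atTop
        (nhds (h p * (κ0 * ((L : ℝ) / p.1) ^ γ / p.1))) := by
      intro p
      have hp0 : (0 : ℝ) < ((p.1 : ℕ) : ℝ) := by exact_mod_cast hp1 p
      exact ((incr γ κ0 φ φ' hφ hlim (L / p.1) (by positivity)).div_const _).const_mul _
    have e2 := tendsto_finsetSum (univ : Finset {p // p ∈ PS J}) (fun p _ => e1 p)
    have e3 : ∑ p : {p // p ∈ PS J}, (h p * (κ0 * ((L : ℝ) / p.1) ^ γ / p.1)) = lam := by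
      rw [hlam, hΛ, mul_sum]
      apply sum_congr rfl
      intro p _
      have hp0 : (0 : ℝ) < ((p.1 : ℕ) : ℝ) := by exact_mod_cast hp1 p
      rw [Real.div_rpow hLr.le hp0.le, neg_add, Real.rpow_add hp0, Real.rpow_neg hp0.le, Real.rpow_one,
        Real.rpow_neg hp0.le]
      have : ((p.1 : ℕ) : ℝ) ^ γ ≠ 0 := (Real.rpow_pos_of_pos hp0 _).ne'
      field_simp
    rw [e3] at e2
    refine e2.congr fun s => ?_
    simp only [hF]
    rw [← sum_sub_distrib, sum_mul]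
    apply sum_congr rfl
    intro p _
    ring
  obtain ⟨Y1, hY1⟩ := conc2 γ hγ0 hγ1 F lam hlam0 hinc (2 * δ) (by positivity) hδ1
  have hsv : SVr φ := svr_of_deriv φ φ' hφ (deriv_zero γ κ0 hγ1 φ' hlim)
  have hE : Tendsto (fun s : ℕ => ∑ p : {p // p ∈ PS J}, h p * (ϑ (s * L / p.1) / p.1) - F s) atTop
      (nhds 0) := by
    have h1 : ∀ p : {p // p ∈ PS J}, Tendsto (fun s : ℕ => h p * ((ϑ (s * L / p.1) -
        φ ((s * L / p.1 : ℕ) : ℝ)) / p.1) +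
        h p * ((φ ((s * L / p.1 : ℕ) : ℝ) - φ ((s : ℝ) * (L / p.1))) / p.1)) atTop (nhds 0) := by
      intro p
      have e1 := (((hϑ.comp (tendsto_nat_div L p.1 hL (hp1 p))).div_const (p.1 : ℝ)).const_mul (h p : ℝ))
      have e2 := (((floor_sv φ hsv L p.1 hL (hp1 p)).div_const (p.1 : ℝ)).const_mul (h p : ℝ))
      have e3 := e1.add e2
      simpa [Function.comp_def] using e3
    have h2 := tendsto_finsetSum (univ : Finset {p // p ∈ PS J}) (fun p _ => h1 p)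
    rw [sum_const_zero] at h2
    refine h2.congr fun s => ?_
    simp only [hF]
    rw [← sum_sub_distrib]
    apply sum_congr rfl
    intro p _
    ring
  obtain ⟨s1, hs1⟩ := eventually_atTop.1 ((Metric.tendsto_nhds.1 hE) (δ / 7) (by positivity))
  refine ⟨Y1 + ⌈2 * (s1 : ℝ) / ε⌉₊, fun Y hY => ?_⟩
  have hc := hY1 Y (by omega)
  have hsub : (range Y).filter (fun s => ‖ee (∑ p, h p * (ϑ (s * L / p.1) / p.1)) - 1‖ < δ) ⊆
      (range Y).filter (fun s : ℕ => ‖ee (F s) - 1‖ ≤ 2 * δ) ∪ range s1 := by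
    intro s hs
    rw [mem_filter] at hs
    rw [mem_union, mem_filter, mem_range (n := s1)]
    by_cases h1 : s < s1
    · exact Or.inr h1
    · left
      refine ⟨hs.1, ?_⟩
      have h2 := hs1 s (by omega)
      rw [Real.dist_eq, sub_zero] at h2
      have h3 := ee_sub_le (F s) (∑ p : {p // p ∈ PS J}, h p * (ϑ (s * L / p.1) / p.1))
      rw [abs_sub_comm] at h2
      have h4 : 2 * Real.pi * |F s - ∑ p : {p // p ∈ PS J}, h p * (ϑ (s * L / p.1) / p.1)| ≤ δ := by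
        have h5 := Real.pi_lt_d2
        have h6 : 2 * Real.pi * |F s - ∑ p : {p // p ∈ PS J}, h p * (ϑ (s * L / p.1) / p.1)| ≤
            (2 * 3.15) * (δ / 7) := mul_le_mul (by linarith) h2.le (abs_nonneg _) (by norm_num)
        linarith
      have h5 := norm_add_le (ee (F s) - ee (∑ p : {p // p ∈ PS J}, h p * (ϑ (s * L / p.1) / p.1)))
        (ee (∑ p : {p // p ∈ PS J}, h p * (ϑ (s * L / p.1) / p.1)) - 1)
      rw [sub_add_sub_cancel] at h5
      linarith [hs.2]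
  have h1 := (card_le_card hsub).trans (card_union_le _ _)
  rw [card_range] at h1
  have h2 := (Nat.cast_le (α := ℝ)).2 h1
  push_cast at h2
  have h3 : 2 * (s1 : ℝ) / ε ≤ Y := (Nat.le_ceil _).trans (by
    exact_mod_cast (by omega : ⌈2 * (s1 : ℝ) / ε⌉₊ ≤ Y))
  rw [div_le_iff₀ hε] at h3
  have h4 : 8 * (2 * δ) / γ * (Y : ℝ) ≤ ε / 4 * Y := mul_le_mul_of_nonneg_right hδ2 (Nat.cast_nonneg _)
  have h5 : (0 : ℝ) ≤ ε * Y := by positivity
  linarith

end Run7.h581
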