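import Mathlib
import Pool.Agent.Run7.h581.Gen

/-!
Linear independence of the radicals `p ^ (-c)`, `c` rational and not an integer.
-/

set_option autoImplicit false

namespace Run7.h581

open Finset Polynomial

/-- the minimal polynomial of a positive real radical -/
lemma minpoly_rad (x : ℝ) (hx : 0 < x) (v : ℕ) (hv : 0 < v) (r : ℚ) (hr : x ^ v = r) :
    ∃ s : ℚ, minpoly ℚ x = X ^ (minpoly ℚ x).natDegree - C s ∧ x ^ (minpoly ℚ x).natDegree = s := by
  have hint : IsIntegral ℚ x := by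
    refine ⟨X ^ v - C r, monic_X_pow_sub_C r hv.ne', ?_⟩
    simp [hr]
  set P := minpoly ℚ x with hP
  have hPm : P.Monic := minpoly.monic hint
  have hdvd : P ∣ X ^ v - C r := minpoly.dvd ℚ x (by simp [hr])
  set n := P.natDegree with hn
  set Pc := P.map (algebraMap ℚ ℂ) with hPc
  have hPcm : Pc.Monic := hPm.map _
  have hsplit : Pc.Splits := IsAlgClosed.splits Pc
  have hroots : ∀ z ∈ Pc.roots, ‖z‖ = x := by
    intro z hz
    have h1 : Pc.IsRoot z := (mem_roots hPcm.ne_zero).1 hz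
    obtain ⟨Q, hQ⟩ := hdvd
    have h2 : z ^ v = (r : ℂ) := by
      have h3 : ((X ^ v - C r : ℚ[X]).map (algebraMap ℚ ℂ)).eval z = 0 := by
        rw [hQ, Polynomial.map_mul, eval_mul]
        rw [IsRoot.def] at h1
        rw [← hPc, h1, zero_mul]
      simp at h3
      linear_combination h3
    have h3 : ‖z‖ ^ v = x ^ v := by
      rw [← norm_pow, h2, hr]
      have h4 : (0 : ℝ) ≤ r := by rw [← hr]; positivity
      rw [show ((r : ℚ) : ℂ) = (((r : ℚ) : ℝ) : ℂ) by push_cast; rfl, Complex.norm_real, Real.norm_eq_abs, abs_of_nonneg h4]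
    exact (pow_left_inj₀ (norm_nonneg _) hx.le hv.ne').1 h3
  have hcoeff : x ^ n = |((P.coeff 0 : ℚ) : ℝ)| := by
    have h1 := hsplit.coeff_zero_eq_prod_roots_of_monic hPcm
    have h2 : Pc.coeff 0 = ((P.coeff 0 : ℚ) : ℂ) := by rw [hPc, coeff_map]; simp
    have h3 : ‖Pc.coeff 0‖ = |((P.coeff 0 : ℚ) : ℝ)| := by
      rw [h2, show ((P.coeff 0 : ℚ) : ℂ) = (((P.coeff 0 : ℚ) : ℝ) : ℂ) by push_cast; rfl, Complex.norm_real, Real.norm_eq_abs]
    rw [← h3, h1, norm_mul, norm_pow, norm_neg, norm_one, one_pow, one_mul]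
    have h4 : ‖Pc.roots.prod‖ = (Pc.roots.map (fun z => ‖z‖)).prod := by
      rw [← coe_nnnorm]
      have := map_multiset_prod (nnnormHom : ℂ →*₀ NNReal) Pc.roots
      have h5 : ‖Pc.roots.prod‖₊ = (Pc.roots.map (fun z => ‖z‖₊)).prod := this
      rw [h5, NNReal.coe_multiset_prod, Multiset.map_map]
      rfl
    rw [h4]
    have h5 : Pc.roots.map (fun z => ‖z‖) = Multiset.replicate n x := by
      rw [Multiset.eq_replicate]
      constructor
      · rw [Multiset.card_map, ← hsplit.natDegree_eq_card_roots, hPc, natDegree_map]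
      · intro b hb
        rw [Multiset.mem_map] at hb
        obtain ⟨z, hz, rfl⟩ := hb
        exact hroots z hz
    rw [h5, Multiset.prod_replicate]
  have hn0 : 0 < n := minpoly.natDegree_pos hint
  refine ⟨|P.coeff 0|, ?_, by rw [hcoeff]; push_cast; rfl⟩
  have h1 : (X ^ n - C |P.coeff 0| : ℚ[X]) = minpoly ℚ x := by
    refine minpoly.unique ℚ x (monic_X_pow_sub_C _ hn0.ne') ?_ (fun q hq hq0 => ?_)
    · simp [hcoeff]
    · rw [degree_X_pow_sub_C hn0]
      have h2 := minpoly.min ℚ x hq hq0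
      rw [← hP, degree_eq_natDegree hPm.ne_zero] at h2
      exact h2
  rw [hP]
  exact h1.symm

lemma nextCoeff_rad (x : ℝ) (hx : 0 < x) (v : ℕ) (hv : 0 < v) (r : ℚ) (hr : x ^ v = r)
    (hirr : ∀ s : ℚ, x ≠ s) : (minpoly ℚ x).nextCoeff = 0 := by
  obtain ⟨s, h1, h2⟩ := minpoly_rad x hx v hv r hr
  have hint : IsIntegral ℚ x := by
    refine ⟨X ^ v - C r, monic_X_pow_sub_C r hv.ne', ?_⟩
    simp [hr]
  set n := (minpoly ℚ x).natDegree with hn
  have hn0 : 0 < n := minpoly.natDegree_pos hint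
  have hn1 : n ≠ 1 := by
    intro h
    rw [h, pow_one] at h2
    exact hirr s h2
  rw [nextCoeff_of_natDegree_pos (by omega), ← hn, h1]
  have h3 : n - 1 ≠ 0 := by omega
  rw [coeff_sub, coeff_X_pow, coeff_C, if_neg (by omega), if_neg h3, sub_zero]

/-- a linear relation between positive real radicals, all but one irrational -/
lemma rad_indep (S : Finset ℕ) (x : ℕ → ℝ) (q : ℕ) (hq : q ∈ S) (hxq : x q = 1)
    (hx : ∀ p ∈ S, 0 < x p) (v : ℕ) (hv : 0 < v) (r : ℕ → ℚ) (hr : ∀ p ∈ S, x p ^ v = r p)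
    (hirr : ∀ p ∈ S, p ≠ q → ∀ s : ℚ, x p ≠ s) (h : ℕ → ℚ) (hsum : ∑ p ∈ S, (h p : ℝ) * x p = 0) : h q = 0 := by
  classical
  have hint : ∀ p ∈ S, IsIntegral ℚ (x p) := by
    intro p hp
    refine ⟨X ^ v - C (r p), monic_X_pow_sub_C _ hv.ne', ?_⟩
    simp [hr p hp]
  set T : Set ℝ := ↑(S.image x) with hT
  have : FiniteDimensional ℚ (IntermediateField.adjoin ℚ T) := by
    refine IntermediateField.finiteDimensional_adjoin ?_
    intro y hy
    rw [hT, Finset.mem_coe, mem_image] at hy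
    obtain ⟨p, hp, rfl⟩ := hy
    exact hint p hp
  set K := IntermediateField.adjoin ℚ T with hK
  have hmem : ∀ p ∈ S, x p ∈ K := by
    intro p hp
    apply IntermediateField.subset_adjoin ℚ T
    rw [hT, Finset.mem_coe, mem_image]
    exact ⟨p, hp, rfl⟩
  set y : {p // p ∈ S} → K := fun p => ⟨x p.1, hmem p.1 p.2⟩ with hy
  have hsumK : ∑ p : {p // p ∈ S}, h p.1 • y p = 0 := by
    apply Subtype.ext
    have : ((∑ p : {p // p ∈ S}, h p.1 • y p : K) : ℝ) = ∑ p : {p // p ∈ S}, (h p.1 : ℝ) * x p.1 := by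
      rw [IntermediateField.coe_sum]
      apply sum_congr rfl
      intro p _
      simp only [hy]
      rw [IntermediateField.coe_smul, Rat.smul_def]
    rw [this]
    show _ = (0 : ℝ)
    rw [← hsum]
    exact sum_attach S (fun p => (h p : ℝ) * x p)
  have htr := congrArg (Algebra.trace ℚ K) hsumK
  rw [map_sum, map_zero] at htr
  have hone : ∀ p : {p // p ∈ S}, p ≠ ⟨q, hq⟩ → Algebra.trace ℚ K (h p.1 • y p) = 0 := by
    intro p hp
    rw [map_smul, trace_eq_finrank_mul_minpoly_nextCoeff]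
    have h1 : minpoly ℚ (y p) = minpoly ℚ (x p.1) := by
      rw [← minpoly.algebraMap_eq (B' := ℝ) (algebraMap K ℝ).injective (y p)]
      rfl
    have hpq : p.1 ≠ q := fun h2 => hp (Subtype.ext h2)
    rw [h1, nextCoeff_rad (x p.1) (hx p.1 p.2) v hv (r p.1) (hr p.1 p.2) (hirr p.1 p.2 hpq)]
    simp
  rw [Fintype.sum_eq_single ⟨q, hq⟩ hone] at htr
  have h1 : y ⟨q, hq⟩ = 1 := by
    apply Subtype.ext
    simp only [hy]
    rw [hxq]
    rfl
  rw [h1, map_smul] at htr
  have h2 : Algebra.trace ℚ K 1 = (Module.finrank ℚ K : ℚ) := by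
    have := Algebra.trace_algebraMap (R := ℚ) (S := K) (1 : ℚ)
    simpa using this
  rw [h2, smul_eq_mul, mul_eq_zero] at htr
  rcases htr with h3 | h3
  · exact h3
  · exfalso
    have : 0 < Module.finrank ℚ K := Module.finrank_pos
    have : Module.finrank ℚ K = 0 := by exact_mod_cast h3
    omega

/-- a ratio of distinct primes to a rational non-integral power is irrational -/
lemma ratio_irr (p q : ℕ) (hp : p.Prime) (hq : q.Prime) (hpq : p ≠ q) (c : ℚ) (hc : c.den ≠ 1) (s : ℚ) :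
    ((q : ℝ) / p) ^ (c : ℝ) ≠ s := by
  intro hs
  have hp0 : (0 : ℝ) < p := by exact_mod_cast hp.pos
  have hq0 : (0 : ℝ) < q := by exact_mod_cast hq.pos
  have hb : (0 : ℝ) < (q : ℝ) / p := by positivity
  have hs0 : s ≠ 0 := by
    rintro rfl
    have := Real.rpow_pos_of_pos hb (c : ℝ)
    rw [hs] at this
    simp at this
  have h1 : (s : ℝ) ^ c.den = ((q : ℝ) / p) ^ c.num := by
    rw [← hs, ← Real.rpow_natCast, ← Real.rpow_mul hb.le, ← Real.rpow_intCast]
    congr 1
    have : (c : ℝ) = c.num / c.den := Rat.cast_def c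
    have h0 : (c.den : ℝ) ≠ 0 := by exact_mod_cast c.den_ne_zero
    rw [this]
    field_simp
  have h2 : s ^ c.den = ((q : ℚ) / p) ^ c.num := by
    have : ((s ^ c.den : ℚ) : ℝ) = ((((q : ℚ) / p) ^ c.num : ℚ) : ℝ) := by
      push_cast
      exact h1
    exact_mod_cast this
  have := Fact.mk hp
  have h3 := congrArg (padicValRat p) h2
  have hqp : padicValRat p ((q : ℚ) / p) = -1 := by
    rw [padicValRat.div (by exact_mod_cast hq.ne_zero) (by exact_mod_cast hp.ne_zero), padicValRat.self hp.one_lt]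
    have : padicValRat p (q : ℚ) = 0 := by
      rw [padicValRat.of_nat]
      have : padicValNat p q = 0 := by
        apply padicValNat.eq_zero_of_not_dvd
        intro h
        exact hpq ((Nat.prime_dvd_prime_iff_eq hp hq).1 h)
      rw [this]
      rfl
    rw [this]
    norm_num
  rw [padicValRat.pow, padicValRat.zpow, hqp] at h3
  have h4 : (c.den : ℤ) ∣ c.num := ⟨-padicValRat p s, by linarith⟩
  have h5 : c.den ∣ c.num.natAbs := Int.natCast_dvd.1 h4
  have h6 := c.reduced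
  have h7 : c.den ∣ 1 := by
    rw [← h6]
    exact Nat.dvd_gcd h5 dvd_rfl
  exact hc (Nat.dvd_one.1 h7)

/-- the radicals `p ^ (-c)`, `c` rational and not an integer, are linearly independent -/
theorem rad_lin (c : ℚ) (hc : c.den ≠ 1) (S : Finset ℕ) (hS : ∀ p ∈ S, p.Prime) (h : ℕ → ℚ)
    (hsum : ∑ p ∈ S, (h p : ℝ) * (p : ℝ) ^ (-(c : ℝ)) = 0) : ∀ q ∈ S, h q = 0 := by
  intro q hq
  have hq0 : (0 : ℝ) < q := by exact_mod_cast (hS q hq).pos
  refine rad_indep S (fun p => ((q : ℝ) / p) ^ (c : ℝ)) q hq ?_ (fun p hp => ?_) c.den c.den_pos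
    (fun p => ((q : ℚ) / p) ^ c.num) (fun p hp => ?_) (fun p hp hpq s => ?_) h ?_
  · rw [div_self hq0.ne', Real.one_rpow]
  · have hp0 : (0 : ℝ) < p := by exact_mod_cast (hS p hp).pos
    exact Real.rpow_pos_of_pos (by positivity) _
  · have hp0 : (0 : ℝ) < p := by exact_mod_cast (hS p hp).pos
    have hb : (0 : ℝ) < (q : ℝ) / p := by positivity
    push_cast
    rw [← Real.rpow_natCast, ← Real.rpow_mul hb.le, ← Real.rpow_intCast]
    congr 1
    have : (c : ℝ) = c.num / c.den := Rat.cast_def c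
    have h0 : (c.den : ℝ) ≠ 0 := by exact_mod_cast c.den_ne_zero
    rw [this]
    field_simp
  · exact ratio_irr p q (hS p hp) (hS q hq) hpq c hc s
  · have h1 := congrArg (fun z => (q : ℝ) ^ (c : ℝ) * z) hsum
    simp only [mul_zero] at h1
    rw [← h1, mul_sum]
    apply sum_congr rfl
    intro p hp
    have hp0 : (0 : ℝ) < p := by exact_mod_cast (hS p hp).pos
    rw [Real.div_rpow hq0.le hp0.le, Real.rpow_neg hp0.le]
    ring

end Run7.h581
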