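import Mathlib
import Pool.Agent.Run7.h581.Rad

/-!
Linear independence of the numbers `p ^ (-c)`, `p` prime: rational `c`, all but countably many `c`.
-/

set_option autoImplicit false

namespace Run7.h581

open Finset

/-- The numbers `p ^ (-c)`, `p` prime, are linearly independent over the rationals. -/
def Indep (c : ℝ) : Prop := LinearIndependent ℚ (fun p : Nat.Primes => ((p : ℕ) : ℝ) ^ (-c))

theorem indep_rat (c : ℚ) (hc : c.den ≠ 1) : Indep (c : ℝ) := by
  classical
  unfold Indep
  rw [linearIndependent_iff']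
  intro s g hg i hi
  have h1 := rad_lin c hc (s.image (fun p : Nat.Primes => (p : ℕ))) (by
    intro p hp
    rw [mem_image] at hp
    obtain ⟨q, _, rfl⟩ := hp
    exact q.2) (fun n => if hn : n.Prime then g ⟨n, hn⟩ else 0) (by
    rw [sum_image (by
      intro a _ b _ hab
      exact Subtype.ext hab), ← hg]
    apply sum_congr rfl
    intro p _
    rw [dif_pos p.2, Rat.smul_def]
    rfl) (i : ℕ) (mem_image_of_mem _ hi)
  rw [dif_pos i.2] at h1
  exact h1

lemma rolle_finite (f f' : ℝ → ℝ) (hf : ∀ x, HasDerivAt f (f' x) x) (h : {x | f' x = 0}.Finite) :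
    {x | f x = 0}.Finite := by
  classical
  set Z := h.toFinset with hZ
  have hmem : ∀ x, x ∈ Z ↔ f' x = 0 := fun x => by rw [hZ, Set.Finite.mem_toFinset]; rfl
  have hstrict : ∀ x y : ℝ, f x = 0 → f y = 0 → x < y →
      (Z.filter (fun z => y < z)).card < (Z.filter (fun z => x < z)).card := by
    intro x y hx hy hxy
    obtain ⟨ξ, hξ, hξ2⟩ := exists_hasDerivAt_eq_zero hxy (fun z _ => (hf z).continuousAt.continuousWithinAt)
      (by rw [hx, hy]) (fun z _ => hf z)
    apply card_lt_card
    rw [Finset.ssubset_iff_of_subset]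
    · refine ⟨ξ, ?_, ?_⟩
      · rw [mem_filter, hmem]
        exact ⟨hξ2, hξ.1⟩
      · rw [mem_filter]
        intro h1
        linarith [hξ.2, h1.2]
    · intro z hz
      rw [mem_filter] at hz ⊢
      exact ⟨hz.1, by linarith [hz.2]⟩
  refine Set.Finite.of_finite_image (f := fun x => (Z.filter (fun z => x < z)).card) ?_ ?_
  · refine Set.Finite.subset (Set.finite_Iic Z.card) ?_
    rintro n ⟨x, _, rfl⟩
    exact card_filter_le _ _
  · intro x hx y hy hxy
    simp only [] at hxy
    rcases lt_trichotomy x y with h1 | h1 | h1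
    · have := hstrict x y hx hy h1
      omega
    · exact h1
    · have := hstrict y x hy hx h1
      omega

theorem expsum_zeros {ι : Type} [DecidableEq ι] (n : ℕ) : ∀ (S : Finset ι), S.card ≤ n → ∀ (lam a : ι → ℝ),
    Set.InjOn lam S → (∃ p ∈ S, a p ≠ 0) → {x : ℝ | ∑ p ∈ S, a p * Real.exp (lam p * x) = 0}.Finite := by
  induction n with
  | zero =>
    intro S hS lam a _ hne
    obtain ⟨p, hp, _⟩ := hne
    rw [card_eq_zero.1 (Nat.le_zero.1 hS)] at hp
    exact absurd hp (notMem_empty _)
  | succ n ih =>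
    intro S hS lam a hinj hne
    obtain ⟨q, hq, haq⟩ := hne
    by_cases hex : ∃ p ∈ S.erase q, a p ≠ 0
    · -- differentiate
      set f : ℝ → ℝ := fun x => ∑ p ∈ S, a p * Real.exp ((lam p - lam q) * x) with hf
      set f' : ℝ → ℝ := fun x => ∑ p ∈ S.erase q, (a p * (lam p - lam q)) * Real.exp ((lam p - lam q) * x) with hf'
      have hd : ∀ x, HasDerivAt f (f' x) x := by
        intro x
        have h1 : ∀ p ∈ S, HasDerivAt (fun x => a p * Real.exp ((lam p - lam q) * x))
            ((a p * (lam p - lam q)) * Real.exp ((lam p - lam q) * x)) x := by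
          intro p _
          have h2 : HasDerivAt (fun x : ℝ => (lam p - lam q) * x) (lam p - lam q) x := by
            simpa using (hasDerivAt_id x).const_mul (lam p - lam q)
          have h3 := (h2.exp).const_mul (a p)
          refine h3.congr_deriv ?_
          ring
        have h2 := HasDerivAt.fun_sum h1
        refine h2.congr_deriv ?_
        simp only [hf']
        rw [← add_sum_erase S _ hq]
        simp
      have h1 : {x | f' x = 0}.Finite := by
        refine ih (S.erase q) (by rw [card_erase_of_mem hq]; omega) (fun p => lam p - lam q)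
          (fun p => a p * (lam p - lam q)) ?_ ?_
        · intro p hp p' hp' h2
          simp only [sub_left_inj] at h2
          exact hinj (mem_of_mem_erase hp) (mem_of_mem_erase hp') h2
        · obtain ⟨p, hp, hap⟩ := hex
          refine ⟨p, hp, mul_ne_zero hap ?_⟩
          intro h2
          exact (ne_of_mem_erase hp) (hinj (mem_of_mem_erase hp) hq (sub_eq_zero.1 h2))
      have h2 := rolle_finite f f' hd h1
      refine h2.subset ?_
      intro x hx
      rw [Set.mem_ofPred_eq] at hx ⊢
      simp only [hf]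
      have h3 : ∑ p ∈ S, a p * Real.exp ((lam p - lam q) * x) =
          Real.exp (-(lam q * x)) * ∑ p ∈ S, a p * Real.exp (lam p * x) := by
        rw [mul_sum]
        apply sum_congr rfl
        intro p _
        rw [show (lam p - lam q) * x = -(lam q * x) + lam p * x by ring, Real.exp_add]
        ring
      rw [h3, hx, mul_zero]
    · push Not at hex
      have : {x : ℝ | ∑ p ∈ S, a p * Real.exp (lam p * x) = 0} = ∅ := by
        rw [Set.eq_empty_iff_forall_notMem]
        intro x hx
        rw [Set.mem_ofPred_eq, ← add_sum_erase S _ hq, sum_eq_zero, add_zero] at hx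
        · exact (mul_ne_zero haq (Real.exp_pos _).ne') hx
        · intro p hp
          rw [hex p hp, zero_mul]
      rw [this]
      exact Set.finite_empty

theorem indep_countable : {c : ℝ | ¬ Indep c}.Countable := by
  classical
  have hsub : {c : ℝ | ¬ Indep c} ⊆ ⋃ l : {l : Nat.Primes →₀ ℚ // l ≠ 0},
      {c : ℝ | ∑ p ∈ l.1.support, (l.1 p : ℝ) * Real.exp (-Real.log ((p : ℕ) : ℝ) * c) = 0} := by
    intro c hc
    rw [Set.mem_ofPred_eq] at hc
    unfold Indep at hc
    rw [linearIndependent_iff] at hc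
    push Not at hc
    obtain ⟨l, hl, hl0⟩ := hc
    rw [Set.mem_iUnion]
    refine ⟨⟨l, hl0⟩, ?_⟩
    rw [Set.mem_ofPred_eq, ← hl, Finsupp.linearCombination_apply, Finsupp.sum]
    apply sum_congr rfl
    intro p _
    have hp0 : (0 : ℝ) < ((p : ℕ) : ℝ) := by exact_mod_cast p.2.pos
    rw [Rat.smul_def, Real.rpow_def_of_pos hp0]
    congr 2
    ring
  refine Set.Countable.mono hsub (Set.countable_iUnion fun l => Set.Finite.countable ?_)
  refine expsum_zeros l.1.support.card l.1.support le_rfl (fun p => -Real.log ((p : ℕ) : ℝ))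
    (fun p => (l.1 p : ℝ)) ?_ ?_
  · intro p _ q _ hpq
    have hpq := neg_inj.1 hpq
    have hp0 : (0 : ℝ) < ((p : ℕ) : ℝ) := by exact_mod_cast p.2.pos
    have hq0 : (0 : ℝ) < ((q : ℕ) : ℝ) := by exact_mod_cast q.2.pos
    have := Real.log_injOn_pos hp0 hq0 hpq
    exact Subtype.ext (by exact_mod_cast this)
  · have h1 : l.1.support.Nonempty := Finsupp.support_nonempty_iff.2 l.2
    obtain ⟨p, hp⟩ := h1
    refine ⟨p, hp, ?_⟩
    have := Finsupp.mem_support_iff.1 hp
    exact_mod_cast this

/-- the fractional part -/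
theorem indep_genExp (c : ℝ) (m : ℕ) (hm : 1 ≤ m) (hc : Indep c) : GenExp (c - m) := by
  classical
  intro J h hh hsum
  apply hh
  unfold Indep at hc
  have hinj : Function.Injective (fun p : {p // p ∈ PS J} => (⟨p.1, (mem_PS.1 p.2).1⟩ : Nat.Primes)) := by
    intro p q hpq
    apply Subtype.ext
    exact congrArg (fun z : Nat.Primes => (z : ℕ)) hpq
  have h1 := hc.comp _ hinj
  rw [Fintype.linearIndependent_iff] at h1
  have h2 := h1 (fun p => (h p : ℚ) * ((p.1 : ℕ) : ℚ) ^ (m - 1)) (by
    rw [← hsum]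
    apply sum_congr rfl
    intro p _
    have hp0 : (0 : ℝ) < ((p.1 : ℕ) : ℝ) := by exact_mod_cast (mem_PS.1 p.2).1.pos
    rw [Rat.smul_def]
    show (((h p : ℚ) * ((p.1 : ℕ) : ℚ) ^ (m - 1) : ℚ) : ℝ) * ((p.1 : ℕ) : ℝ) ^ (-c) = _
    push_cast
    rw [mul_assoc, ← Real.rpow_natCast, ← Real.rpow_add hp0]
    congr 2
    rw [Nat.cast_sub hm]
    push_cast
    ring)
  funext p
  have h3 := h2 p
  rw [mul_eq_zero] at h3
  rcases h3 with h4 | h4
  · exact_mod_cast h4
  · exfalso
    have : ((p.1 : ℕ) : ℚ) ≠ 0 := by exact_mod_cast (mem_PS.1 p.2).1.ne_zero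
    exact (pow_ne_zero _ this) h4

end Run7.h581
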