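import Mathlib
import Pool.Agent.Run7.h581.Loc2

/-!
Weights which become locally close to periodic phases after taking differences.
-/

set_option autoImplicit false

namespace Run7.h581

open Finset Pool.Agent.TH575.CW Pool.Agent.N781.E

/-- few exceptional scales, uniformly over the multiplicative functions -/
def FewW {k : ℕ} (a : Fin k → ℕ) (b : Fin k → ℤ) (w : ℕ → ℂ) (ε C : ℝ) : Prop :=
  ∀ J : ℕ, ∃ N₀ : ℕ, ∀ N : ℕ, N₀ ≤ N → ∀ f : Fin k → ℕ → ℂ, (∀ j, IsMult (f j)) →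
    ∑ i ∈ bd (fun y => ‖SP a b (Pool.Agent.N781.E.toZ f) w y‖) ε J N, 1 / (i : ℝ) ≤ C

/-- weights which become locally close to periodic phases after taking `D` differences -/
def LocN : ℕ → (ℕ → ℂ) → Prop
  | 0, w => (∀ m, ‖w m‖ ≤ 1) ∧ Loc w
  | D + 1, w => (∀ m, ‖w m‖ ≤ 1) ∧ ∀ h : ℕ, 1 ≤ h → LocN D (fun n => w (n + h) * (starRingEnd ℂ) (w n))

lemma LocN_bd {D : ℕ} {w : ℕ → ℂ} (h : LocN D w) : ∀ m, ‖w m‖ ≤ 1 := by
  cases D with
  | zero => exact h.1
  | succ D => exact h.1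

lemma SP_diff {k : ℕ} (a : Fin k → ℕ) (b : Fin k → ℤ) (w : ℕ → ℂ) (f : Fin k → ℕ → ℂ) (y d : ℕ) :
    ∑ m ∈ Icc 1 y, (w (m + d) * ∏ j, Pool.Agent.N781.E.toZ f j (a j * ((m + d : ℕ) : ℤ) + b j)) *
      (starRingEnd ℂ) (w m * ∏ j, Pool.Agent.N781.E.toZ f j (a j * (m : ℤ) + b j)) =
    SP (Fin.append a a) (Fin.append (fun j => b j + a j * (d : ℤ)) b)
      (Pool.Agent.N781.E.toZ (Fin.append f (fun j n => (starRingEnd ℂ) (f j n))))
      (fun n => w (n + d) * (starRingEnd ℂ) (w n)) y := by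
  unfold SP
  apply sum_congr rfl
  intro m _
  simp only []
  rw [Fin.prod_univ_add, map_mul, map_prod]
  have h1 : ∀ j : Fin k, Pool.Agent.N781.E.toZ (Fin.append f (fun j n => (starRingEnd ℂ) (f j n)))
      (Fin.castAdd k j) ((Fin.append a a (Fin.castAdd k j) : ℕ) * (m : ℤ) +
        Fin.append (fun j => b j + a j * (d : ℤ)) b (Fin.castAdd k j)) =
      Pool.Agent.N781.E.toZ f j (a j * ((m + d : ℕ) : ℤ) + b j) := by
    intro j
    unfold Pool.Agent.N781.E.toZ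
    rw [Fin.append_left, Fin.append_left, Fin.append_left]
    congr 2
    push_cast
    ring
  have h2 : ∀ j : Fin k, Pool.Agent.N781.E.toZ (Fin.append f (fun j n => (starRingEnd ℂ) (f j n)))
      (Fin.natAdd k j) ((Fin.append a a (Fin.natAdd k j) : ℕ) * (m : ℤ) +
        Fin.append (fun j => b j + a j * (d : ℤ)) b (Fin.natAdd k j)) =
      (starRingEnd ℂ) (Pool.Agent.N781.E.toZ f j (a j * (m : ℤ) + b j)) := by
    intro j
    unfold Pool.Agent.N781.E.toZ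
    rw [Fin.append_right, Fin.append_right, Fin.append_right]
  rw [prod_congr rfl fun j _ => h1 j, prod_congr rfl fun j _ => h2 j]
  ring

/-- The theorem for weights which become locally close to periodic phases. -/
theorem locN_few (D : ℕ) : ∀ (k : ℕ), 0 < k → ∀ (a : Fin k → ℕ) (b : Fin k → ℤ), (∀ j, 1 ≤ a j) →
    ∀ ε : ℝ, 0 < ε → ∃ C : ℝ, 0 ≤ C ∧ ∀ w : ℕ → ℂ, LocN D w → FewW a b w ε C := by
  classical
  induction D with
  | zero =>
    intro k hk a b ha ε hε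
    obtain ⟨C, hC0, hC⟩ := loc_few k hk a b ha ε hε
    exact ⟨C, hC0, fun w hw => hC w hw.1 hw.2⟩
  | succ D ih =>
    intro k hk a b ha ε hε
    set H : ℕ := ⌈8 / ε ^ 2⌉₊ + 1 with hH
    have hH1 : 1 ≤ H := by omega
    have hHr : 8 / ε ^ 2 ≤ H := (Nat.le_ceil _).trans (by rw [hH]; push_cast; linarith)
    have hH0 : (0 : ℝ) < H := by exact_mod_cast hH1
    set η : ℝ := ε ^ 2 / 8 with hη
    have hη0 : 0 < η := by positivity
    have hch : ∀ d : ℕ, ∃ C : ℝ, 0 ≤ C ∧ ∀ w : ℕ → ℂ, LocN D w →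
        FewW (Fin.append a a) (Fin.append (fun j => b j + a j * (d : ℤ)) b) w η C := by
      intro d
      refine ih (k + k) (by omega) (Fin.append a a) _ ?_ η hη0
      intro j
      refine Fin.addCases (fun j => ?_) (fun j => ?_) j
      · rw [Fin.append_left]; exact ha j
      · rw [Fin.append_right]; exact ha j
    choose C hC0 hC using hch
    refine ⟨∑ d ∈ range H, C d, sum_nonneg fun d _ => hC0 d, fun w hw J => ?_⟩
    have hch2 : ∀ d : ℕ, ∃ N₀ : ℕ, ∀ N : ℕ, N₀ ≤ N → ∀ f : Fin (k + k) → ℕ → ℂ, (∀ j, IsMult (f j)) →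
        1 ≤ d → ∑ i ∈ bd (fun y => ‖SP (Fin.append a a) (Fin.append (fun j => b j + a j * (d : ℤ)) b)
          (Pool.Agent.N781.E.toZ f) (fun n => w (n + d) * (starRingEnd ℂ) (w n)) y‖) η J N,
            1 / (i : ℝ) ≤ C d := by
      intro d
      by_cases hd : 1 ≤ d
      · obtain ⟨N₀, hN₀⟩ := hC d _ (hw.2 d hd) J
        exact ⟨N₀, fun N hN f hf _ => hN₀ N hN f hf⟩
      · exact ⟨0, fun N _ f _ h => absurd h hd⟩
    choose N₁ hN₁ using hch2
    refine ⟨∑ d ∈ range H, N₁ d + ⌈2 ^ J * (16 * H / ε ^ 2 + 32 * H ^ 2 / ε ^ 2 + 1)⌉₊,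
      fun N hN f hf => ?_⟩
    set f2 : Fin (k + k) → ℕ → ℂ := Fin.append f (fun j n => (starRingEnd ℂ) (f j n)) with hf2
    have hf2m : ∀ j, IsMult (f2 j) := by
      intro j
      rw [hf2]
      refine Fin.addCases (fun j => ?_) (fun j => ?_) j
      · rw [Fin.append_left]; exact hf j
      · rw [Fin.append_right]; exact isMult_conj (hf j)
    have hsub : bd (fun y => ‖SP a b (Pool.Agent.N781.E.toZ f) w y‖) ε J N ⊆ (range H).biUnion (fun d =>
        (bd (fun y => ‖SP (Fin.append a a) (Fin.append (fun j => b j + a j * (d : ℤ)) b)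
          (Pool.Agent.N781.E.toZ f2) (fun n => w (n + d) * (starRingEnd ℂ) (w n)) y‖) η J N).filter
          (fun _ => 1 ≤ d)) := by
      intro i hi
      by_contra hcon
      rw [mem_biUnion] at hcon
      push Not at hcon
      rw [bd_mem] at hi
      obtain ⟨⟨hi1, hiJ⟩, hi3⟩ := hi
      set Y : ℝ := (N : ℝ) / 2 ^ i with hY
      have h2i : (0 : ℝ) < 2 ^ i := by positivity
      have hyY : ((N / 2 ^ i : ℕ) : ℝ) ≤ Y := by
        calc ((N / 2 ^ i : ℕ) : ℝ) ≤ (N : ℝ) / ((2 ^ i : ℕ) : ℝ) := Nat.cast_div_le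
          _ = _ := by push_cast; rfl
      have hY0 : 0 ≤ Y := by positivity
      set u : ℕ → ℂ := fun n => w n * ∏ j, Pool.Agent.N781.E.toZ f j (a j * (n : ℤ) + b j) with hu
      have hu1 : ∀ n, ‖u n‖ ≤ 1 := fun n => term_le (toZ_norm hf) hw.1 n _
      have hv := vdc u hu1 (N / 2 ^ i) H hH1 η Y hη0.le hyY (by
        intro d hd1 hdH
        have h1 := hcon d (mem_range.2 hdH)
        rw [mem_filter, bd_mem] at h1
        push Not at h1
        have h2 : ‖SP (Fin.append a a) (Fin.append (fun j => b j + a j * (d : ℤ)) b)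
            (Pool.Agent.N781.E.toZ f2) (fun n => w (n + d) * (starRingEnd ℂ) (w n)) (N / 2 ^ i)‖ ≤ η * Y := by
          by_contra h3
          push Not at h3
          have := h1 ⟨⟨hi1, hiJ⟩, h3⟩
          omega
        rw [hf2, ← SP_diff] at h2
        exact h2)
      have hS : SP a b (Pool.Agent.N781.E.toZ f) w (N / 2 ^ i) = ∑ n ∈ Icc 1 (N / 2 ^ i), u n := rfl
      rw [← hS] at hv
      have hbig : (16 * H / ε ^ 2 + 32 * H ^ 2 / ε ^ 2 + 1 : ℝ) ≤ Y := by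
        rw [hY, le_div_iff₀ h2i]
        have h1 : (2 : ℝ) ^ i ≤ 2 ^ J := pow_le_pow_right₀ one_le_two hiJ
        have h2 : 2 ^ J * (16 * H / ε ^ 2 + 32 * H ^ 2 / ε ^ 2 + 1 : ℝ) ≤ N :=
          (Nat.le_ceil _).trans (by exact_mod_cast (le_trans (Nat.le_add_left _ _) hN))
        have h3 : (0 : ℝ) ≤ 16 * H / ε ^ 2 + 32 * H ^ 2 / ε ^ 2 + 1 := by positivity
        calc _ ≤ (16 * H / ε ^ 2 + 32 * H ^ 2 / ε ^ 2 + 1 : ℝ) * 2 ^ J :=
              mul_le_mul_of_nonneg_left h1 h3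
          _ ≤ N := by linarith
      have hε2 : 0 < ε ^ 2 := by positivity
      have k1 : 2 * Y ^ 2 / H ≤ ε ^ 2 / 4 * Y ^ 2 := by
        rw [div_le_iff₀ hε2] at hHr
        rw [div_le_iff₀ hH0]
        nlinarith [sq_nonneg Y]
      have k2 : 2 * η * Y ^ 2 = ε ^ 2 / 4 * Y ^ 2 := by rw [hη]; ring
      have k3 : 4 * H * Y ≤ ε ^ 2 / 4 * Y ^ 2 := by
        have h1 : 16 * H / ε ^ 2 ≤ Y := by
          have : (0 : ℝ) ≤ 32 * H ^ 2 / ε ^ 2 + 1 := by positivity
          linarith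
        rw [div_le_iff₀ hε2] at h1
        nlinarith
      have k4 : 8 * (H : ℝ) ^ 2 ≤ ε ^ 2 / 4 * Y ^ 2 := by
        have h1 : 32 * H ^ 2 / ε ^ 2 ≤ Y := by
          have : (0 : ℝ) ≤ 16 * H / ε ^ 2 + 1 := by positivity
          linarith
        have h2 : 1 ≤ Y := by
          have : (0 : ℝ) ≤ 16 * H / ε ^ 2 + 32 * H ^ 2 / ε ^ 2 := by positivity
          linarith
        rw [div_le_iff₀ hε2] at h1
        nlinarith [mul_nonneg (mul_nonneg hε2.le hY0) (sub_nonneg.2 h2)]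
      have k5 : ‖SP a b (Pool.Agent.N781.E.toZ f) w (N / 2 ^ i)‖ ^ 2 ≤ (ε * Y) ^ 2 := by
        rw [mul_pow]
        linarith
      have k6 : ‖SP a b (Pool.Agent.N781.E.toZ f) w (N / 2 ^ i)‖ ≤ ε * Y := by
        have := abs_le_of_sq_le_sq' k5 (by positivity)
        exact this.2
      linarith
    have hnn : ∀ i : ℕ, (0 : ℝ) ≤ 1 / (i : ℝ) := fun i => by positivity
    refine (mono_le hsub).trans ((sum_biUnion_le' _ _ _ hnn).trans (sum_le_sum fun d hd => ?_))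
    by_cases hd1 : 1 ≤ d
    · have h1 := hN₁ d N (by
        have := single_le_sum (f := N₁) (fun _ _ => Nat.zero_le _) hd
        omega) f2 hf2m hd1
      exact (mono_le (filter_subset _ _)).trans h1
    · have : (bd (fun y => ‖SP (Fin.append a a) (Fin.append (fun j => b j + a j * (d : ℤ)) b)
          (Pool.Agent.N781.E.toZ f2) (fun n => w (n + d) * (starRingEnd ℂ) (w n)) y‖) η J N).filter
          (fun _ => 1 ≤ d) = ∅ := by
        rw [filter_eq_empty_iff]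
        intro _ _
        exact hd1
      rw [this, sum_empty]
      exact hC0 d

/-- whole dyadic intervals -/
theorem wholeW (D : ℕ) (k : ℕ) (hk : 0 < k) (a : Fin k → ℕ) (b : Fin k → ℤ) (ha : ∀ j, 1 ≤ a j)
    (ε : ℝ) (hε : 0 < ε) : ∃ C : ℝ, ∀ w : ℕ → ℂ, LocN D w → ∀ J : ℕ, ∃ N₀ : ℕ, ∀ N : ℕ, N₀ ≤ N →
      ∀ f : Fin k → ℕ → ℂ, (∀ j, IsMult (f j)) →
      ∑ i ∈ exc (fun y => ‖SP a b (Pool.Agent.N781.E.toZ f) w y‖) ε J N, 1 / (i : ℝ) ≤ C := by
  obtain ⟨C, hC0, hC⟩ := locN_few D k hk a b ha (ε / 8) (by positivity)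
  obtain ⟨T, hT⟩ := sup_few 1 ε one_pos hε
  refine ⟨T * C, fun w hw J => ?_⟩
  obtain ⟨N₀, hN₀⟩ := hC w hw J
  obtain ⟨N₁, hN₁⟩ := hT J N₀
  refine ⟨N₁, fun N hN f hf => ?_⟩
  refine hN₁ (fun y => ‖SP a b (Pool.Agent.N781.E.toZ f) w y‖) (fun u v huv => ?_) C hC0
    (fun N' hN' => ?_) N hN
  swap
  · have := hN₀ N' hN' f hf
    unfold bd at this
    convert this using 3
  rw [one_mul]
  exact (abs_norm_sub_norm_le _ _).trans (SP_slow a b (toZ_norm hf) (LocN_bd hw) u v huv)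

end Run7.h581
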