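import Mathlib
import Pool.Agent.Run7.h581.Gen
import Pool.Agent.Run7.h581.LocN

/-!
Smooth phases: differences and derivatives.
-/

set_option autoImplicit false

namespace Run7.h581

open Finset Filter

/-- the `m`-th differences of `g` are asymptotic to `h_1 ⋯ h_m φ` -/
def PD : ℕ → (ℕ → ℝ) → (ℕ → ℝ) → Prop
  | 0, g, φ => Tendsto (fun n => g n - φ n) atTop (nhds 0)
  | m + 1, g, φ => ∀ h : ℕ, 1 ≤ h → PD m (fun n => g (n + h) - g n) (fun n => h * φ n)

/-- `ψ` is the `m`-th derivative of `g` on the positive axis -/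
def Tow : ℕ → (ℝ → ℝ) → (ℝ → ℝ) → Prop
  | 0, g, ψ => ∀ x : ℝ, 0 < x → g x = ψ x
  | m + 1, g, ψ => ∃ g1 : ℝ → ℝ, (∀ x : ℝ, 0 < x → HasDerivAt g (g1 x) x) ∧ Tow m g1 ψ

lemma tow_diff (m : ℕ) : ∀ (g ψ : ℝ → ℝ), Tow m g ψ → ∀ h : ℝ, 0 ≤ h →
    Tow m (fun x => g (x + h) - g x) (fun x => ψ (x + h) - ψ x) := by
  induction m with
  | zero =>
    intro g ψ hg h hh x hx
    simp only []
    rw [hg x hx, hg (x + h) (by linarith)]
  | succ m ih =>
    intro g ψ hg h hh
    obtain ⟨g1, h1, h2⟩ := hg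
    refine ⟨fun x => g1 (x + h) - g1 x, fun x hx => ?_, ih g1 ψ h2 h hh⟩
    exact ((h1 (x + h) (by linarith)).comp_add_const x h).sub (h1 x hx)

lemma tow_top (m : ℕ) : ∀ (g ψ : ℝ → ℝ), Tow (m + 1) g ψ →
    ∃ χ : ℝ → ℝ, Tow m g χ ∧ ∀ x : ℝ, 0 < x → HasDerivAt χ (ψ x) x := by
  induction m with
  | zero =>
    intro g ψ hg
    obtain ⟨g1, h1, h2⟩ := hg
    refine ⟨g, fun x _ => rfl, fun x hx => ?_⟩
    have h3 : g1 x = ψ x := h2 x hx
    rw [← h3]
    exact h1 x hx
  | succ m ih =>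
    intro g ψ hg
    obtain ⟨g1, h1, h2⟩ := hg
    obtain ⟨χ, h3, h4⟩ := ih g1 ψ h2
    exact ⟨χ, ⟨g1, h1, h3⟩, h4⟩

/-- differences of a function with slowly varying derivative -/
lemma sv_diff (χ ψ : ℝ → ℝ) (hχ : ∀ x : ℝ, 0 < x → HasDerivAt χ (ψ x) x) (hψ : SVr ψ) (h : ℝ)
    (hh : 0 ≤ h) (ε : ℝ) (hε : 0 < ε) : ∃ X : ℝ, 0 < X ∧ ∀ x : ℝ, X ≤ x →
      |χ (x + h) - χ x - h * ψ x| ≤ ε := by
  obtain ⟨X, hX0, hX⟩ := hψ h (ε / (h + 1)) (by positivity)
  refine ⟨X, hX0, fun x hx => ?_⟩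
  obtain ⟨ξ, h1, h2, h3⟩ := mvt χ ψ hχ x h (by linarith) hh
  have h4 := hX x hx (ξ - x) (by linarith) (by linarith)
  rw [add_sub_cancel] at h4
  have h5 : χ (x + h) - χ x - h * ψ x = h * (ψ ξ - ψ x) := by rw [h3]; ring
  rw [h5, abs_mul, abs_of_nonneg hh]
  calc h * |ψ ξ - ψ x| ≤ (h + 1) * (ε / (h + 1)) := mul_le_mul (by linarith) h4 (abs_nonneg _) (by positivity)
    _ = ε := by field_simp

lemma tow_pd (m : ℕ) : ∀ (g ψ : ℝ → ℝ), Tow m g ψ → SVr ψ → ∀ φ : ℕ → ℝ,
    Tendsto (fun n : ℕ => ψ n - φ n) atTop (nhds 0) → PD m (fun n : ℕ => g n) φ := by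
  induction m with
  | zero =>
    intro g ψ hg _ φ hφ
    show Tendsto (fun n : ℕ => g n - φ n) atTop (nhds 0)
    refine hφ.congr' ?_
    filter_upwards [eventually_gt_atTop 0] with n hn
    rw [hg n (by exact_mod_cast hn)]
  | succ m ih =>
    intro g ψ hg hψ φ hφ h hh
    obtain ⟨χ, h1, h2⟩ := tow_top m g ψ hg
    have hh0 : (0 : ℝ) ≤ (h : ℝ) := Nat.cast_nonneg _
    have h3 := tow_diff m g χ h1 h hh0
    have h4 : SVr (fun x => χ (x + h) - χ x) := by
      intro H ε hε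
      obtain ⟨X1, hX10, hX1⟩ := sv_diff χ ψ h2 hψ h hh0 (ε / 3) (by positivity)
      obtain ⟨X2, hX20, hX2⟩ := hψ H (ε / (3 * (h + 1))) (by positivity)
      refine ⟨max X1 X2, lt_max_of_lt_left hX10, fun x hx t ht htH => ?_⟩
      have e1 := hX1 x ((le_max_left _ _).trans hx)
      have e2 := hX1 (x + t) (by linarith [le_max_left X1 X2])
      have e3 := hX2 x ((le_max_right _ _).trans hx) t ht htH
      have e4 : |(h : ℝ) * (ψ (x + t) - ψ x)| ≤ ε / 3 := by
        rw [abs_mul, abs_of_nonneg hh0]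
        calc (h : ℝ) * |ψ (x + t) - ψ x| ≤ (h + 1) * (ε / (3 * (h + 1))) :=
              mul_le_mul (by linarith) e3 (abs_nonneg _) (by positivity)
          _ = ε / 3 := by field_simp
      have e5 : (χ (x + t + h) - χ (x + t)) - (χ (x + h) - χ x) =
          (χ (x + t + h) - χ (x + t) - h * ψ (x + t)) + h * (ψ (x + t) - ψ x) -
          (χ (x + h) - χ x - h * ψ x) := by ring
      simp only []
      rw [e5]
      have f1 := abs_le.1 e1
      have f2 := abs_le.1 e2
      have f4 := abs_le.1 e4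
      rw [abs_le]
      constructor <;> linarith
    have h5 := ih _ _ h3 h4 (fun n => h * φ n) (by
      rw [Metric.tendsto_nhds]
      intro ε hε
      obtain ⟨X1, hX10, hX1⟩ := sv_diff χ ψ h2 hψ h hh0 (ε / 3) (by positivity)
      have e1 := (Metric.tendsto_nhds.1 hφ) (ε / (3 * (h + 1))) (by positivity)
      filter_upwards [e1, (tendsto_natCast_atTop_atTop (R := ℝ)).eventually_ge_atTop X1] with n hn1 hn2
      rw [Real.dist_eq, sub_zero] at hn1 ⊢
      have e2 := hX1 n hn2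
      have e3 : |(h : ℝ) * (ψ n - φ n)| ≤ ε / 3 := by
        rw [abs_mul, abs_of_nonneg hh0]
        calc (h : ℝ) * |ψ n - φ n| ≤ (h + 1) * (ε / (3 * (h + 1))) :=
              mul_le_mul (by linarith) hn1.le (abs_nonneg _) (by positivity)
          _ = ε / 3 := by field_simp
      have e4 : χ ((n : ℝ) + h) - χ n - h * φ n = (χ ((n : ℝ) + h) - χ n - h * ψ n) + h * (ψ n - φ n) := by ring
      rw [e4]
      have f2 := abs_le.1 e2
      have f3 := abs_le.1 e3
      rw [abs_lt]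
      constructor <;> linarith)
    have h6 : (fun n : ℕ => (fun x => g (x + h) - g x) (n : ℝ)) =
        fun n : ℕ => (fun n : ℕ => g n) (n + h) - (fun n : ℕ => g n) n := by
      funext n
      simp only []
      push_cast
      rfl
    rw [h6] at h5
    exact h5

lemma pd_locN (D : ℕ) : ∀ (g φ : ℕ → ℝ), PD (D + 1) g φ →
    Tendsto (fun n => φ (n + 1) - φ n) atTop (nhds 0) →
    (∀ q : ℕ, 1 ≤ q → Freq (fun n => q * φ n)) → LocN D (fun n => ee (g n)) := by
  induction D with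
  | zero =>
    intro g φ hg hs hf
    refine ⟨fun m => (ee_norm _).le, ?_⟩
    have h1 : Tendsto (fun n => g (n + 1) - g n - φ n) atTop (nhds 0) := by
      have := hg 1 le_rfl
      refine Tendsto.congr (fun n => ?_) this
      simp
    refine freq_loc (ϑ := φ) ⟨fun m => (ee_norm _).le, fun ε hε => ?_, fun ε hε => ?_⟩ ?_
    · obtain ⟨m1, hm1⟩ := eventually_atTop.1 ((Metric.tendsto_nhds.1 h1) (ε / 7) (by positivity))
      refine ⟨m1, fun m hm => ?_⟩
      have h2 := hm1 m hm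
      rw [Real.dist_eq, sub_zero] at h2
      have h3 : ee (g (m + 1)) - ee (φ m) * ee (g m) = ee (g m + (g (m + 1) - g m)) - ee (g m + φ m) := by
        rw [add_sub_cancel, ee_add (g m) (φ m), mul_comm]
      rw [h3]
      refine (ee_sub_le _ _).trans ?_
      rw [add_sub_add_left_eq_sub]
      have h5 := Real.pi_lt_d2
      have h6 : 2 * Real.pi * |g (m + 1) - g m - φ m| ≤ (2 * 3.15) * (ε / 7) :=
        mul_le_mul (by linarith) h2.le (abs_nonneg _) (by norm_num)
      linarith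
    · obtain ⟨m1, hm1⟩ := eventually_atTop.1 ((Metric.tendsto_nhds.1 hs) ε hε)
      refine ⟨m1, fun m hm => ?_⟩
      have h2 := hm1 m hm
      rw [Real.dist_eq, sub_zero] at h2
      exact h2.le
    · have := hf 1 le_rfl
      simpa using this
  | succ D ih =>
    intro g φ hg hs hf
    refine ⟨fun m => (ee_norm _).le, fun h hh => ?_⟩
    have h1 : (fun n => ee (g (n + h)) * (starRingEnd ℂ) (ee (g n))) = fun n => ee (g (n + h) - g n) := by
      funext n
      rw [ee_conj, ← ee_add, sub_eq_add_neg]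
    simp only [] at h1 ⊢
    rw [h1]
    refine ih _ _ (hg h hh) ?_ (fun q hq => ?_)
    · have h2 := hs.const_mul (h : ℝ)
      rw [mul_zero] at h2
      refine h2.congr fun n => ?_
      ring
    · have h2 := hf (q * h) (Nat.mul_pos hq hh)
      have h3 : (fun n => ((q * h : ℕ) : ℝ) * φ n) = fun n => (q : ℝ) * (h * φ n) := by
        funext n
        push_cast
        ring
      rw [← h3]
      exact h2

/-- Smooth phases whose derivative of order `D + 2` is asymptotic to `κ x ^ (γ - 1)`. -/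
theorem smooth_locN (D : ℕ) (γ κ0 : ℝ) (hγ0 : 0 < γ) (hγ1 : γ < 1) (hκ0 : κ0 ≠ 0) (hg : GenExp γ)
    (G : ℕ → ℝ → ℝ) (hG : ∀ i : ℕ, i ≤ D + 1 → ∀ x : ℝ, 0 < x → HasDerivAt (G i) (G (i + 1) x) x)
    (hlim : Tendsto (fun x : ℝ => G (D + 2) x * x ^ (1 - γ)) atTop (nhds κ0)) :
    LocN D (fun n => ee (G 0 n)) := by
  have htow : ∀ m i : ℕ, i + m ≤ D + 2 → Tow m (G i) (G (i + m)) := by
    intro m
    induction m with
    | zero => intro i _ x _; rfl
    | succ m ih =>
      intro i hi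
      refine ⟨G (i + 1), hG i (by omega), ?_⟩
      have := ih (i + 1) (by omega)
      rw [show i + 1 + m = i + (m + 1) by ring] at this
      exact this
  have h1 : SVr (G (D + 1)) := svr_of_deriv (G (D + 1)) (G (D + 2)) (hG (D + 1) le_rfl)
    (deriv_zero γ κ0 hγ1 _ hlim)
  have h2 := tow_pd (D + 1) (G 0) (G (D + 1)) (by
    have := htow (D + 1) 0 (by omega)
    rwa [zero_add] at this) h1 (fun n => G (D + 1) n) (by simp)
  refine pd_locN D _ _ h2 ?_ (fun q hq => ?_)
  · rw [Metric.tendsto_nhds]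
    intro ε hε
    obtain ⟨X, hX0, hX⟩ := h1 1 (ε / 2) (by positivity)
    filter_upwards [(tendsto_natCast_atTop_atTop (R := ℝ)).eventually_ge_atTop X] with n hn
    have := hX n hn 1 zero_le_one le_rfl
    rw [Real.dist_eq, sub_zero]
    push_cast
    linarith
  · refine nonConc_freq (gen_nonConc γ (q * κ0) hγ0 hγ1 ?_ hg (fun x => q * G (D + 1) x)
      (fun x => q * G (D + 2) x) (fun x hx => (hG (D + 1) le_rfl x hx).const_mul _) ?_ _ (by simp))
    · exact mul_ne_zero (by exact_mod_cast (by omega : q ≠ 0)) hκ0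
    · have := hlim.const_mul (q : ℝ)
      refine this.congr fun x => ?_
      ring

end Run7.h581
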