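import Mathlib
import Pool.Agent.Run7.h581.Tower
import Pool.Agent.Run7.h581.Indep

/-!
Sums of real powers as smooth phases, and the theorem for smooth phases.
-/

set_option autoImplicit false

namespace Run7.h581

open Finset Filter Pool.Agent.TH575.CW Pool.Agent.N781.E

/-- `a (a - 1) ⋯ (a - i + 1)` -/
noncomputable def cf (a : ℝ) (i : ℕ) : ℝ := ∏ l ∈ range i, (a - l)

lemma cf_succ (a : ℝ) (i : ℕ) : cf a (i + 1) = cf a i * (a - i) := by
  unfold cf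
  rw [prod_range_succ]

lemma deriv_pow (a α : ℝ) (i : ℕ) (x : ℝ) (hx : 0 < x) :
    HasDerivAt (fun x : ℝ => α * cf a i * x ^ (a - i)) (α * cf a (i + 1) * x ^ (a - (i + 1 : ℕ))) x := by
  have h1 := (Real.hasDerivAt_rpow_const (x := x) (p := a - i) (Or.inl hx.ne')).const_mul (α * cf a i)
  refine h1.congr_deriv ?_
  rw [cf_succ]
  have : a - i - 1 = a - (i + 1 : ℕ) := by push_cast; ring
  rw [this]
  ring

/-- sums of powers -/
lemma powers_tower (c : ℝ) (m : ℕ) (hc : ∀ n : ℕ, c ≠ n) (α0 : ℝ) (h0 : α0 ≠ 0) (r : ℕ)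
    (α c' : Fin r → ℝ) (hlt : ∀ j, c' j < c) :
    ∃ (G : ℕ → ℝ → ℝ) (κ : ℝ), κ ≠ 0 ∧ (∀ x : ℝ, G 0 x = α0 * x ^ c + ∑ j, α j * x ^ (c' j)) ∧
      (∀ i : ℕ, ∀ x : ℝ, 0 < x → HasDerivAt (G i) (G (i + 1) x) x) ∧
      Tendsto (fun x : ℝ => G (m + 1) x * x ^ ((m : ℝ) + 1 - c)) atTop (nhds κ) := by
  refine ⟨fun i x => α0 * cf c i * x ^ (c - i) + ∑ j, α j * cf (c' j) i * x ^ (c' j - i),
    α0 * cf c (m + 1), ?_, ?_, ?_, ?_⟩
  · refine mul_ne_zero h0 ?_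
    unfold cf
    rw [prod_ne_zero_iff]
    intro l _
    exact sub_ne_zero.2 (hc l)
  · intro x
    simp [cf]
  · intro i x hx
    exact (deriv_pow c α0 i x hx).add (HasDerivAt.fun_sum fun j _ => deriv_pow (c' j) (α j) i x hx)
  · have h1 : ∀ j : Fin r, Tendsto (fun x : ℝ => α j * cf (c' j) (m + 1) * x ^ (-(c - c' j))) atTop (nhds 0) := by
      intro j
      have := (tendsto_rpow_neg_atTop (show 0 < c - c' j by linarith [hlt j])).const_mul
        (α j * cf (c' j) (m + 1))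
      simpa using this
    have h2 := (tendsto_finsetSum (univ : Finset (Fin r)) (fun j _ => h1 j)).const_add (α0 * cf c (m + 1))
    rw [sum_const_zero, add_zero] at h2
    refine h2.congr' ?_
    filter_upwards [eventually_gt_atTop 0] with x hx
    rw [add_mul, sum_mul, mul_assoc (α0 * cf c (m + 1)), ← Real.rpow_add hx]
    have e1 : c - (m + 1 : ℕ) + ((m : ℝ) + 1 - c) = 0 := by push_cast; ring
    rw [e1, Real.rpow_zero, mul_one]
    congr 1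
    apply sum_congr rfl
    intro j _
    rw [mul_assoc (α j * cf (c' j) (m + 1)), ← Real.rpow_add hx]
    congr 2
    push_cast
    ring

/-- The theorem for smooth phases. -/
theorem smooth_few (c : ℝ) (hc1 : 1 < c) (hc : ∀ n : ℕ, c ≠ n) (hind : Indep c) (k : ℕ) (hk : 0 < k)
    (a : Fin k → ℕ) (b : Fin k → ℤ) (ha : ∀ j, 1 ≤ a j) (ε : ℝ) (hε : 0 < ε) :
    ∃ C : ℝ, ∀ (G : ℕ → ℝ → ℝ) (κ : ℝ), κ ≠ 0 →
      (∀ i : ℕ, i ≤ ⌊c⌋₊ → ∀ x : ℝ, 0 < x → HasDerivAt (G i) (G (i + 1) x) x) →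
      Tendsto (fun x : ℝ => G (⌊c⌋₊ + 1) x * x ^ ((⌊c⌋₊ : ℝ) + 1 - c)) atTop (nhds κ) →
      ∀ J : ℕ, ∃ N₀ : ℕ, ∀ N : ℕ, N₀ ≤ N → ∀ f : Fin k → ℕ → ℂ, (∀ j, IsMult (f j)) →
      ∑ i ∈ exc (fun y => ‖SP a b (Pool.Agent.N781.E.toZ f) (fun n => ee (G 0 n)) y‖) ε J N,
        1 / (i : ℝ) ≤ C := by
  set m := ⌊c⌋₊ with hm
  have hm1 : 1 ≤ m := Nat.le_floor (by push_cast; exact hc1.le)
  have hmc : (m : ℝ) < c := lt_of_le_of_ne (Nat.floor_le (by linarith)) (fun h => hc m h.symm)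
  have hcm : c < m + 1 := Nat.lt_floor_add_one c
  obtain ⟨C, hC⟩ := wholeW (m - 1) k hk a b ha ε hε
  refine ⟨C, fun G κ hκ hG hlim => hC _ ?_⟩
  have hg := indep_genExp c m hm1 hind
  refine smooth_locN (m - 1) (c - m) κ (by linarith) (by linarith) hκ hg G (fun i hi => hG i (by omega)) ?_
  rw [show m - 1 + 2 = m + 1 by omega, show 1 - (c - (m : ℝ)) = (m : ℝ) + 1 - c by ring]
  exact hlim

end Run7.h581
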