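import Mathlib
import Pool.Agent.Run7.h581.Poly

/-!
Real polynomials with an irrational non-constant coefficient; whole dyadic intervals.
-/

set_option autoImplicit false

namespace Run7.h581

open Finset Pool.Agent.TH575.CW Pool.Agent.N781.E

lemma irr_sub (D : ℕ) : ∀ (q s : ℕ), 1 ≤ q → ∀ P : ℕ → ℝ, Irr D P → Irr D (fun m => P (q * m + s)) := by
  induction D with
  | zero =>
    intro q s hq P hP
    obtain ⟨θ, c, hθ, hP⟩ := hP
    refine ⟨q * θ, θ * s + c, hθ.natCast_mul (by omega), fun n => ?_⟩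
    simp only []
    rw [hP]
    push_cast
    ring
  | succ D ih =>
    intro q s hq P hP h hh
    have h1 := ih q s hq _ (hP (q * h) (Nat.mul_pos hq hh))
    have h2 : (fun m => P (q * m + s + q * h) - P (q * m + s)) =
        fun n => P (q * (n + h) + s) - P (q * n + s) := by
      funext n
      congr 2
      ring
    rw [← h2]
    exact h1

open Polynomial in
lemma irr_poly (D : ℕ) : ∀ P : ℝ[X], P.natDegree ≤ D + 1 → Irrational (P.coeff (D + 1)) →
    Irr D (fun n => P.eval (n : ℝ)) := by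
  induction D with
  | zero =>
    intro P h1 h2
    refine ⟨P.coeff 1, P.coeff 0, h2, fun n => ?_⟩
    simp only []
    conv_lhs => rw [Polynomial.eq_X_add_C_of_natDegree_le_one (p := P) h1]
    simp
  | succ D ih =>
    intro P h1 h2 h hh
    set Q : ℝ[X] := taylor (h : ℝ) P - P with hQ
    have e1 : ∀ n, (taylor (h : ℝ) P).coeff n = ((hasseDeriv n P).eval (h : ℝ)) := fun n => taylor_coeff _ _ _
    have hd : ∀ n, (hasseDeriv n P).natDegree ≤ D + 2 - n := fun n =>
      (natDegree_hasseDeriv_le P n).trans (Nat.sub_le_sub_right h1 n)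
    have hc2 : Q.coeff (D + 2) = 0 := by
      rw [hQ, coeff_sub, e1, eval_eq_sum_range' (n := 1) (by have := hd (D + 2); omega)]
      rw [sum_range_one, hasseDeriv_coeff]
      simp
    have hc1 : Q.coeff (D + 1) = ((h * (D + 2) : ℕ) : ℝ) * P.coeff (D + 2) := by
      rw [hQ, coeff_sub, e1, eval_eq_sum_range' (n := 2) (by have := hd (D + 1); omega)]
      rw [sum_range_succ, sum_range_one, hasseDeriv_coeff, hasseDeriv_coeff]
      have : ((1 + (D + 1)).choose (D + 1) : ℕ) = D + 2 := by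
        rw [add_comm, Nat.choose_succ_self_right]
      rw [this, show 1 + (D + 1) = D + 2 by ring]
      simp
      ring
    have hdeg : Q.natDegree ≤ D + 1 := by
      have h3 : Q.natDegree ≤ D + 2 := by
        rw [hQ]
        refine (natDegree_sub_le _ _).trans ?_
        rw [natDegree_taylor, max_self]
        exact h1
      by_contra hcon
      push Not at hcon
      have h4 : Q.natDegree = D + 2 := by omega
      have h5 : Q.leadingCoeff = 0 := by
        rw [leadingCoeff, h4, hc2]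
      rw [leadingCoeff_eq_zero] at h5
      rw [h5, natDegree_zero] at h4
      omega
    have h3 := ih Q hdeg (by
      rw [hc1]
      exact h2.natCast_mul (Nat.mul_ne_zero (by omega) (by omega)))
    have h4 : (fun n : ℕ => Q.eval (n : ℝ)) = fun n : ℕ => P.eval (((n + h : ℕ) : ℝ)) - P.eval (n : ℝ) := by
      funext n
      rw [hQ, eval_sub, taylor_eval]
      push_cast
      rfl
    rw [h4] at h3
    exact h3

/-- phases which are irrational on all residue classes modulo some `q` -/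
def Irr2 (P : ℕ → ℝ) : Prop :=
  ∃ q : ℕ, 1 ≤ q ∧ ∀ r : ℕ, ∃ (D : ℕ) (Q : ℕ → ℝ) (c : ℝ), Irr D Q ∧ ∀ m, ee (P (q * m + r)) = ee c * ee (Q m)

open Polynomial in
lemma poly_irr2 (n : ℕ) : ∀ P : ℝ[X], P.natDegree ≤ n → (∃ d, 1 ≤ d ∧ Irrational (P.coeff d)) →
    Irr2 (fun m => P.eval (m : ℝ)) := by
  induction n with
  | zero =>
    intro P h1 h2
    obtain ⟨d, hd, hirr⟩ := h2
    rw [coeff_eq_zero_of_natDegree_lt (by omega)] at hirr
    exact absurd hirr not_irrational_zero
  | succ n ih =>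
    intro P h1 h2
    by_cases hlead : Irrational (P.coeff (n + 1))
    · refine ⟨1, le_rfl, fun r => ⟨n, fun m => P.eval ((1 * m + r : ℕ) : ℝ), 0, ?_, fun m => ?_⟩⟩
      · exact irr_sub n 1 r le_rfl _ (irr_poly n P h1 hlead)
      · simp only [ee_zero, one_mul]
    · unfold Irrational at hlead
      push Not at hlead
      obtain ⟨t, ht⟩ := hlead
      set P' : ℝ[X] := P - Polynomial.C (P.coeff (n + 1)) * Polynomial.X ^ (n + 1) with hP'
      have hc : ∀ d, P'.coeff d = if d = n + 1 then 0 else P.coeff d := by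
        intro d
        rw [hP', coeff_sub, coeff_C_mul, coeff_X_pow]
        split_ifs with h
        · rw [h]; simp
        · simp
      have hdeg : P'.natDegree ≤ n := by
        rw [natDegree_le_iff_coeff_eq_zero]
        intro d hd
        rw [hc]
        split_ifs with h
        · rfl
        · exact coeff_eq_zero_of_natDegree_lt (by omega)
      obtain ⟨d, hd, hirr⟩ := h2
      have hdn : d ≠ n + 1 := by
        rintro rfl
        rw [← ht] at hirr
        exact hirr ⟨t, rfl⟩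
      obtain ⟨q, hq, hq2⟩ := ih P' hdeg ⟨d, hd, by rw [hc, if_neg hdn]; exact hirr⟩
      refine ⟨q * t.den, Nat.mul_pos hq t.den_pos, fun r => ?_⟩
      obtain ⟨D, Q, c, hQ, hcm⟩ := hq2 r
      refine ⟨D, fun m => Q (t.den * m + 0), c + t * (r : ℝ) ^ (n + 1), irr_sub D t.den 0 t.den_pos Q hQ,
        fun m => ?_⟩
      have h3 := hcm (t.den * m)
      have h4 : P.eval (((q * t.den * m + r : ℕ) : ℝ)) =
          P'.eval (((q * (t.den * m) + r : ℕ) : ℝ)) + t * ((q * t.den * m + r : ℕ) : ℝ) ^ (n + 1) := by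
        rw [hP', eval_sub, eval_mul, eval_C, eval_pow, eval_X, ← ht, mul_assoc]
        ring
      -- the rational term modulo one
      obtain ⟨w, hw⟩ : ∃ w : ℤ, ((q * t.den * m + r : ℤ)) ^ (n + 1) = (r : ℤ) ^ (n + 1) + t.den * w := by
        have h5 : (q * t.den * m + r : ℤ) ≡ r [ZMOD t.den] := by
          rw [Int.modEq_comm, Int.modEq_iff_dvd]
          exact ⟨q * m, by ring⟩
        have h6 := h5.pow (n + 1)
        rw [Int.modEq_comm, Int.modEq_iff_dvd] at h6
        obtain ⟨w, hw⟩ := h6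
        exact ⟨w, by linarith⟩
      have h5 : (t : ℝ) * ((q * t.den * m + r : ℕ) : ℝ) ^ (n + 1) =
          t * (r : ℝ) ^ (n + 1) + ((t.num * w : ℤ) : ℝ) := by
        have h6 : ((q * t.den * m + r : ℕ) : ℝ) ^ (n + 1) = (r : ℝ) ^ (n + 1) + t.den * w := by
          have := congrArg (fun z : ℤ => (z : ℝ)) hw
          push_cast at this
          push_cast
          exact this
        have h7 : (t : ℝ) = t.num / t.den := Rat.cast_def t
        have h8 : (t.den : ℝ) ≠ 0 := by exact_mod_cast t.den_pos.ne'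
        rw [h6]
        push_cast
        rw [mul_add]
        congr 1
        rw [h7]
        field_simp
      simp only [add_zero]
      rw [h4, h5, ee_add, h3, ee_add, ee_int, mul_one, ee_add]
      ring

/-- sums over residue classes -/
lemma sum_classes (q y : ℕ) (hq : 1 ≤ q) (u : ℕ → ℂ) (hu : ∀ n, ‖u n‖ ≤ 1) :
    ‖∑ n ∈ Icc 1 y, u n - ∑ r ∈ range q, ∑ m ∈ Icc 1 (y / q), u (q * m + r)‖ ≤ 2 * q := by
  have e1 : ∀ Y : ℕ, ∑ r ∈ range q, ∑ m ∈ Icc 1 Y, u (q * m + r) = ∑ n ∈ Ico q (q * (Y + 1)), u n := by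
    intro Y
    induction Y with
    | zero => simp
    | succ Y ih =>
      have h1 : ∀ r ∈ range q, ∑ m ∈ Icc 1 (Y + 1), u (q * m + r) =
          ∑ m ∈ Icc 1 Y, u (q * m + r) + u (q * (Y + 1) + r) := by
        intro r _
        rw [sum_Icc_succ_top (by omega)]
      rw [sum_congr rfl h1, sum_add_distrib, ih]
      have h2 : ∑ r ∈ range q, u (q * (Y + 1) + r) = ∑ n ∈ Ico (q * (Y + 1)) (q * (Y + 1 + 1)), u n := by
        rw [Finset.sum_Ico_eq_sum_range]
        have : q * (Y + 1 + 1) - q * (Y + 1) = q := by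
          rw [Nat.mul_add q (Y + 1) 1, mul_one, Nat.add_sub_cancel_left]
        rw [this]
      rw [h2, Finset.sum_Ico_consecutive]
      · nlinarith
      · nlinarith
  rw [e1, ← Finset.sum_sdiff_sub_sum_sdiff]
  refine (norm_sub_le _ _).trans ?_
  have f1 : ∀ S : Finset ℕ, ‖∑ n ∈ S, u n‖ ≤ S.card := by
    intro S
    refine (norm_sum_le _ _).trans ?_
    refine (sum_le_sum (fun n _ => hu n)).trans ?_
    rw [sum_const, nsmul_eq_mul, mul_one]
  have hdm := Nat.div_add_mod y q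
  have hml := Nat.mod_lt y hq
  have f2 : (Icc 1 y \ Ico q (q * (y / q + 1))).card ≤ q := by
    have : Icc 1 y \ Ico q (q * (y / q + 1)) ⊆ Ico 1 q := by
      intro n hn
      rw [mem_sdiff, mem_Icc, mem_Ico] at hn
      rw [mem_Ico]
      refine ⟨hn.1.1, ?_⟩
      by_contra hcon
      push Not at hcon
      apply hn.2
      refine ⟨hcon, ?_⟩
      rw [mul_add, mul_one]
      omega
    refine (card_le_card this).trans ?_
    rw [Nat.card_Ico]
    omega
  have f3 : (Ico q (q * (y / q + 1)) \ Icc 1 y).card ≤ q := by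
    have : Ico q (q * (y / q + 1)) \ Icc 1 y ⊆ Ico (y + 1) (y + 1 + q) := by
      intro n hn
      rw [mem_sdiff, mem_Icc, mem_Ico, mul_add, mul_one] at hn
      rw [mem_Ico]
      constructor
      · by_contra hcon
        push Not at hcon
        exact hn.2 ⟨by omega, by omega⟩
      · omega
    refine (card_le_card this).trans ?_
    rw [Nat.card_Ico]
    omega
  have g1 := f1 (Icc 1 y \ Ico q (q * (y / q + 1)))
  have g2 := f1 (Ico q (q * (y / q + 1)) \ Icc 1 y)
  have g3 : ((Icc 1 y \ Ico q (q * (y / q + 1))).card : ℝ) ≤ q := by exact_mod_cast f2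
  have g4 : ((Ico q (q * (y / q + 1)) \ Icc 1 y).card : ℝ) ≤ q := by exact_mod_cast f3
  linarith

/-- Phases which are irrational on residue classes. -/
theorem irr2_few (k : ℕ) (hk : 0 < k) (a : Fin k → ℕ) (b : Fin k → ℤ) (ha : ∀ j, 1 ≤ a j)
    (P : ℕ → ℝ) (hP : Irr2 P) (ε : ℝ) (hε : 0 < ε) : ∃ C : ℝ, 0 ≤ C ∧ Few a b P ε C := by
  classical
  obtain ⟨q, hq, hr⟩ := hP
  choose D Q c hQ hcm using hr
  have hq0 : (0 : ℝ) < q := by exact_mod_cast hq
  have hch : ∀ r : ℕ, ∃ C : ℝ, 0 ≤ C ∧ ∀ P : ℕ → ℝ, Irr (D r) P →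
      Few (fun j => a j * q) (fun j => b j + a j * (r : ℤ)) P (ε / 2) C := fun r =>
    irr_few (D r) k hk (fun j => a j * q) _ (fun j => Nat.mul_pos (ha j) hq) (ε / 2) (by positivity)
  choose C hC0 hC using hch
  refine ⟨∑ r ∈ range q, C r, sum_nonneg fun r _ => hC0 r, fun J => ?_⟩
  have hch2 := fun r => hC r (Q r) (hQ r) J
  choose N₁ hN₁ using hch2
  refine ⟨q * ∑ r ∈ range q, N₁ r + ⌈2 ^ J * (4 * q / ε)⌉₊, fun N hN f hf => ?_⟩
  have hsub : bd (fun y => ‖cs a b P f y‖) ε J N ⊆ (range q).biUnion (fun r =>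
      bd (fun y => ‖cs (fun j => a j * q) (fun j => b j + a j * (r : ℤ)) (Q r) f y‖) (ε / 2) J (N / q)) := by
    intro i hi
    by_contra hcon
    rw [mem_biUnion] at hcon
    push Not at hcon
    rw [bd_mem] at hi
    obtain ⟨⟨hi1, hiJ⟩, hi3⟩ := hi
    have h2i : (0 : ℝ) < 2 ^ i := by positivity
    set u : ℕ → ℂ := fun n => ee (P n) * ∏ j, Pool.Agent.N781.E.toZ f j (a j * (n : ℤ) + b j) with hu
    have hu1 : ∀ n, ‖u n‖ ≤ 1 := fun n => term_le (toZ_norm hf) (fun m => (ee_norm (P m)).le) n _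
    have h1 := sum_classes q (N / 2 ^ i) hq u hu1
    have hdiv : N / 2 ^ i / q = N / q / 2 ^ i := by
      rw [Nat.div_div_eq_div_mul, Nat.div_div_eq_div_mul, mul_comm]
    have h2 : ∀ r ∈ range q, ‖∑ m ∈ Icc 1 (N / 2 ^ i / q), u (q * m + r)‖ ≤ ε / 2 * (N / q / 2 ^ i) := by
      intro r hrq
      have h3 : ∑ m ∈ Icc 1 (N / 2 ^ i / q), u (q * m + r) =
          ee (c r) * cs (fun j => a j * q) (fun j => b j + a j * (r : ℤ)) (Q r) f (N / q / 2 ^ i) := by
        rw [hdiv]
        unfold cs SP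
        rw [mul_sum]
        apply sum_congr rfl
        intro m _
        simp only [hu]
        rw [hcm]
        rw [mul_assoc]
        congr 2
        apply prod_congr rfl
        intro j _
        congr 1
        push_cast
        ring
      rw [h3, norm_mul, ee_norm, one_mul]
      have h4 := hcon r hrq
      rw [bd_mem] at h4
      push Not at h4
      have h5 := h4 ⟨hi1, hiJ⟩
      refine h5.trans ?_
      apply mul_le_mul_of_nonneg_left _ (by positivity)
      apply div_le_div_of_nonneg_right _ h2i.le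
      exact Nat.cast_div_le
    have h3 : ‖∑ r ∈ range q, ∑ m ∈ Icc 1 (N / 2 ^ i / q), u (q * m + r)‖ ≤ ε / 2 * (N / 2 ^ i) := by
      refine (norm_sum_le _ _).trans ((sum_le_sum h2).trans (le_of_eq ?_))
      rw [sum_const, card_range, nsmul_eq_mul]
      field_simp
    have h4 : 2 * (q : ℝ) ≤ ε / 2 * (N / 2 ^ i) := by
      have h5 : (2 : ℝ) ^ i ≤ 2 ^ J := pow_le_pow_right₀ one_le_two hiJ
      have h6 : 2 ^ J * (4 * q / ε) ≤ N :=
        (Nat.le_ceil _).trans (by exact_mod_cast (le_trans (Nat.le_add_left _ _) hN))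
      rw [mul_div_assoc', div_le_iff₀ hε] at h6
      rw [mul_div_assoc', le_div_iff₀ h2i]
      nlinarith
    have h5 : ‖∑ n ∈ Icc 1 (N / 2 ^ i), u n‖ ≤ ε * (N / 2 ^ i) := by
      have := norm_add_le (∑ n ∈ Icc 1 (N / 2 ^ i), u n -
        ∑ r ∈ range q, ∑ m ∈ Icc 1 (N / 2 ^ i / q), u (q * m + r))
        (∑ r ∈ range q, ∑ m ∈ Icc 1 (N / 2 ^ i / q), u (q * m + r))
      rw [sub_add_cancel] at this
      linarith
    have h6 : cs a b P f (N / 2 ^ i) = ∑ n ∈ Icc 1 (N / 2 ^ i), u n := rfl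
    rw [h6] at hi3
    linarith
  have hnn : ∀ i : ℕ, (0 : ℝ) ≤ 1 / (i : ℝ) := fun i => by positivity
  refine (mono_le hsub).trans ((sum_biUnion_le' _ _ _ hnn).trans (sum_le_sum fun r hr => ?_))
  refine hN₁ r (N / q) ?_ f hf
  rw [Nat.le_div_iff_mul_le hq]
  have h1 := single_le_sum (f := N₁) (fun _ _ => Nat.zero_le _) hr
  have h2 : N₁ r * q ≤ q * ∑ r ∈ range q, N₁ r := by
    rw [mul_comm]
    exact Nat.mul_le_mul_left _ h1
  omega

/-- whole dyadic intervals -/
theorem whole (k : ℕ) (hk : 0 < k) (a : Fin k → ℕ) (b : Fin k → ℤ) (ha : ∀ j, 1 ≤ a j)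
    (P : ℕ → ℝ) (hP : Irr2 P) (ε : ℝ) (hε : 0 < ε) : ∃ C : ℝ, ∀ J : ℕ, ∃ N₀ : ℕ, ∀ N : ℕ, N₀ ≤ N →
      ∀ f : Fin k → ℕ → ℂ, (∀ j, IsMult (f j)) →
      ∑ i ∈ exc (fun y => ‖cs a b P f y‖) ε J N, 1 / (i : ℝ) ≤ C := by
  obtain ⟨C, hC0, hC⟩ := irr2_few k hk a b ha P hP (ε / 8) (by positivity)
  obtain ⟨T, hT⟩ := sup_few 1 ε one_pos hε
  refine ⟨T * C, fun J => ?_⟩
  obtain ⟨N₀, hN₀⟩ := hC J
  obtain ⟨N₁, hN₁⟩ := hT J N₀
  refine ⟨N₁, fun N hN f hf => ?_⟩
  refine hN₁ (fun y => ‖cs a b P f y‖) (fun u v huv => ?_) C hC0 (fun N' hN' => ?_) N hN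
  swap
  · have := hN₀ N' hN' f hf
    unfold bd at this
    convert this using 3
  rw [one_mul]
  exact (abs_norm_sub_norm_le _ _).trans (SP_slow a b (toZ_norm hf) (fun m => (ee_norm (P m)).le) u v huv)

end Run7.h581
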